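import Mathlib
import Pool.Agent.Helper58.EN.Defs

set_option autoImplicit false

namespace Pool.Agent.Helper58.K2

open Matrix Pool.Agent.Helper58.EN

/-- Steinberg relations for a family of group elements (convention `X i i a = 1`). -/
structure SR {ι A G : Type} [NonUnitalRing A] [Group G] (X : ι → ι → A → G) : Prop where
  diag : ∀ i a, X i i a = 1
  add : ∀ i j a b, X i j (a + b) = X i j a * X i j b
  comm : ∀ i j k, i ≠ j → j ≠ k → i ≠ k → ∀ a b,
    X i j a * X j k b * (X i j a)⁻¹ * (X j k b)⁻¹ = X i k (a * b)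
  commute : ∀ i j k l, j ≠ k → i ≠ l → ∀ a b, X i j a * X k l b = X k l b * X i j a

namespace SR
variable {ι A G : Type} [NonUnitalRing A] [Group G] {X : ι → ι → A → G}

theorem zero (h : SR X) (i j : ι) : X i j 0 = 1 := by
  have := h.add i j 0 0
  rw [add_zero] at this
  exact left_eq_mul.mp this

theorem neg (h : SR X) (i j : ι) (a : A) : X i j (-a) = (X i j a)⁻¹ := by
  rw [eq_inv_iff_mul_eq_one, ← h.add, neg_add_cancel, h.zero]

theorem comm' (h : SR X) (i j : ι) (a b : A) : X i j a * X i j b = X i j b * X i j a := by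
  rw [← h.add, ← h.add, add_comm]

/-- conjugation of `X j k` by `X i j`. -/
theorem conjL (h : SR X) (i j k : ι) (hij : i ≠ j) (hjk : j ≠ k) (hik : i ≠ k) (a b : A) :
    X i j a * X j k b * (X i j a)⁻¹ = X i k (a * b) * X j k b := by
  rw [← h.comm i j k hij hjk hik]; group

/-- conjugation of `X k i` by `X i j`. -/
theorem conjR (h : SR X) (i j k : ι) (hij : i ≠ j) (hki : k ≠ i) (hkj : k ≠ j) (a b : A) :
    X i j a * X k i b * (X i j a)⁻¹ = X k j (-(b * a)) * X k i b := by
  rw [h.neg, ← h.comm k i j hki hij hkj]; group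

/-- conjugation, commuting case. -/
theorem conjC (h : SR X) (i j k l : ι) (hjk : j ≠ k) (hil : i ≠ l) (a b : A) :
    X i j a * X k l b * (X i j a)⁻¹ = X k l b := by
  rw [h.commute i j k l hjk hil]; group

end SR

section St
variable (ι A : Type) [NonUnitalRing A]

/-- defining relators of the Steinberg group. -/
def rels : Set (FreeGroup (ι × ι × A)) :=
  {r | (∃ i a, r = FreeGroup.of (i, i, a)) ∨
    (∃ i j a b, r = FreeGroup.of (i, j, a) * FreeGroup.of (i, j, b) *
      (FreeGroup.of (i, j, a + b))⁻¹) ∨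
    (∃ i j k, i ≠ j ∧ j ≠ k ∧ i ≠ k ∧ ∃ a b,
      r = FreeGroup.of (i, j, a) * FreeGroup.of (j, k, b) * (FreeGroup.of (i, j, a))⁻¹ *
        (FreeGroup.of (j, k, b))⁻¹ * (FreeGroup.of (i, k, a * b))⁻¹) ∨
    (∃ i j k l, j ≠ k ∧ i ≠ l ∧ ∃ a b,
      r = FreeGroup.of (i, j, a) * FreeGroup.of (k, l, b) *
        (FreeGroup.of (k, l, b) * FreeGroup.of (i, j, a))⁻¹)}

/-- the Steinberg group of a (nonunital) ring. -/
def St : Type := PresentedGroup (rels ι A)

instance : Group (St ι A) := inferInstanceAs (Group (PresentedGroup (rels ι A)))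

variable {ι A}

/-- the generators of the Steinberg group. -/
def x (i j : ι) (a : A) : St ι A := PresentedGroup.of (i, j, a)

theorem x_sr : SR (x : ι → ι → A → St ι A) where
  diag i a := PresentedGroup.one_of_mem (rels := rels ι A) (Or.inl ⟨i, a, rfl⟩)
  add i j a b := by
    have h := PresentedGroup.one_of_mem (rels := rels ι A) (Or.inr (Or.inl ⟨i, j, a, b, rfl⟩))
    rw [map_mul, map_mul, map_inv, mul_inv_eq_one] at h
    exact h.symm
  comm i j k hij hjk hik a b := by
    have h := PresentedGroup.one_of_mem (rels := rels ι A)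
      (Or.inr (Or.inr (Or.inl ⟨i, j, k, hij, hjk, hik, a, b, rfl⟩)))
    simp only [map_mul, map_inv, mul_inv_eq_one] at h
    exact h
  commute i j k l hjk hil a b := by
    have h := PresentedGroup.one_of_mem (rels := rels ι A)
      (Or.inr (Or.inr (Or.inr ⟨i, j, k, l, hjk, hil, a, b, rfl⟩)))
    simp only [map_mul, map_inv, mul_inv_eq_one] at h
    exact h

variable {G : Type} [Group G]

/-- universal property of the Steinberg group. -/
def lift {X : ι → ι → A → G} (h : SR X) : St ι A →* G :=
  PresentedGroup.toGroup (rels := rels ι A) (f := fun p : ι × ι × A => X p.1 p.2.1 p.2.2) (by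
    rintro r (⟨i, a, rfl⟩ | ⟨i, j, a, b, rfl⟩ | ⟨i, j, k, hij, hjk, hik, a, b, rfl⟩ |
      ⟨i, j, k, l, hjk, hil, a, b, rfl⟩)
    · simp [h.diag]
    · simp [h.add]
    · simp only [map_mul, map_inv, FreeGroup.lift_apply_of]
      rw [h.comm i j k hij hjk hik]; group
    · simp only [map_mul, map_inv, FreeGroup.lift_apply_of]
      rw [h.commute i j k l hjk hil]; group)

@[simp] theorem lift_x {X : ι → ι → A → G} (h : SR X) (i j : ι) (a : A) :
    lift h (x i j a) = X i j a :=
  PresentedGroup.toGroup.of (rels := rels ι A) (f := fun p : ι × ι × A => X p.1 p.2.1 p.2.2) _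

theorem hom_ext {f g : St ι A →* G} (h : ∀ i j a, f (x i j a) = g (x i j a)) : f = g :=
  PresentedGroup.ext (rels := rels ι A) (fun p => h p.1 p.2.1 p.2.2)

theorem closure_x : Subgroup.closure {g : St ι A | ∃ i j a, g = x i j a} = ⊤ := by
  have h0 : Subgroup.closure (Set.range (PresentedGroup.of (rels := rels ι A))) = ⊤ :=
    PresentedGroup.closure_range_of (rels ι A)
  have h1 : Set.range (PresentedGroup.of (rels := rels ι A)) ⊆
      {g : St ι A | ∃ i j a, g = x i j a} := by
    rintro _ ⟨p, rfl⟩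
    exact ⟨p.1, p.2.1, p.2.2, rfl⟩
  exact top_le_iff.mp (h0 ▸ Subgroup.closure_mono h1)

/-- induction by left multiplication with generators. -/
theorem St_induction {p : St ι A → Prop} (h1 : p 1)
    (hx : ∀ i j a g, p g → p (x i j a * g)) (g : St ι A) : p g := by
  have hg : g ∈ Subgroup.closure {g : St ι A | ∃ i j a, g = x i j a} := by
    rw [closure_x]; trivial
  induction hg using Subgroup.closure_induction_left with
  | one => exact h1
  | mul_left y hy z hz ih => obtain ⟨i, j, a, rfl⟩ := hy; exact hx i j a z ih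
  | inv_mul_cancel y hy z hz ih =>
    obtain ⟨i, j, a, rfl⟩ := hy
    rw [← x_sr.neg]
    exact hx i j (-a) z ih

/-- functoriality. -/
def map {A' : Type} [NonUnitalRing A'] (f : A →ₙ+* A') : St ι A →* St ι A' :=
  lift (X := fun i j a => x i j (f a))
    { diag := fun i a => x_sr.diag i _
      add := fun i j a b => by rw [map_add, x_sr.add]
      comm := fun i j k hij hjk hik a b => by rw [map_mul, x_sr.comm i j k hij hjk hik]
      commute := fun i j k l hjk hil a b => x_sr.commute i j k l hjk hil _ _ }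

@[simp] theorem map_x {A' : Type} [NonUnitalRing A'] (f : A →ₙ+* A') (i j : ι) (a : A) :
    map f (x i j a) = x i j (f a) := lift_x _ i j a

end St

section functor
variable {ι : Type}

/-- functoriality for unital ring homomorphisms. -/
def mapR {R S : Type} [Ring R] [Ring S] (f : R →+* S) : St ι R →* St ι S :=
  map (f : R →ₙ+* S)

@[simp] theorem mapR_x {R S : Type} [Ring R] [Ring S] (f : R →+* S) (i j : ι) (a : R) :
    mapR f (x i j a) = x i j (f a) := map_x _ i j a

theorem mapR_comp {R S T : Type} [Ring R] [Ring S] [Ring T] (f : R →+* S) (g : S →+* T)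
    (α : St ι R) : mapR (g.comp f) α = mapR g (mapR f α) := by
  have : (mapR (g.comp f) : St ι R →* St ι T) = (mapR g).comp (mapR f) :=
    hom_ext (fun i j a => by simp)
  rw [this]; rfl

theorem mapR_surj {R S : Type} [Ring R] [Ring S] (f : R →+* S) (hf : Function.Surjective f) :
    Function.Surjective (mapR f : St ι R →* St ι S) := by
  intro g
  induction g using St_induction with
  | h1 => exact ⟨1, map_one _⟩
  | hx i j a g ih =>
    obtain ⟨y, rfl⟩ := ih
    obtain ⟨b, rfl⟩ := hf a
    exact ⟨x i j b * y, by simp⟩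

/-- column subgroup with entries in `s`. -/
def col {A G : Type} [Group G] (X : ι → ι → A → G) (j : ι) (s : Set A) : Subgroup G :=
  Subgroup.closure {g | ∃ i, ∃ a ∈ s, g = X i j a}

/-- row subgroup with entries in `s`. -/
def row {A G : Type} [Group G] (X : ι → ι → A → G) (j : ι) (s : Set A) : Subgroup G :=
  Subgroup.closure {g | ∃ i, ∃ a ∈ s, g = X j i a}

/-- the diagonal-type element; `u` is the unit `1 + p * q`. -/
def hh {R G : Type} [Ring R] [Group G] (X : ι → ι → R → G) (i j : ι) (p q : R) (u : Rˣ) : G :=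
  X j i (-(q * ((u⁻¹ : Rˣ) : R))) * X i j p * X j i q * X i j (-(((u⁻¹ : Rˣ) : R) * p))

/-- generators of the block-diagonal subgroup. -/
def N0gen {R G : Type} [Ring R] [Group G] (X : ι → ι → R → G) (j : ι) : Set G :=
  {g | (∃ k l, k ≠ j ∧ l ≠ j ∧ ∃ b, g = X k l b) ∨
    (∃ i, i ≠ j ∧ ∃ p q : R, ∃ u : Rˣ, (u : R) = 1 + p * q ∧
      (g = hh X i j p q u ∨ g = hh X j i p q u))}

/-- the block-diagonal subgroup. -/
def N0 {R G : Type} [Ring R] [Group G] (X : ι → ι → R → G) (j : ι) : Subgroup G :=
  Subgroup.closure (N0gen X j)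

end functor

section unital
variable {ι : Type} [Fintype ι] [DecidableEq ι]

/-- total version of `tv`. -/
def tvs {R : Type} [Ring R] (i j : ι) (a : R) : (Matrix ι ι R)ˣ :=
  if h : i ≠ j then tv i j h a else 1

theorem tvs_val {R : Type} [Ring R] (i j : ι) (h : i ≠ j) (a : R) :
    ((tvs i j a : (Matrix ι ι R)ˣ) : Matrix ι ι R) = 1 + Matrix.single i j a := by
  simp [tvs, h]

theorem tvs_sr {R : Type} [Ring R] : SR (tvs : ι → ι → R → (Matrix ι ι R)ˣ) where
  diag i a := by simp [tvs]
  add i j a b := by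
    by_cases h : i ≠ j
    · simp only [tvs, dif_pos h, tv_add]
    · simp only [tvs, dif_neg h, mul_one]
  comm i j k hij hjk hik a b := by
    simp only [tvs, dif_pos hij, dif_pos hjk, dif_pos hik]
    exact tv_comm i j k hij hjk hik a b
  commute i j k l hjk hil a b := by
    by_cases hij : i ≠ j
    · by_cases hkl : k ≠ l
      · simp only [tvs, dif_pos hij, dif_pos hkl]
        rw [← mul_inv_eq_iff_eq_mul]
        exact tv_commute i j k l hij hkl hjk hil a b
      · simp only [tvs, dif_neg hkl, mul_one, one_mul]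
    · simp only [tvs, dif_neg hij, mul_one, one_mul]

/-- the canonical map from the Steinberg group to the general linear group. -/
def mat {R : Type} [Ring R] : St ι R →* (Matrix ι ι R)ˣ := lift tvs_sr

@[simp] theorem mat_x {R : Type} [Ring R] (i j : ι) (a : R) :
    mat (x i j a : St ι R) = tvs i j a := lift_x _ i j a

theorem mat_mapR {R S : Type} [Ring R] [Ring S] (f : R →+* S) (α : St ι R) :
    mat (mapR f α) = mapGL f (mat α) := by
  have : ((mat : St ι S →* _).comp (mapR f)) = (mapGL f).comp (mat : St ι R →* _) := by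
    apply hom_ext
    intro i j a
    by_cases h : i ≠ j
    · simp only [MonoidHom.comp_apply, mapR_x, mat_x, tvs, dif_pos h, mapGL_tv]
    · simp only [MonoidHom.comp_apply, mapR_x, mat_x, tvs, dif_neg h, map_one]
  exact DFunLike.congr_fun this α

/-- `α` is central in the Steinberg group. -/
def CE {R : Type} [Ring R] (α : St ι R) : Prop := ∀ β : St ι R, α * β = β * α

/-- the unstable group `K_2` is central. -/
def CK (ι : Type) [Fintype ι] [DecidableEq ι] (R : Type) [Ring R] : Prop :=
  ∀ α : St ι R, mat α = 1 → CE α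

end unital

section structures

/-- compatible left and right actions of a ring `B` on a nonunital ring `A`. -/
structure BM {B A : Type} [Ring B] [NonUnitalRing A] (lm : B → A → A) (rm : A → B → A) :
    Prop where
  lm_add : ∀ b b' a, lm (b + b') a = lm b a + lm b' a
  lm_add' : ∀ b a a', lm b (a + a') = lm b a + lm b a'
  lm_mul : ∀ b b' a, lm (b * b') a = lm b (lm b' a)
  lm_one : ∀ a, lm 1 a = a
  rm_add : ∀ a b b', rm a (b + b') = rm a b + rm a b'
  rm_add' : ∀ a a' b, rm (a + a') b = rm a b + rm a' b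
  rm_mul : ∀ a b b', rm a (b * b') = rm (rm a b) b'
  rm_one : ∀ a, rm a 1 = a
  assoc : ∀ b a b', rm (lm b a) b' = lm b (rm a b')
  lm_mulA : ∀ b a a', lm b (a * a') = lm b a * a'
  rm_mulA : ∀ a a' b, rm (a * a') b = a * rm a' b
  mid : ∀ a b a', rm a b * a' = a * lm b a'

/-- mixed Steinberg relations between a family over `B` and a family over `A`. -/
structure MR {ι B A G : Type} [Ring B] [NonUnitalRing A] [Group G] (lm : B → A → A)
    (rm : A → B → A) (X : ι → ι → B → G) (Y : ι → ι → A → G) : Prop where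
  xs : SR X
  ys : SR Y
  cL : ∀ i j k, i ≠ j → j ≠ k → i ≠ k → ∀ b a,
    X i j b * Y j k a * (X i j b)⁻¹ = Y i k (lm b a) * Y j k a
  cR : ∀ i j k, i ≠ j → k ≠ i → k ≠ j → ∀ b a,
    X i j b * Y k i a * (X i j b)⁻¹ = Y k j (-(rm a b)) * Y k i a
  cC : ∀ i j k l, j ≠ k → i ≠ l → ∀ b a, X i j b * Y k l a * (X i j b)⁻¹ = Y k l a

/-- Steinberg relations not involving the root `(j, i)`. -/
structure SRx {ι A G : Type} [NonUnitalRing A] [Group G] (X : ι → ι → A → G) (j i : ι) :
    Prop where
  diag : ∀ k a, X k k a = 1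
  add : ∀ k l, ¬(k = j ∧ l = i) → ∀ a b, X k l (a + b) = X k l a * X k l b
  comm : ∀ k l m, k ≠ l → l ≠ m → k ≠ m → ¬(k = j ∧ l = i) → ¬(l = j ∧ m = i) →
    ¬(k = j ∧ m = i) → ∀ a b,
    X k l a * X l m b * (X k l a)⁻¹ * (X l m b)⁻¹ = X k m (a * b)
  commute : ∀ k l p q, l ≠ p → k ≠ q → ¬(k = j ∧ l = i) → ¬(p = j ∧ q = i) →
    ∀ a b, X k l a * X p q b = X p q b * X k l a

/-- existence of common right divisors which are right non zero divisors. -/
def HU (A : Type) [NonUnitalRing A] : Prop :=
  ∀ y z : A, ∃ t y1 z1 : A, y = y1 * t ∧ z = z1 * t ∧ ∀ w : A, w * t = 0 → w = 0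

/-- images of the generators under conjugation by `x i j b`. -/
def cX {ι B A : Type} [DecidableEq ι] [Ring B] [NonUnitalRing A] (lm : B → A → A)
    (rm : A → B → A) (i j : ι) (b : B) : ι → ι → A → St ι A := fun k l a =>
  if k = l then 1 else if k = j then x j l a * x i l (lm b a)
  else if l = i then x k i a * x k j (-(rm a b)) else x k l a

/-- column vector element. -/
noncomputable def cv {ι A G : Type} [Fintype ι] [Group G] (X : ι → ι → A → G) (j : ι)
    (v : ι → A) : G :=
  ((Finset.univ : Finset ι).toList.map (fun i => X i j (v i))).prod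

/-- row vector element. -/
noncomputable def rv {ι A G : Type} [Fintype ι] [Group G] (X : ι → ι → A → G) (j : ι)
    (w : ι → A) : G :=
  ((Finset.univ : Finset ι).toList.map (fun i => X j i (w i))).prod

end structures

end Pool.Agent.Helper58.K2
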