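import Pool.Agent.Helper58.K2.Defs

set_option autoImplicit false

namespace Pool.Agent.Helper58.K2

open Matrix Pool.Agent.Helper58.EN

section statements
variable {ι : Type} [Fintype ι] [DecidableEq ι]

/-- conjugation -/
def nnc {G : Type} [Group G] (g y : G) : G := g * y * g⁻¹

theorem nnc_mul {G : Type} [Group G] (g y z : G) : nnc g (y * z) = nnc g y * nnc g z := by
  unfold nnc; group

theorem nnc_inv {G : Type} [Group G] (g y : G) : nnc g y⁻¹ = (nnc g y)⁻¹ := by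
  unfold nnc; group

theorem nnc_comp {G : Type} [Group G] (g h y : G) : nnc (g * h) y = nnc g (nnc h y) := by
  unfold nnc; group

theorem nnc_nnc {G : Type} [Group G] (g h y : G) : nnc g (nnc h y) = nnc (nnc g h) (nnc g y) := by
  unfold nnc; group

theorem nnc_inv_eq {G : Type} [Group G] {g y z : G} (h : nnc g y = z) : nnc g⁻¹ z = y := by
  rw [← h]; unfold nnc; group

theorem nn_norm {G : Type} [Group G] (S : Set G) (g : G)
    (h1 : ∀ t ∈ S, nnc g t ∈ Subgroup.closure S) (h2 : ∀ t ∈ S, nnc g⁻¹ t ∈ Subgroup.closure S) :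
    (∀ y ∈ Subgroup.closure S, nnc g y ∈ Subgroup.closure S) ∧
      (∀ y ∈ Subgroup.closure S, nnc g⁻¹ y ∈ Subgroup.closure S) := by
  have key : ∀ g : G, (∀ t ∈ S, nnc g t ∈ Subgroup.closure S) →
      ∀ y ∈ Subgroup.closure S, nnc g y ∈ Subgroup.closure S := by
    intro g hg y hy
    induction hy using Subgroup.closure_induction with
    | mem t ht => exact hg t ht
    | one => unfold nnc; simp
    | mul a b _ _ ha hb => rw [nnc_mul]; exact Subgroup.mul_mem _ ha hb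
    | inv a _ ha => rw [nnc_inv]; exact Subgroup.inv_mem _ ha
  exact ⟨key g h1, key g⁻¹ h2⟩

section nnalg
variable {ι B A G : Type} [Ring B] [NonUnitalRing A] [Group G]
  {lm : B → A → A} {rm : A → B → A}

theorem BM.nn_rm_zero (bm : BM lm rm) (a : A) : rm a 0 = 0 := by
  have := bm.rm_add a 0 0
  rw [add_zero] at this
  exact left_eq_add.mp this

theorem BM.nn_lm_zero (bm : BM lm rm) (a : A) : lm 0 a = 0 := by
  have := bm.lm_add 0 0 a
  rw [add_zero] at this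
  exact left_eq_add.mp this

theorem BM.nn_rm_neg (bm : BM lm rm) (a : A) (b : B) : rm a (-b) = -(rm a b) := by
  rw [eq_neg_iff_add_eq_zero, ← bm.rm_add, neg_add_cancel, bm.nn_rm_zero]

theorem BM.nn_lm_neg (bm : BM lm rm) (a : A) (b : B) : lm (-b) a = -(lm b a) := by
  rw [eq_neg_iff_add_eq_zero, ← bm.lm_add, neg_add_cancel, bm.nn_lm_zero]

theorem BM.nn_zero_rm (bm : BM lm rm) (b : B) : rm 0 b = 0 := by
  have := bm.rm_add' 0 0 b
  rw [add_zero] at this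
  exact left_eq_add.mp this

theorem BM.nn_zero_lm (bm : BM lm rm) (b : B) : lm b 0 = 0 := by
  have := bm.lm_add' b 0 0
  rw [add_zero] at this
  exact left_eq_add.mp this

theorem BM.nn_neg_rm (bm : BM lm rm) (a : A) (b : B) : rm (-a) b = -(rm a b) := by
  rw [eq_neg_iff_add_eq_zero, ← bm.rm_add', neg_add_cancel, bm.nn_zero_rm]

theorem BM.nn_neg_lm (bm : BM lm rm) (a : A) (b : B) : lm b (-a) = -(lm b a) := by
  rw [eq_neg_iff_add_eq_zero, ← bm.lm_add', neg_add_cancel, bm.nn_zero_lm]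

variable {X : ι → ι → B → G} {Y : ι → ι → A → G}

theorem MR.nn_cR (bm : BM lm rm) (m : MR lm rm X Y) (i j k : ι) (hij : i ≠ j) (hki : k ≠ i)
    (hkj : k ≠ j) (b c : B) (a : A) :
    nnc (X i j b) (Y k i (rm a c)) = Y k j (rm a (-(c * b))) * Y k i (rm a c) := by
  have h := m.cR i j k hij hki hkj b (rm a c)
  rw [← bm.rm_mul, ← bm.nn_rm_neg] at h
  exact h

theorem MR.nn_cL (bm : BM lm rm) (m : MR lm rm X Y) (i j k : ι) (hij : i ≠ j) (hjk : j ≠ k)
    (hik : i ≠ k) (b c : B) (a : A) :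
    nnc (X i j b) (Y j k (lm c a)) = Y i k (lm (b * c) a) * Y j k (lm c a) := by
  have h := m.cL i j k hij hjk hik b (lm c a)
  rw [← bm.lm_mul] at h
  exact h

theorem MR.nn_cC (m : MR lm rm X Y) (i j k l : ι) (hjk : j ≠ k) (hil : i ≠ l) (b : B) (a : A) :
    nnc (X i j b) (Y k l a) = Y k l a := m.cC i j k l hjk hil b a

/-- formula 1 -/
theorem MR.nn_f1 (bm : BM lm rm) (m : MR lm rm X Y) (i j k : ι) (hij : i ≠ j) (hki : k ≠ i)
    (hkj : k ≠ j) (p q : B) (u : Bˣ) (hu : (u : B) = 1 + p * q) (a : A) :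
    nnc (hh X i j p q u) (Y k j a) = Y k j (rm a (1 + q * p)) := by
  have e0 : Y k j a = Y k j (rm a 1) := by rw [bm.rm_one]
  have hw : (1 + q * p) * q = q * u := by rw [hu]; noncomm_ring
  rw [e0]
  unfold hh
  rw [nnc_comp, nnc_comp, nnc_comp, m.nn_cC i j k j hkj.symm hij,
    m.nn_cR bm j i k hij.symm hkj hki, nnc_mul, m.nn_cC i j k j hkj.symm hij,
    m.nn_cR bm i j k hij hki hkj, m.ys.commute k j k i hkj.symm hki, mul_assoc (Y k i _),
    ← m.ys.add, ← bm.rm_add, nnc_mul, m.nn_cC j i k i hki.symm hij.symm,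
    m.nn_cR bm j i k hij.symm hkj hki, ← mul_assoc (Y k i _), ← m.ys.add, ← bm.rm_add]
  have e1 : -(-(1 * q) * p) + 1 = 1 + q * p := by noncomm_ring
  rw [e1]
  have e2 : -(1 * q) + -((1 + q * p) * -(q * ((u⁻¹ : Bˣ) : B))) = 0 := by
    have : (1 + q * p) * (q * ((u⁻¹ : Bˣ) : B)) = q := by
      rw [← mul_assoc, hw, mul_assoc, Units.mul_inv, mul_one]
    rw [mul_neg, neg_neg, this, one_mul, neg_add_cancel]
  rw [e2, bm.nn_rm_zero, m.ys.zero, one_mul]

/-- formula 2 -/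
theorem MR.nn_f2 (bm : BM lm rm) (m : MR lm rm X Y) (i j k : ι) (hij : i ≠ j) (hki : k ≠ i)
    (hkj : k ≠ j) (p q : B) (u : Bˣ) (hu : (u : B) = 1 + p * q) (a : A) :
    nnc (hh X i j p q u) (Y j k a) = Y j k (lm (1 - q * ((u⁻¹ : Bˣ) : B) * p) a) := by
  have e0 : Y j k a = Y j k (lm 1 a) := by rw [bm.lm_one]
  rw [e0]
  unfold hh
  rw [nnc_comp, nnc_comp, nnc_comp, m.nn_cL bm i j k hij hkj.symm hki.symm, nnc_mul,
    m.nn_cC j i j k hij hkj.symm, m.nn_cL bm j i k hij.symm hki.symm hkj.symm,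
    m.ys.commute j k i k hki hkj.symm, mul_assoc (Y i k _),
    ← m.ys.add, ← bm.lm_add, nnc_mul, m.nn_cC i j i k hij.symm hki.symm,
    m.nn_cL bm i j k hij hkj.symm hki.symm, ← mul_assoc (Y i k _), ← m.ys.add, ← bm.lm_add]
  have e1 : q * (-(((u⁻¹ : Bˣ) : B) * p) * 1) + 1 = 1 - q * ((u⁻¹ : Bˣ) : B) * p := by
    noncomm_ring
  rw [e1]
  have e2 : -(((u⁻¹ : Bˣ) : B) * p) * 1 + p * (1 - q * ((u⁻¹ : Bˣ) : B) * p) = 0 := by
    have h1 : (1 + p * q) * ((u⁻¹ : Bˣ) : B) = 1 := by rw [← hu, Units.mul_inv]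
    calc -(((u⁻¹ : Bˣ) : B) * p) * 1 + p * (1 - q * ((u⁻¹ : Bˣ) : B) * p)
        = p - ((1 + p * q) * ((u⁻¹ : Bˣ) : B)) * p := by noncomm_ring
      _ = 0 := by rw [h1, one_mul, sub_self]
  rw [e2, bm.nn_lm_zero, m.ys.zero, one_mul, m.nn_cC j i j k hij hkj.symm]

/-- formula 3 -/
theorem MR.nn_f3 (bm : BM lm rm) (m : MR lm rm X Y) (i j k : ι) (hij : i ≠ j) (hki : k ≠ i)
    (hkj : k ≠ j) (p q : B) (u : Bˣ) (hu : (u : B) = 1 + p * q) (a : A) :
    nnc (hh X i j p q u) (Y k i a) = Y k i (rm a ((u⁻¹ : Bˣ) : B)) := by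
  have e0 : Y k i a = Y k i (rm a 1) := by rw [bm.rm_one]
  have h1 : ((u⁻¹ : Bˣ) : B) * (1 + p * q) = 1 := by rw [← hu, Units.inv_mul]
  rw [e0]
  unfold hh
  rw [nnc_comp, nnc_comp, nnc_comp, m.nn_cR bm i j k hij hki hkj, nnc_mul,
    m.nn_cC j i k i hki.symm hij.symm, m.nn_cR bm j i k hij.symm hkj hki,
    m.ys.commute k i k j hki.symm hkj, mul_assoc (Y k j _),
    ← m.ys.add, ← bm.rm_add, nnc_mul, m.nn_cC i j k j hkj.symm hij,
    m.nn_cR bm i j k hij hki hkj, ← mul_assoc (Y k j _), ← m.ys.add, ← bm.rm_add]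
  have e1 : -(-(1 * -(((u⁻¹ : Bˣ) : B) * p)) * q) + 1 = ((u⁻¹ : Bˣ) : B) := by
    calc -(-(1 * -(((u⁻¹ : Bˣ) : B) * p)) * q) + 1
        = 1 - ((u⁻¹ : Bˣ) : B) * (1 + p * q) + ((u⁻¹ : Bˣ) : B) := by noncomm_ring
      _ = _ := by rw [h1, sub_self, zero_add]
  rw [e1]
  have e2 : -(1 * -(((u⁻¹ : Bˣ) : B) * p)) + -(((u⁻¹ : Bˣ) : B) * p) = 0 := by
    noncomm_ring
  rw [e2, bm.nn_rm_zero, m.ys.zero, one_mul, m.nn_cC j i k i hki.symm hij.symm]

/-- formula 4 -/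
theorem MR.nn_f4 (bm : BM lm rm) (m : MR lm rm X Y) (i j k : ι) (hij : i ≠ j) (hki : k ≠ i)
    (hkj : k ≠ j) (p q : B) (u : Bˣ) (hu : (u : B) = 1 + p * q) (a : A) :
    nnc (hh X i j p q u) (Y i k a) = Y i k (lm (u : B) a) := by
  have e0 : Y i k a = Y i k (lm 1 a) := by rw [bm.lm_one]
  rw [e0]
  unfold hh
  rw [nnc_comp, nnc_comp, nnc_comp, m.nn_cC i j i k hij.symm hki.symm,
    m.nn_cL bm j i k hij.symm hki.symm hkj.symm, nnc_mul,
    m.nn_cC i j i k hij.symm hki.symm, m.nn_cL bm i j k hij hkj.symm hki.symm,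
    m.ys.commute i k j k hkj hki.symm, mul_assoc (Y j k _),
    ← m.ys.add, ← bm.lm_add, nnc_mul, m.nn_cC j i j k hij hkj.symm,
    m.nn_cL bm j i k hij.symm hki.symm hkj.symm, ← mul_assoc (Y j k _), ← m.ys.add, ← bm.lm_add]
  have e1 : p * (q * 1) + 1 = (u : B) := by rw [hu]; noncomm_ring
  rw [e1]
  have e2 : q * 1 + -(q * ((u⁻¹ : Bˣ) : B)) * (u : B) = 0 := by
    rw [neg_mul, mul_assoc, Units.inv_mul]
    noncomm_ring
  rw [e2, bm.nn_lm_zero, m.ys.zero, one_mul]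

theorem nn_bmself (B : Type) [Ring B] : BM (fun b a : B => b * a) (fun a b : B => a * b) where
  lm_add b b' a := add_mul b b' a
  lm_add' b a a' := mul_add b a a'
  lm_mul b b' a := mul_assoc b b' a
  lm_one a := one_mul a
  rm_add a b b' := mul_add a b b'
  rm_add' a a' b := add_mul a a' b
  rm_mul a b b' := (mul_assoc a b b').symm
  rm_one a := mul_one a
  assoc b a b' := mul_assoc b a b'
  lm_mulA b a a' := (mul_assoc b a a').symm
  rm_mulA a a' b := mul_assoc a a' b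
  mid a b a' := mul_assoc a b a'

theorem nn_mrself {X : ι → ι → B → G} (h : SR X) :
    MR (fun b a : B => b * a) (fun a b : B => a * b) X X where
  xs := h
  ys := h
  cL i j k hij hjk hik b a := h.conjL i j k hij hjk hik b a
  cR i j k hij hki hkj b a := h.conjR i j k hij hki hkj b a
  cC i j k l hjk hil b a := h.conjC i j k l hjk hil b a

/-- formula 5 -/
theorem MR.nn_f5 (bm : BM lm rm) (m : MR lm rm X Y) (i j k : ι) (hij : i ≠ j) (hki : k ≠ i)
    (hkj : k ≠ j) (p q : B) (u : Bˣ) (hu : (u : B) = 1 + p * q) (a : A) :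
    nnc (hh X i j p q u) (Y i j a) = Y i j (lm (u : B) (rm a (1 + q * p))) := by
  have e0 : Y i j a = nnc (X i k 1) (Y k j a) * (Y k j a)⁻¹ := by
    have h := m.cL i k j hki.symm hkj hij 1 a
    unfold nnc
    rw [h, bm.lm_one, mul_inv_cancel_right]
  have e1 : nnc (hh X i j p q u) (X i k 1) = X i k ((u : B) * 1) :=
    (nn_mrself m.xs).nn_f4 (nn_bmself B) i j k hij hki hkj p q u hu 1
  rw [e0, nnc_mul, nnc_inv, nnc_nnc, e1, m.nn_f1 bm i j k hij hki hkj p q u hu, mul_one]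
  unfold nnc
  rw [m.cL i k j hki.symm hkj hij, mul_inv_cancel_right]

/-- formula 6 -/
theorem MR.nn_f6 (bm : BM lm rm) (m : MR lm rm X Y) (i j k : ι) (hij : i ≠ j) (hki : k ≠ i)
    (hkj : k ≠ j) (p q : B) (u : Bˣ) (hu : (u : B) = 1 + p * q) (a : A) :
    nnc (hh X i j p q u) (Y j i a) =
      Y j i (rm (lm (1 - q * ((u⁻¹ : Bˣ) : B) * p) a) ((u⁻¹ : Bˣ) : B)) := by
  have e0 : Y j i a = nnc (X k i 1) (Y j k (-a)) * (Y j k (-a))⁻¹ := by
    have h := m.cR k i j hki hkj.symm hij.symm 1 (-a)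
    unfold nnc
    rw [h, bm.rm_one, neg_neg, mul_inv_cancel_right]
  have e1 : nnc (hh X i j p q u) (X k i 1) = X k i (1 * ((u⁻¹ : Bˣ) : B)) :=
    (nn_mrself m.xs).nn_f3 (nn_bmself B) i j k hij hki hkj p q u hu 1
  rw [e0, nnc_mul, nnc_inv, nnc_nnc, e1, m.nn_f2 bm i j k hij hki hkj p q u hu, one_mul]
  unfold nnc
  rw [m.cR k i j hki hkj.symm hij.symm, mul_inv_cancel_right, bm.nn_neg_lm, bm.nn_neg_rm, neg_neg]

theorem nn_w1 (p q : B) (u : Bˣ) (hu : (u : B) = 1 + p * q) :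
    (1 + q * p) * (1 - q * ((u⁻¹ : Bˣ) : B) * p) = 1 := by
  have h1 : (1 + p * q) * ((u⁻¹ : Bˣ) : B) = 1 := by rw [← hu, Units.mul_inv]
  calc (1 + q * p) * (1 - q * ((u⁻¹ : Bˣ) : B) * p)
      = 1 + q * p - q * ((1 + p * q) * ((u⁻¹ : Bˣ) : B)) * p := by noncomm_ring
    _ = 1 := by rw [h1, mul_one, add_sub_cancel_right]

theorem nn_w2 (p q : B) (u : Bˣ) (hu : (u : B) = 1 + p * q) :
    (1 - q * ((u⁻¹ : Bˣ) : B) * p) * (1 + q * p) = 1 := by
  have h1 : ((u⁻¹ : Bˣ) : B) * (1 + p * q) = 1 := by rw [← hu, Units.inv_mul]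
  calc (1 - q * ((u⁻¹ : Bˣ) : B) * p) * (1 + q * p)
      = 1 + q * p - q * (((u⁻¹ : Bˣ) : B) * (1 + p * q)) * p := by noncomm_ring
    _ = 1 := by rw [h1, mul_one, add_sub_cancel_right]

/-- two sided description of the action of `hh` -/
theorem MR.nn_all (bm : BM lm rm) (m : MR lm rm X Y) (i j k : ι) (hij : i ≠ j) (hki : k ≠ i)
    (hkj : k ≠ j) (p q : B) (u : Bˣ) (hu : (u : B) = 1 + p * q) (s : AddSubgroup A)
    (hl : ∀ b, ∀ a ∈ s, lm b a ∈ s) (hr : ∀ b, ∀ a ∈ s, rm a b ∈ s) (a : A) (ha : a ∈ s) :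
    (∃ a' ∈ s, nnc (hh X i j p q u) (Y k j a) = Y k j a') ∧
    (∃ a' ∈ s, nnc (hh X i j p q u)⁻¹ (Y k j a) = Y k j a') ∧
    (∃ a' ∈ s, nnc (hh X i j p q u) (Y j k a) = Y j k a') ∧
    (∃ a' ∈ s, nnc (hh X i j p q u)⁻¹ (Y j k a) = Y j k a') ∧
    (∃ a' ∈ s, nnc (hh X i j p q u) (Y k i a) = Y k i a') ∧
    (∃ a' ∈ s, nnc (hh X i j p q u)⁻¹ (Y k i a) = Y k i a') ∧
    (∃ a' ∈ s, nnc (hh X i j p q u) (Y i k a) = Y i k a') ∧
    (∃ a' ∈ s, nnc (hh X i j p q u)⁻¹ (Y i k a) = Y i k a') ∧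
    (∃ a' ∈ s, nnc (hh X i j p q u) (Y i j a) = Y i j a') ∧
    (∃ a' ∈ s, nnc (hh X i j p q u)⁻¹ (Y i j a) = Y i j a') ∧
    (∃ a' ∈ s, nnc (hh X i j p q u) (Y j i a) = Y j i a') ∧
    (∃ a' ∈ s, nnc (hh X i j p q u)⁻¹ (Y j i a) = Y j i a') := by
  have w1 := nn_w1 p q u hu
  have w2 := nn_w2 p q u hu
  refine ⟨⟨_, hr _ a ha, m.nn_f1 bm i j k hij hki hkj p q u hu a⟩,
    ⟨_, hr (1 - q * ((u⁻¹ : Bˣ) : B) * p) a ha, nnc_inv_eq ?_⟩,
    ⟨_, hl _ a ha, m.nn_f2 bm i j k hij hki hkj p q u hu a⟩,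
    ⟨_, hl (1 + q * p) a ha, nnc_inv_eq ?_⟩,
    ⟨_, hr _ a ha, m.nn_f3 bm i j k hij hki hkj p q u hu a⟩,
    ⟨_, hr (u : B) a ha, nnc_inv_eq ?_⟩,
    ⟨_, hl _ a ha, m.nn_f4 bm i j k hij hki hkj p q u hu a⟩,
    ⟨_, hl ((u⁻¹ : Bˣ) : B) a ha, nnc_inv_eq ?_⟩,
    ⟨_, hl _ _ (hr _ a ha), m.nn_f5 bm i j k hij hki hkj p q u hu a⟩,
    ⟨_, hl ((u⁻¹ : Bˣ) : B) _ (hr (1 - q * ((u⁻¹ : Bˣ) : B) * p) a ha), nnc_inv_eq ?_⟩,
    ⟨_, hr _ _ (hl _ a ha), m.nn_f6 bm i j k hij hki hkj p q u hu a⟩,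
    ⟨_, hr (u : B) _ (hl (1 + q * p) a ha), nnc_inv_eq ?_⟩⟩
  · rw [m.nn_f1 bm i j k hij hki hkj p q u hu, ← bm.rm_mul, w2, bm.rm_one]
  · rw [m.nn_f2 bm i j k hij hki hkj p q u hu, ← bm.lm_mul, w2, bm.lm_one]
  · rw [m.nn_f3 bm i j k hij hki hkj p q u hu, ← bm.rm_mul, Units.mul_inv, bm.rm_one]
  · rw [m.nn_f4 bm i j k hij hki hkj p q u hu, ← bm.lm_mul, Units.mul_inv, bm.lm_one]
  · rw [m.nn_f5 bm i j k hij hki hkj p q u hu, bm.assoc, ← bm.rm_mul, w2, bm.rm_one, ← bm.lm_mul,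
      Units.mul_inv, bm.lm_one]
  · rw [m.nn_f6 bm i j k hij hki hkj p q u hu, ← bm.assoc, ← bm.lm_mul, w2, bm.lm_one,
      ← bm.rm_mul, Units.mul_inv, bm.rm_one]

end nnalg

theorem nn_third (h3 : 3 ≤ Fintype.card ι) (i j : ι) : ∃ k : ι, k ≠ i ∧ k ≠ j := by
  by_contra hcon
  push Not at hcon
  have h1 : (Finset.univ : Finset ι) ⊆ {i, j} := by
    intro k _
    rw [Finset.mem_insert, Finset.mem_singleton]
    by_cases hk : k = i
    · exact Or.inl hk
    · exact Or.inr (hcon k hk)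
  have h2 := Finset.card_le_card h1
  have h4 : ({i, j} : Finset ι).card ≤ 2 := Finset.card_le_two
  rw [Finset.card_univ] at h2
  omega

theorem N0_norm (h3 : 3 ≤ Fintype.card ι) {B A G : Type} [Ring B] [NonUnitalRing A] [Group G]
    {lm : B → A → A} {rm : A → B → A} (bm : BM lm rm) {X : ι → ι → B → G} {Y : ι → ι → A → G}
    (m : MR lm rm X Y) (j : ι) (s : AddSubgroup A) (hl : ∀ b, ∀ a ∈ s, lm b a ∈ s)
    (hr : ∀ b, ∀ a ∈ s, rm a b ∈ s) :
    ∀ g ∈ N0 X j, (∀ y ∈ col Y j (s : Set A), g * y * g⁻¹ ∈ col Y j (s : Set A)) ∧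
      (∀ y ∈ row Y j (s : Set A), g * y * g⁻¹ ∈ row Y j (s : Set A)) := by
  have hC : ∀ k, ∀ a ∈ s, Y k j a ∈ col Y j (s : Set A) := fun k a ha =>
    Subgroup.subset_closure ⟨k, a, ha, rfl⟩
  have hD : ∀ k, ∀ a ∈ s, Y j k a ∈ row Y j (s : Set A) := fun k a ha =>
    Subgroup.subset_closure ⟨k, a, ha, rfl⟩
  have hC1 : ∀ g, nnc g (1 : G) ∈ col Y j (s : Set A) := by
    intro g
    have : nnc g (1 : G) = 1 := by unfold nnc; simp
    rw [this]; exact Subgroup.one_mem _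
  have hD1 : ∀ g, nnc g (1 : G) ∈ row Y j (s : Set A) := by
    intro g
    have : nnc g (1 : G) = 1 := by unfold nnc; simp
    rw [this]; exact Subgroup.one_mem _
  -- elementary generators
  have hX : ∀ k l, k ≠ j → l ≠ j → ∀ b,
      (∀ i, ∀ a ∈ s, nnc (X k l b) (Y i j a) ∈ col Y j (s : Set A)) ∧
      (∀ i, ∀ a ∈ s, nnc (X k l b) (Y j i a) ∈ row Y j (s : Set A)) := by
    intro k l hkj hlj b
    by_cases hkl : k = l
    · subst hkl
      rw [m.xs.diag]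
      constructor
      · intro i a ha
        have : nnc (1 : G) (Y i j a) = Y i j a := by unfold nnc; simp
        rw [this]; exact hC i a ha
      · intro i a ha
        have : nnc (1 : G) (Y j i a) = Y j i a := by unfold nnc; simp
        rw [this]; exact hD i a ha
    · constructor
      · intro i a ha
        by_cases hi : i = l
        · subst hi
          have h := m.cL k i j hkl hlj hkj b a
          show X k i b * Y i j a * (X k i b)⁻¹ ∈ _
          rw [h]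
          exact Subgroup.mul_mem _ (hC _ _ (hl b a ha)) (hC _ _ ha)
        · have h := m.cC k l i j (Ne.symm hi) hkj b a
          show X k l b * Y i j a * (X k l b)⁻¹ ∈ _
          rw [h]
          exact hC _ _ ha
      · intro i a ha
        by_cases hi : i = k
        · subst hi
          have h := m.cR i l j hkl (Ne.symm hkj) (Ne.symm hlj) b a
          show X i l b * Y j i a * (X i l b)⁻¹ ∈ _
          rw [h]
          exact Subgroup.mul_mem _ (hD _ _ (s.neg_mem (hr b a ha))) (hD _ _ ha)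
        · have h := m.cC k l j i hlj (Ne.symm hi) b a
          show X k l b * Y j i a * (X k l b)⁻¹ ∈ _
          rw [h]
          exact hD _ _ ha
  -- all generators
  have hgen : ∀ g ∈ N0gen X j,
      ((∀ t ∈ {g | ∃ i, ∃ a ∈ (s : Set A), g = Y i j a}, nnc g t ∈ col Y j (s : Set A)) ∧
        (∀ t ∈ {g | ∃ i, ∃ a ∈ (s : Set A), g = Y i j a}, nnc g⁻¹ t ∈ col Y j (s : Set A))) ∧
      ((∀ t ∈ {g | ∃ i, ∃ a ∈ (s : Set A), g = Y j i a}, nnc g t ∈ row Y j (s : Set A)) ∧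
        (∀ t ∈ {g | ∃ i, ∃ a ∈ (s : Set A), g = Y j i a}, nnc g⁻¹ t ∈ row Y j (s : Set A))) := by
    rintro g (⟨k, l, hkj, hlj, b, rfl⟩ | ⟨i, hij, p, q, u, hu, hg⟩)
    · rw [← m.xs.neg]
      refine ⟨⟨?_, ?_⟩, ⟨?_, ?_⟩⟩
      · rintro t ⟨i, a, ha, rfl⟩; exact (hX k l hkj hlj b).1 i a ha
      · rintro t ⟨i, a, ha, rfl⟩; exact (hX k l hkj hlj (-b)).1 i a ha
      · rintro t ⟨i, a, ha, rfl⟩; exact (hX k l hkj hlj b).2 i a ha
      · rintro t ⟨i, a, ha, rfl⟩; exact (hX k l hkj hlj (-b)).2 i a ha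
    · obtain ⟨k0, hk0i, hk0j⟩ := nn_third h3 i j
      rcases hg with rfl | rfl
      · refine ⟨⟨?_, ?_⟩, ⟨?_, ?_⟩⟩
        · rintro t ⟨k, a, ha, rfl⟩
          by_cases hkj : k = j
          · subst hkj; rw [m.ys.diag]; exact hC1 _
          by_cases hki : k = i
          · subst hki
            obtain ⟨-, -, -, -, -, -, -, -, ⟨a', ha', h⟩, -, -, -⟩ :=
              m.nn_all bm k j k0 hkj hk0i hk0j p q u hu s hl hr a ha
            rw [h]; exact hC _ _ ha'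
          · obtain ⟨⟨a', ha', h⟩, -⟩ :=
              m.nn_all bm i j k hij hki hkj p q u hu s hl hr a ha
            rw [h]; exact hC _ _ ha'
        · rintro t ⟨k, a, ha, rfl⟩
          by_cases hkj : k = j
          · subst hkj; rw [m.ys.diag]; exact hC1 _
          by_cases hki : k = i
          · subst hki
            obtain ⟨-, -, -, -, -, -, -, -, -, ⟨a', ha', h⟩, -, -⟩ :=
              m.nn_all bm k j k0 hkj hk0i hk0j p q u hu s hl hr a ha
            rw [h]; exact hC _ _ ha'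
          · obtain ⟨-, ⟨a', ha', h⟩, -⟩ :=
              m.nn_all bm i j k hij hki hkj p q u hu s hl hr a ha
            rw [h]; exact hC _ _ ha'
        · rintro t ⟨k, a, ha, rfl⟩
          by_cases hkj : k = j
          · subst hkj; rw [m.ys.diag]; exact hD1 _
          by_cases hki : k = i
          · subst hki
            obtain ⟨-, -, -, -, -, -, -, -, -, -, ⟨a', ha', h⟩, -⟩ :=
              m.nn_all bm k j k0 hkj hk0i hk0j p q u hu s hl hr a ha
            rw [h]; exact hD _ _ ha'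
          · obtain ⟨-, -, ⟨a', ha', h⟩, -⟩ :=
              m.nn_all bm i j k hij hki hkj p q u hu s hl hr a ha
            rw [h]; exact hD _ _ ha'
        · rintro t ⟨k, a, ha, rfl⟩
          by_cases hkj : k = j
          · subst hkj; rw [m.ys.diag]; exact hD1 _
          by_cases hki : k = i
          · subst hki
            obtain ⟨-, -, -, -, -, -, -, -, -, -, -, ⟨a', ha', h⟩⟩ :=
              m.nn_all bm k j k0 hkj hk0i hk0j p q u hu s hl hr a ha
            rw [h]; exact hD _ _ ha'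
          · obtain ⟨-, -, -, ⟨a', ha', h⟩, -⟩ :=
              m.nn_all bm i j k hij hki hkj p q u hu s hl hr a ha
            rw [h]; exact hD _ _ ha'
      · refine ⟨⟨?_, ?_⟩, ⟨?_, ?_⟩⟩
        · rintro t ⟨k, a, ha, rfl⟩
          by_cases hkj : k = j
          · subst hkj; rw [m.ys.diag]; exact hC1 _
          by_cases hki : k = i
          · subst hki
            obtain ⟨-, -, -, -, -, -, -, -, -, -, ⟨a', ha', h⟩, -⟩ :=
              m.nn_all bm j k k0 (Ne.symm hkj) hk0j hk0i p q u hu s hl hr a ha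
            rw [h]; exact hC _ _ ha'
          · obtain ⟨-, -, -, -, ⟨a', ha', h⟩, -⟩ :=
              m.nn_all bm j i k hij.symm hkj hki p q u hu s hl hr a ha
            rw [h]; exact hC _ _ ha'
        · rintro t ⟨k, a, ha, rfl⟩
          by_cases hkj : k = j
          · subst hkj; rw [m.ys.diag]; exact hC1 _
          by_cases hki : k = i
          · subst hki
            obtain ⟨-, -, -, -, -, -, -, -, -, -, -, ⟨a', ha', h⟩⟩ :=
              m.nn_all bm j k k0 (Ne.symm hkj) hk0j hk0i p q u hu s hl hr a ha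
            rw [h]; exact hC _ _ ha'
          · obtain ⟨-, -, -, -, -, ⟨a', ha', h⟩, -⟩ :=
              m.nn_all bm j i k hij.symm hkj hki p q u hu s hl hr a ha
            rw [h]; exact hC _ _ ha'
        · rintro t ⟨k, a, ha, rfl⟩
          by_cases hkj : k = j
          · subst hkj; rw [m.ys.diag]; exact hD1 _
          by_cases hki : k = i
          · subst hki
            obtain ⟨-, -, -, -, -, -, -, -, ⟨a', ha', h⟩, -, -, -⟩ :=
              m.nn_all bm j k k0 (Ne.symm hkj) hk0j hk0i p q u hu s hl hr a ha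
            rw [h]; exact hD _ _ ha'
          · obtain ⟨-, -, -, -, -, -, ⟨a', ha', h⟩, -⟩ :=
              m.nn_all bm j i k hij.symm hkj hki p q u hu s hl hr a ha
            rw [h]; exact hD _ _ ha'
        · rintro t ⟨k, a, ha, rfl⟩
          by_cases hkj : k = j
          · subst hkj; rw [m.ys.diag]; exact hD1 _
          by_cases hki : k = i
          · subst hki
            obtain ⟨-, -, -, -, -, -, -, -, -, ⟨a', ha', h⟩, -, -⟩ :=
              m.nn_all bm j k k0 (Ne.symm hkj) hk0j hk0i p q u hu s hl hr a ha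
            rw [h]; exact hD _ _ ha'
          · obtain ⟨-, -, -, -, -, -, -, ⟨a', ha', h⟩, -⟩ :=
              m.nn_all bm j i k hij.symm hkj hki p q u hu s hl hr a ha
            rw [h]; exact hD _ _ ha'
  -- closure
  have hall : ∀ g ∈ N0 X j,
      ((∀ y ∈ col Y j (s : Set A), nnc g y ∈ col Y j (s : Set A)) ∧
        (∀ y ∈ col Y j (s : Set A), nnc g⁻¹ y ∈ col Y j (s : Set A))) ∧
      ((∀ y ∈ row Y j (s : Set A), nnc g y ∈ row Y j (s : Set A)) ∧
        (∀ y ∈ row Y j (s : Set A), nnc g⁻¹ y ∈ row Y j (s : Set A))) := by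
    intro g hg
    unfold N0 at hg
    induction hg using Subgroup.closure_induction with
    | mem g hg =>
      obtain ⟨⟨h1, h2⟩, h4, h5⟩ := hgen g hg
      exact ⟨nn_norm _ g h1 h2, nn_norm _ g h4 h5⟩
    | one =>
      have h1 : ∀ y : G, nnc (1 : G) y = y := by intro y; unfold nnc; simp
      have h2 : ∀ y : G, nnc ((1 : G)⁻¹) y = y := by intro y; unfold nnc; simp
      refine ⟨⟨fun y hy => ?_, fun y hy => ?_⟩, ⟨fun y hy => ?_, fun y hy => ?_⟩⟩
      · rw [h1]; exact hy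
      · rw [h2]; exact hy
      · rw [h1]; exact hy
      · rw [h2]; exact hy
    | mul a b _ _ ha hb =>
      obtain ⟨⟨a1, a2⟩, a3, a4⟩ := ha
      obtain ⟨⟨b1, b2⟩, b3, b4⟩ := hb
      rw [_root_.mul_inv_rev]
      refine ⟨⟨fun y hy => ?_, fun y hy => ?_⟩, ⟨fun y hy => ?_, fun y hy => ?_⟩⟩
      · rw [nnc_comp]; exact a1 _ (b1 _ hy)
      · rw [nnc_comp]; exact b2 _ (a2 _ hy)
      · rw [nnc_comp]; exact a3 _ (b3 _ hy)
      · rw [nnc_comp]; exact b4 _ (a4 _ hy)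
    | inv a _ ha =>
      obtain ⟨⟨a1, a2⟩, a3, a4⟩ := ha
      rw [inv_inv]
      exact ⟨⟨a2, a1⟩, a4, a3⟩
  intro g hg
  obtain ⟨⟨h1, -⟩, h2, -⟩ := hall g hg
  exact ⟨h1, h2⟩

theorem N0_norm_x (h3 : 3 ≤ Fintype.card ι) {R : Type} [Ring R] (J : Ideal R) [J.IsTwoSided]
    (j : ι) : ∀ g ∈ N0 (x : ι → ι → R → St ι R) j,
      (∀ y ∈ col x j (J : Set R), g * y * g⁻¹ ∈ col x j (J : Set R)) ∧
      (∀ y ∈ row x j (J : Set R), g * y * g⁻¹ ∈ row x j (J : Set R)) :=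
  N0_norm h3 (nn_bmself R) (nn_mrself x_sr) j J.toAddSubgroup
    (fun b a ha => J.mul_mem_left b ha) (fun b a ha => J.mul_mem_right b ha)

end statements

end Pool.Agent.Helper58.K2
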