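import Pool.Agent.Helper58.K2.Defs

set_option autoImplicit false

namespace Pool.Agent.Helper58.K2

open Matrix Pool.Agent.Helper58.EN

section statements
variable {ι : Type} [Fintype ι] [DecidableEq ι]

theorem star_ext (h5 : 5 ≤ Fintype.card ι) {A G : Type} [NonUnitalRing A] [Group G] (hU : HU A)
    (m : ι) (f g : St ι A →* G) (h1 : ∀ k a, f (x k m a) = g (x k m a))
    (h2 : ∀ k a, f (x m k a) = g (x m k a)) : f = g := by
  apply hom_ext
  intro k l a
  by_cases hkl : k = l
  · subst hkl
    rw [x_sr.diag, map_one, map_one]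
  by_cases hk : k = m
  · subst hk
    exact h2 l a
  by_cases hl : l = m
  · subst hl
    exact h1 k a
  obtain ⟨t, a1, _, ha, _, _⟩ := hU a a
  have h := (x_sr (ι := ι) (A := A)).comm k m l hk (Ne.symm hl) hkl a1 t
  rw [ha, ← h]
  simp only [map_mul, map_inv, h1, h2]

end statements

end Pool.Agent.Helper58.K2
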