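import Pool.Agent.Helper58.K2.Defs

set_option autoImplicit false

namespace Pool.Agent.Helper58.K2

open Matrix Pool.Agent.Helper58.EN

section statements
variable {ι : Type} [Fintype ι] [DecidableEq ι]

theorem list_mul_aux {κ G : Type} [Group G] (f g : κ → G) (hc : ∀ i k, g i * f k = f k * g i)
    (l : List κ) : (l.map (fun i => f i * g i)).prod = (l.map f).prod * (l.map g).prod := by
  induction l with
  | nil => simp
  | cons a l ih =>
    simp only [List.map_cons, List.prod_cons]
    rw [ih]
    have hcom : g a * (l.map f).prod = (l.map f).prod * g a := by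
      apply Commute.list_prod_right
      intro y hy
      rw [List.mem_map] at hy
      obtain ⟨k, _, rfl⟩ := hy
      exact hc a k
    calc f a * g a * ((l.map f).prod * (l.map g).prod)
        = f a * (g a * (l.map f).prod) * (l.map g).prod := by simp only [mul_assoc]
      _ = f a * ((l.map f).prod * g a) * (l.map g).prod := by rw [hcom]
      _ = f a * (l.map f).prod * (g a * (l.map g).prod) := by simp only [mul_assoc]

theorem list_single_aux {κ G : Type} [DecidableEq κ] [Group G] (f : κ → G) (i : κ)
    (hf : ∀ k, k ≠ i → f k = 1) (l : List κ) (hl : l.Nodup) :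
    (l.map f).prod = if i ∈ l then f i else 1 := by
  induction l with
  | nil => simp
  | cons a l ih =>
    rw [List.nodup_cons] at hl
    rw [List.map_cons, List.prod_cons, ih hl.2]
    by_cases h : a = i
    · subst h
      rw [if_neg hl.1, mul_one, if_pos List.mem_cons_self]
    · rw [hf a h, one_mul]
      by_cases h2 : i ∈ l
      · rw [if_pos h2, if_pos (List.mem_cons_of_mem _ h2)]
      · rw [if_neg h2, if_neg]
        rw [List.mem_cons]
        rintro (h3 | h3)
        · exact h h3.symm
        · exact h2 h3

theorem SR.colc {κ A G : Type} [NonUnitalRing A] [Group G] {X : κ → κ → A → G} (h : SR X) (j : κ)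
    (i k : κ) (a b : A) : X i j a * X k j b = X k j b * X i j a := by
  by_cases hi : i = j
  · subst hi; rw [h.diag, one_mul, mul_one]
  · by_cases hk : k = j
    · subst hk; rw [h.diag k, one_mul, mul_one]
    · exact h.commute i j k j (Ne.symm hk) hi a b

theorem SR.rowc {κ A G : Type} [NonUnitalRing A] [Group G] {X : κ → κ → A → G} (h : SR X) (j : κ)
    (i k : κ) (a b : A) : X j i a * X j k b = X j k b * X j i a := by
  by_cases hi : i = j
  · subst hi; rw [h.diag, one_mul, mul_one]
  · by_cases hk : k = j
    · subst hk; rw [h.diag k, one_mul, mul_one]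
    · exact h.commute j i j k hi (Ne.symm hk) a b

theorem cv_add {A G : Type} [NonUnitalRing A] [Group G] {X : ι → ι → A → G} (h : SR X) (j : ι)
    (v w : ι → A) : cv X j (v + w) = cv X j v * cv X j w := by
  unfold cv
  rw [← list_mul_aux (fun i => X i j (v i)) (fun i => X i j (w i)) (fun i k => h.colc j i k _ _)]
  congr 1
  apply List.map_congr_left
  intro i _
  exact h.add i j _ _

theorem cv_single {A G : Type} [NonUnitalRing A] [Group G] {X : ι → ι → A → G} (h : SR X)
    (i j : ι) (a : A) : cv X j (Pi.single i a) = X i j a := by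
  unfold cv
  rw [list_single_aux (fun k => X k j ((Pi.single i a : ι → A) k)) i _ _ (Finset.nodup_toList _)]
  · rw [if_pos (by simp)]
    simp
  · intro k hk
    rw [Pi.single_eq_of_ne hk, h.zero]

theorem cv_zero {A G : Type} [NonUnitalRing A] [Group G] {X : ι → ι → A → G} (h : SR X) (j : ι) :
    cv X j (0 : ι → A) = 1 := by
  have := cv_add h j 0 0
  rw [add_zero] at this
  exact left_eq_mul.mp this

theorem cv_neg {A G : Type} [NonUnitalRing A] [Group G] {X : ι → ι → A → G} (h : SR X) (j : ι)
    (v : ι → A) : cv X j (-v) = (cv X j v)⁻¹ := by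
  rw [eq_inv_iff_mul_eq_one, ← cv_add h, neg_add_cancel, cv_zero h]

theorem mem_col {A G : Type} [NonUnitalRing A] [Group G] {X : ι → ι → A → G} (h : SR X) (j : ι)
    (s : AddSubgroup A) (g : G) :
    g ∈ col X j (s : Set A) ↔ ∃ v : ι → A, (∀ i, v i ∈ s) ∧ g = cv X j v := by
  constructor
  · intro hg
    unfold col at hg
    induction hg using Subgroup.closure_induction with
    | mem g hg =>
      obtain ⟨i, a, ha, rfl⟩ := hg
      refine ⟨Pi.single i a, ?_, (cv_single h i j a).symm⟩
      intro k
      by_cases hk : k = i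
      · subst hk; rw [Pi.single_eq_same]; exact ha
      · rw [Pi.single_eq_of_ne hk]; exact s.zero_mem
    | one => exact ⟨0, fun _ => s.zero_mem, (cv_zero h j).symm⟩
    | mul a b _ _ ha hb =>
      obtain ⟨v, hv, rfl⟩ := ha
      obtain ⟨w, hw, rfl⟩ := hb
      exact ⟨v + w, fun i => s.add_mem (hv i) (hw i), (cv_add h j v w).symm⟩
    | inv a _ ha =>
      obtain ⟨v, hv, rfl⟩ := ha
      exact ⟨-v, fun i => s.neg_mem (hv i), (cv_neg h j v).symm⟩
  · rintro ⟨v, hv, rfl⟩
    unfold cv
    apply Subgroup.list_prod_mem
    intro y hy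
    rw [List.mem_map] at hy
    obtain ⟨k, _, rfl⟩ := hy
    exact Subgroup.subset_closure ⟨k, v k, hv k, rfl⟩

theorem rv_add {A G : Type} [NonUnitalRing A] [Group G] {X : ι → ι → A → G} (h : SR X) (j : ι)
    (v w : ι → A) : rv X j (v + w) = rv X j v * rv X j w := by
  unfold rv
  rw [← list_mul_aux (fun i => X j i (v i)) (fun i => X j i (w i)) (fun i k => h.rowc j i k _ _)]
  congr 1
  apply List.map_congr_left
  intro i _
  exact h.add j i _ _

theorem rv_single {A G : Type} [NonUnitalRing A] [Group G] {X : ι → ι → A → G} (h : SR X)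
    (i j : ι) (a : A) : rv X j (Pi.single i a) = X j i a := by
  unfold rv
  rw [list_single_aux (fun k => X j k ((Pi.single i a : ι → A) k)) i _ _ (Finset.nodup_toList _)]
  · rw [if_pos (by simp)]
    simp
  · intro k hk
    rw [Pi.single_eq_of_ne hk, h.zero]

theorem rv_zero {A G : Type} [NonUnitalRing A] [Group G] {X : ι → ι → A → G} (h : SR X) (j : ι) :
    rv X j (0 : ι → A) = 1 := by
  have := rv_add h j 0 0
  rw [add_zero] at this
  exact left_eq_mul.mp this

theorem rv_neg {A G : Type} [NonUnitalRing A] [Group G] {X : ι → ι → A → G} (h : SR X) (j : ι)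
    (v : ι → A) : rv X j (-v) = (rv X j v)⁻¹ := by
  rw [eq_inv_iff_mul_eq_one, ← rv_add h, neg_add_cancel, rv_zero h]

theorem mem_row {A G : Type} [NonUnitalRing A] [Group G] {X : ι → ι → A → G} (h : SR X) (j : ι)
    (s : AddSubgroup A) (g : G) :
    g ∈ row X j (s : Set A) ↔ ∃ v : ι → A, (∀ i, v i ∈ s) ∧ g = rv X j v := by
  constructor
  · intro hg
    unfold row at hg
    induction hg using Subgroup.closure_induction with
    | mem g hg =>
      obtain ⟨i, a, ha, rfl⟩ := hg
      refine ⟨Pi.single i a, ?_, (rv_single h i j a).symm⟩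
      intro k
      by_cases hk : k = i
      · subst hk; rw [Pi.single_eq_same]; exact ha
      · rw [Pi.single_eq_of_ne hk]; exact s.zero_mem
    | one => exact ⟨0, fun _ => s.zero_mem, (rv_zero h j).symm⟩
    | mul a b _ _ ha hb =>
      obtain ⟨v, hv, rfl⟩ := ha
      obtain ⟨w, hw, rfl⟩ := hb
      exact ⟨v + w, fun i => s.add_mem (hv i) (hw i), (rv_add h j v w).symm⟩
    | inv a _ ha =>
      obtain ⟨v, hv, rfl⟩ := ha
      exact ⟨-v, fun i => s.neg_mem (hv i), (rv_neg h j v).symm⟩
  · rintro ⟨v, hv, rfl⟩
    unfold rv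
    apply Subgroup.list_prod_mem
    intro y hy
    rw [List.mem_map] at hy
    obtain ⟨k, _, rfl⟩ := hy
    exact Subgroup.subset_closure ⟨k, v k, hv k, rfl⟩

theorem mat_cv_aux {R : Type} [Ring R] (j : ι) (v : ι → R) (l : List ι) (hl : l.Nodup) :
    (((l.map (fun i => tvs i j (v i))).prod : (Matrix ι ι R)ˣ) : Matrix ι ι R) =
      1 + Matrix.of (fun a b => if b = j ∧ a ≠ j ∧ a ∈ l then v a else 0) := by
  induction l with
  | nil =>
    simp only [List.map_nil, List.prod_nil, Units.val_one, List.not_mem_nil, and_false, if_false]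
    ext a b
    simp
  | cons i l ih =>
    rw [List.nodup_cons] at hl
    rw [List.map_cons, List.prod_cons, Units.val_mul, ih hl.2]
    by_cases hij : i = j
    · subst hij
      have h1 : (tvs i i (v i) : (Matrix ι ι R)ˣ) = 1 := tvs_sr.diag i (v i)
      rw [h1, Units.val_one, one_mul]
      congr 1
      ext a b
      simp only [Matrix.of_apply, List.mem_cons]
      apply if_congr _ rfl rfl
      constructor
      · rintro ⟨h1, h2, h3⟩; exact ⟨h1, h2, Or.inr h3⟩
      · rintro ⟨h1, h2, h3 | h3⟩
        · exact absurd h3 h2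
        · exact ⟨h1, h2, h3⟩
    · rw [tvs_val i j hij]
      have hz : Matrix.single i j (v i) * Matrix.of (fun a b => if b = j ∧ a ≠ j ∧ a ∈ l then v a else 0) = 0 := by
        ext a b
        by_cases ha : a = i
        · subst ha
          rw [Matrix.single_mul_apply_same]
          simp
        · rw [Matrix.single_mul_apply_of_ne _ _ _ _ _ ha]
          rfl
      rw [add_mul, one_mul, mul_add, mul_one, hz, add_zero, add_assoc]
      congr 1
      ext a b
      simp only [Matrix.add_apply, Matrix.of_apply, Matrix.single_apply, List.mem_cons]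
      by_cases hb : b = j
      · subst hb
        by_cases ha : a = i
        · subst ha
          simp [hij, hl.1]
        · have ha' : i ≠ a := fun h => ha h.symm
          simp [ha, ha']
      · have hb' : j ≠ b := fun h => hb h.symm
        simp [hb, hb']

theorem mat_rv_aux {R : Type} [Ring R] (j : ι) (w : ι → R) (l : List ι) (hl : l.Nodup) :
    (((l.map (fun i => tvs j i (w i))).prod : (Matrix ι ι R)ˣ) : Matrix ι ι R) =
      1 + Matrix.of (fun a b => if a = j ∧ b ≠ j ∧ b ∈ l then w b else 0) := by
  induction l with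
  | nil =>
    simp only [List.map_nil, List.prod_nil, Units.val_one, List.not_mem_nil, and_false, if_false]
    ext a b
    simp
  | cons i l ih =>
    rw [List.nodup_cons] at hl
    rw [List.map_cons, List.prod_cons, Units.val_mul, ih hl.2]
    by_cases hij : i = j
    · subst hij
      have h1 : (tvs i i (w i) : (Matrix ι ι R)ˣ) = 1 := tvs_sr.diag i (w i)
      rw [h1, Units.val_one, one_mul]
      congr 1
      ext a b
      simp only [Matrix.of_apply, List.mem_cons]
      apply if_congr _ rfl rfl
      constructor
      · rintro ⟨h1, h2, h3⟩; exact ⟨h1, h2, Or.inr h3⟩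
      · rintro ⟨h1, h2, h3 | h3⟩
        · exact absurd h3 h2
        · exact ⟨h1, h2, h3⟩
    · rw [tvs_val j i (Ne.symm hij)]
      have hz : Matrix.single j i (w i) * Matrix.of (fun a b => if a = j ∧ b ≠ j ∧ b ∈ l then w b else 0) = 0 := by
        ext a b
        by_cases ha : a = j
        · subst ha
          rw [Matrix.single_mul_apply_same]
          simp [hij]
        · rw [Matrix.single_mul_apply_of_ne _ _ _ _ _ ha]
          rfl
      rw [add_mul, one_mul, mul_add, mul_one, hz, add_zero, add_assoc]
      congr 1
      ext a b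
      simp only [Matrix.add_apply, Matrix.of_apply, Matrix.single_apply, List.mem_cons]
      by_cases ha : a = j
      · subst ha
        by_cases hb : b = i
        · subst hb
          simp [hij, hl.1]
        · have hb' : i ≠ b := fun h => hb h.symm
          simp [hb, hb']
      · have ha' : j ≠ a := fun h => ha h.symm
        simp [ha, ha']

theorem mat_cv {R : Type} [Ring R] (j : ι) (v : ι → R) :
    ((mat (cv x j v : St ι R) : (Matrix ι ι R)ˣ) : Matrix ι ι R) =
      1 + Matrix.of (fun a b => if b = j ∧ a ≠ j then v a else 0) := by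
  have h1 : mat (cv x j v : St ι R) = (((Finset.univ : Finset ι).toList.map (fun i => tvs i j (v i))).prod) := by
    unfold cv
    rw [map_list_prod, List.map_map]
    congr 1
    apply List.map_congr_left
    intro i _
    exact mat_x i j (v i)
  rw [h1, mat_cv_aux j v _ (Finset.nodup_toList _)]
  simp

theorem mat_rv {R : Type} [Ring R] (j : ι) (w : ι → R) :
    ((mat (rv x j w : St ι R) : (Matrix ι ι R)ˣ) : Matrix ι ι R) =
      1 + Matrix.of (fun a b => if a = j ∧ b ≠ j then w b else 0) := by
  have h1 : mat (rv x j w : St ι R) = (((Finset.univ : Finset ι).toList.map (fun i => tvs j i (w i))).prod) := by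
    unfold rv
    rw [map_list_prod, List.map_map]
    congr 1
    apply List.map_congr_left
    intro i _
    exact mat_x j i (w i)
  rw [h1, mat_rv_aux j w _ (Finset.nodup_toList _)]
  simp

end statements

end Pool.Agent.Helper58.K2
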