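import Pool.Agent.Helper58.K2.Defs
import Pool.Agent.Helper58.K2.JNN
import Pool.Agent.Helper58.K2.JSE
import Pool.Agent.Helper58.K2.JV

set_option autoImplicit false

namespace Pool.Agent.Helper58.K2

open Matrix Pool.Agent.Helper58.EN

section statements
variable {ι : Type} [Fintype ι] [DecidableEq ι]

omit [Fintype ι] in
/-- the mixed relations in the semidirect product. -/
theorem at_MR {B A : Type} [Ring B] [NonUnitalRing A] {lm : B → A → A} {rm : A → B → A}
    (ρ : St ι B →* MulAut (St ι A))
    (hρ : ∀ i j, i ≠ j → ∀ b k l a, ¬(k = j ∧ l = i) →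
      ρ (x i j b) (x k l a) = cX lm rm i j b k l a) :
    MR lm rm (fun i j b => (SemidirectProduct.inr (x i j b) : SemidirectProduct (St ι A) (St ι B) ρ))
      (fun i j a => (SemidirectProduct.inl (x i j a) : SemidirectProduct (St ι A) (St ι B) ρ)) where
  xs :=
    { diag := fun i a => by rw [x_sr.diag, map_one]
      add := fun i j a b => by rw [x_sr.add, map_mul]
      comm := fun i j k hij hjk hik a b => by
        rw [← x_sr.comm i j k hij hjk hik]; simp only [map_mul, map_inv]
      commute := fun i j k l hjk hil a b => by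
        rw [← map_mul, x_sr.commute i j k l hjk hil, map_mul] }
  ys :=
    { diag := fun i a => by rw [x_sr.diag, map_one]
      add := fun i j a b => by rw [x_sr.add, map_mul]
      comm := fun i j k hij hjk hik a b => by
        rw [← x_sr.comm i j k hij hjk hik]; simp only [map_mul, map_inv]
      commute := fun i j k l hjk hil a b => by
        rw [← map_mul, x_sr.commute i j k l hjk hil, map_mul] }
  cL := fun i j k hij hjk hik b a => by
    rw [← map_inv, ← SemidirectProduct.inl_aut, hρ i j hij b j k a (fun h => hik h.2.symm), ← map_mul]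
    congr 1
    unfold cX
    rw [if_neg hjk, if_pos rfl]
    exact x_sr.commute j k i k (Ne.symm hik) hjk _ _
  cR := fun i j k hij hki hkj b a => by
    rw [← map_inv, ← SemidirectProduct.inl_aut, hρ i j hij b k i a (fun h => hkj h.1), ← map_mul]
    congr 1
    unfold cX
    rw [if_neg hki, if_neg hkj, if_pos rfl]
    exact x_sr.commute k i k j (Ne.symm hki) hkj _ _
  cC := fun i j k l hjk hil b a => by
    by_cases hij : i = j
    · subst hij
      rw [x_sr.diag, map_one, one_mul, inv_one, mul_one]
    · by_cases hkl : k = l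
      · subst hkl
        rw [x_sr.diag k, map_one, mul_one, mul_inv_cancel]
      · rw [← map_inv, ← SemidirectProduct.inl_aut, hρ i j hij b k l a (fun h => hjk h.1.symm)]
        congr 1
        unfold cX
        rw [if_neg hkl, if_neg (Ne.symm hjk), if_neg (Ne.symm hil)]

/-- the action is implemented by conjugation after the embedding into `Λ`. -/
theorem at_conj (h5 : 5 ≤ Fintype.card ι) {B A Λ : Type} [Ring B] [NonUnitalRing A]
    [Ring Λ] {lm : B → A → A} {rm : A → B → A} (hU : HU A) (β : B →+* Λ)
    (jj : A →ₙ+* Λ) (hl : ∀ b a, jj (lm b a) = β b * jj a)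
    (hr : ∀ a b, jj (rm a b) = jj a * β b) (ρ : St ι B →* MulAut (St ι A))
    (hρ : ∀ i j, i ≠ j → ∀ b k l a, ¬(k = j ∧ l = i) →
      ρ (x i j b) (x k l a) = cX lm rm i j b k l a) (g : St ι B) :
    ∀ ξ : St ι A, mat (map jj (ρ g ξ)) = mat (mapR β g) * mat (map jj ξ) * (mat (mapR β g))⁻¹ := by
  induction g using St_induction with
  | h1 =>
    intro ξ
    simp only [map_one, MulAut.one_apply, one_mul, inv_one, mul_one]
  | hx i j b g ih =>
    intro ξ
    have key : ∀ ξ : St ι A, mat (map jj (ρ (x i j b) ξ)) =
        tvs i j (β b) * mat (map jj ξ) * (tvs i j (β b))⁻¹ := by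
      by_cases hij : i = j
      · subst hij
        intro ξ
        rw [x_sr.diag, map_one, MulAut.one_apply, tvs_sr.diag, one_mul, inv_one, mul_one]
      · obtain ⟨m, hm⟩ : ∃ m : ι, m ∉ ({i, j} : Finset ι) := by
          by_contra hcon
          push Not at hcon
          have h1 : (Finset.univ : Finset ι) ⊆ {i, j} := fun m _ => hcon m
          have h2 := Finset.card_le_card h1
          have h3 : ({i, j} : Finset ι).card ≤ 2 := Finset.card_le_two
          rw [Finset.card_univ] at h2
          omega
        have hmi : m ≠ i := fun h => hm (by simp [h])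
        have hmj : m ≠ j := fun h => hm (by simp [h])
        have hfg := star_ext h5 hU m
          (((mat : St ι Λ →* (Matrix ι ι Λ)ˣ).comp (map jj)).comp (ρ (x i j b)).toMonoidHom)
          ((MulAut.conj (tvs i j (β b))).toMonoidHom.comp
            ((mat : St ι Λ →* (Matrix ι ι Λ)ˣ).comp (map jj)))
          (by
            intro k a
            simp only [MonoidHom.comp_apply, MulEquiv.coe_toMonoidHom, MulAut.conj_apply, map_x,
              mat_x]
            rw [hρ i j hij b k m a (fun h => hmi h.2)]
            unfold cX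
            by_cases hkm : k = m
            · subst hkm
              rw [if_pos rfl, map_one, map_one, tvs_sr.diag, mul_one, mul_inv_cancel]
            · rw [if_neg hkm]
              by_cases hkj : k = j
              · subst hkj
                rw [if_pos rfl, map_mul, map_mul, map_x, map_x, mat_x, mat_x, hl,
                  tvs_sr.conjL i k m hij hkm (Ne.symm hmi)]
                exact tvs_sr.commute k m i m hmi hkm _ _
              · rw [if_neg hkj, if_neg hmi, map_x, mat_x,
                  tvs_sr.conjC i j k m (Ne.symm hkj) (Ne.symm hmi)])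
          (by
            intro k a
            simp only [MonoidHom.comp_apply, MulEquiv.coe_toMonoidHom, MulAut.conj_apply, map_x,
              mat_x]
            rw [hρ i j hij b m k a (fun h => hmj h.1)]
            unfold cX
            by_cases hkm : m = k
            · subst hkm
              rw [if_pos rfl, map_one, map_one, tvs_sr.diag, mul_one, mul_inv_cancel]
            · rw [if_neg hkm, if_neg hmj]
              by_cases hki : k = i
              · subst hki
                rw [if_pos rfl, map_mul, map_mul, map_x, map_x, mat_x, mat_x, map_neg, hr,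
                  tvs_sr.conjR k j m hij hmi hmj]
                exact tvs_sr.commute m k m j (Ne.symm hmi) hmj _ _
              · rw [if_neg hki, map_x, mat_x,
                  tvs_sr.conjC i j m k (Ne.symm hmj) (Ne.symm hki)])
        intro ξ
        exact DFunLike.congr_fun hfg ξ
    rw [map_mul ρ, MulAut.mul_apply, key, ih, map_mul (mapR β), map_mul mat, mapR_x, mat_x]
    group

theorem action_trivial (h5 : 5 ≤ Fintype.card ι) {B A Λ : Type} [Ring B] [NonUnitalRing A]
    [Ring Λ] {lm : B → A → A} {rm : A → B → A} (bm : BM lm rm) (hU : HU A) (β : B →+* Λ)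
    (jj : A →ₙ+* Λ) (hjj : Function.Injective jj) (hl : ∀ b a, jj (lm b a) = β b * jj a)
    (hr : ∀ a b, jj (rm a b) = jj a * β b) (ρ : St ι B →* MulAut (St ι A))
    (hρ : ∀ i j, i ≠ j → ∀ b k l a, ¬(k = j ∧ l = i) →
      ρ (x i j b) (x k l a) = cX lm rm i j b k l a) (n : ι) (κ : St ι B)
    (hκ : κ ∈ N0 (x : ι → ι → B → St ι B) n) (hm : mat κ = 1) (k : ι) (a : A) :
    ρ κ (x k n a) = x k n a := by
  by_cases hkn : k = n
  · subst hkn
    rw [x_sr.diag, map_one]
  have mr := at_MR ρ hρ
  have hmem : (SemidirectProduct.inr κ : SemidirectProduct (St ι A) (St ι B) ρ) ∈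
      N0 (fun i j b => (SemidirectProduct.inr (x i j b) : SemidirectProduct (St ι A) (St ι B) ρ)) n := by
    have h1 : (SemidirectProduct.inr κ : SemidirectProduct (St ι A) (St ι B) ρ) ∈
        (N0 (x : ι → ι → B → St ι B) n).map
          (SemidirectProduct.inr : St ι B →* SemidirectProduct (St ι A) (St ι B) ρ) :=
      Subgroup.mem_map_of_mem _ hκ
    unfold N0 at h1
    rw [MonoidHom.map_closure] at h1
    refine Subgroup.closure_mono ?_ h1
    rintro _ ⟨g, hg, rfl⟩
    rcases hg with ⟨k', l', hk', hl', b, rfl⟩ | ⟨i, hi, p, q, u, hu, hg⟩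
    · exact Or.inl ⟨k', l', hk', hl', b, rfl⟩
    · refine Or.inr ⟨i, hi, p, q, u, hu, ?_⟩
      rcases hg with rfl | rfl
      · left; simp only [hh, map_mul]
      · right; simp only [hh, map_mul]
  have hcol : (SemidirectProduct.inl (ρ κ (x k n a)) : SemidirectProduct (St ι A) (St ι B) ρ) ∈
      col (fun i j a => (SemidirectProduct.inl (x i j a) : SemidirectProduct (St ι A) (St ι B) ρ)) n
        ((⊤ : AddSubgroup A) : Set A) := by
    rw [SemidirectProduct.inl_aut, map_inv]
    exact (N0_norm (by omega) bm mr n ⊤ (fun _ _ _ => trivial) (fun _ _ _ => trivial) _ hmem).1 _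
      (Subgroup.subset_closure ⟨k, a, trivial, rfl⟩)
  rw [mem_col mr.ys n ⊤] at hcol
  obtain ⟨v, -, hv⟩ := hcol
  have hv2 : ρ κ (x k n a) = cv x n v := by
    apply SemidirectProduct.inl_injective (φ := ρ)
    rw [hv]
    unfold cv
    rw [map_list_prod, List.map_map]
    rfl
  have h1 := at_conj h5 hU β jj hl hr ρ hρ κ (x k n a)
  rw [mat_mapR, hm, map_one, one_mul, inv_one, mul_one, hv2, map_x, mat_x] at h1
  have h2 : map jj (cv x n v : St ι A) = cv x n (fun i => jj (v i)) := by
    unfold cv
    rw [map_list_prod, List.map_map]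
    congr 1
  rw [h2] at h1
  have h3 := congrArg Units.val h1
  rw [mat_cv, tvs_val k n hkn] at h3
  have h4 := add_left_cancel h3
  have hvi : ∀ i, i ≠ n → i ≠ k → v i = 0 := by
    intro i hin hik
    have h5 := congrFun (congrFun h4 i) n
    rw [Matrix.of_apply, if_pos ⟨rfl, hin⟩, Matrix.single_apply_of_row_ne (Ne.symm hik)] at h5
    exact hjj (by rw [h5, map_zero])
  have hvk : v k = a := by
    have h5 := congrFun (congrFun h4 k) n
    rw [Matrix.of_apply, if_pos ⟨rfl, hkn⟩, Matrix.single_apply_same] at h5
    exact hjj h5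
  rw [hv2]
  unfold cv
  rw [List.prod_map_eq_pow_single k (fun i => x i n (v i)) (by
    intro i hik _
    by_cases hin : i = n
    · subst hin; exact x_sr.diag _ _
    · rw [hvi i hin hik]; exact x_sr.zero _ _),
    List.count_eq_one_of_mem (Finset.nodup_toList _) (Finset.mem_toList.mpr (Finset.mem_univ k)),
    pow_one, hvk]

end statements

end Pool.Agent.Helper58.K2
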