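import Pool.Agent.Helper58.K2.Defs
import Pool.Agent.Helper58.K2.JNN
import Pool.Agent.Helper58.K2.JV

set_option autoImplicit false

namespace Pool.Agent.Helper58.K2

open Matrix Pool.Agent.Helper58.EN

section statements
variable {ι : Type} [Fintype ι] [DecidableEq ι]

def Blk480 {R : Type} [Ring R] (j : ι) (M : Matrix ι ι R) : Prop :=
  (∀ i, i ≠ j → M i j = 0 ∧ M j i = 0) ∧ IsUnit (M j j)

theorem Blk_one480 {R : Type} [Ring R] (j : ι) : Blk480 j (1 : Matrix ι ι R) := by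
  refine ⟨fun i hi => ⟨?_, ?_⟩, ?_⟩
  · rw [Matrix.one_apply_ne hi]
  · rw [Matrix.one_apply_ne (Ne.symm hi)]
  · rw [Matrix.one_apply_eq]; exact isUnit_one

theorem mul_col480 {R : Type} [Ring R] (j : ι) (M N : Matrix ι ι R)
    (hN : ∀ i, i ≠ j → N i j = 0) (i : ι) : (M * N) i j = M i j * N j j := by
  rw [Matrix.mul_apply, Finset.sum_eq_single j]
  · intro k _ hk
    rw [hN k hk, mul_zero]
  · intro h; exact absurd (Finset.mem_univ _) h

theorem mul_row480 {R : Type} [Ring R] (j : ι) (M N : Matrix ι ι R)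
    (hM : ∀ i, i ≠ j → M j i = 0) (i : ι) : (M * N) j i = M j j * N j i := by
  rw [Matrix.mul_apply, Finset.sum_eq_single j]
  · intro k _ hk
    rw [hM k hk, zero_mul]
  · intro h; exact absurd (Finset.mem_univ _) h

theorem Blk_mul480 {R : Type} [Ring R] (j : ι) (M N : Matrix ι ι R) (hM : Blk480 j M)
    (hN : Blk480 j N) : Blk480 j (M * N) := by
  refine ⟨fun i hi => ⟨?_, ?_⟩, ?_⟩
  · rw [mul_col480 j M N (fun k hk => (hN.1 k hk).1), (hM.1 i hi).1, zero_mul]
  · rw [mul_row480 j M N (fun k hk => (hM.1 k hk).2), (hN.1 i hi).2, mul_zero]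
  · rw [mul_col480 j M N (fun k hk => (hN.1 k hk).1)]
    exact hM.2.mul hN.2

theorem Blk_inv480 {R : Type} [Ring R] (j : ι) (g : (Matrix ι ι R)ˣ)
    (hM : Blk480 j (g : Matrix ι ι R)) : Blk480 j ((g⁻¹ : (Matrix ι ι R)ˣ) : Matrix ι ι R) := by
  set M : Matrix ι ι R := (g : Matrix ι ι R) with hMdef
  set N : Matrix ι ι R := ((g⁻¹ : (Matrix ι ι R)ˣ) : Matrix ι ι R) with hNdef
  have h1 : M * N = 1 := by rw [hMdef, hNdef]; exact Units.mul_inv g
  have h2 : N * M = 1 := by rw [hMdef, hNdef]; exact Units.inv_mul g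
  obtain ⟨u, hu⟩ := hM.2
  have h3 : ∀ i, M j j * N j i = (1 : Matrix ι ι R) j i := by
    intro i
    rw [← mul_row480 j M N (fun k hk => (hM.1 k hk).2), h1]
  have h4 : ∀ i, N i j * M j j = (1 : Matrix ι ι R) i j := by
    intro i
    rw [← mul_col480 j N M (fun k hk => (hM.1 k hk).1), h2]
  rw [← hu] at h3 h4
  refine ⟨fun i hi => ⟨?_, ?_⟩, ?_⟩
  · have h5 := h4 i
    rw [Matrix.one_apply_ne hi] at h5
    exact (Units.mul_left_eq_zero u).1 h5
  · have h5 := h3 i
    rw [Matrix.one_apply_ne (Ne.symm hi)] at h5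
    exact (Units.mul_right_eq_zero u).1 h5
  · have h5 := h3 j
    rw [Matrix.one_apply_eq] at h5
    have h6 : N j j = ((u⁻¹ : Rˣ) : R) := by
      exact (Units.inv_eq_of_mul_eq_one_right h5).symm
    rw [h6]
    exact Units.isUnit _

theorem hh_val480 {R : Type} [Ring R] (i j : ι) (hij : i ≠ j) (p q : R) (u : Rˣ)
    (hu : (u : R) = 1 + p * q) :
    ((hh tvs i j p q u : (Matrix ι ι R)ˣ) : Matrix ι ι R) =
      1 + Matrix.single i i (p * q) + Matrix.single j j (-(q * ((u⁻¹ : Rˣ) : R) * p)) := by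
  have e1 : q * ((u⁻¹ : Rˣ) : R) + q * ((u⁻¹ : Rˣ) : R) * (p * q) = q := by
    have : q * ((u⁻¹ : Rˣ) : R) + q * ((u⁻¹ : Rˣ) : R) * (p * q) =
      q * (((u⁻¹ : Rˣ) : R) * (1 + p * q)) := by noncomm_ring
    rw [this, ← hu, Units.inv_mul, mul_one]
  have e2 : ((u⁻¹ : Rˣ) : R) * p + p * q * (((u⁻¹ : Rˣ) : R) * p) = p := by
    have : ((u⁻¹ : Rˣ) : R) * p + p * q * (((u⁻¹ : Rˣ) : R) * p) =
      (1 + p * q) * ((u⁻¹ : Rˣ) : R) * p := by noncomm_ring
    rw [this, ← hu, Units.mul_inv, one_mul]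
  unfold hh
  simp only [Units.val_mul, tvs_val i j hij, tvs_val j i (Ne.symm hij)]
  have hq : (Matrix.single j i q : Matrix ι ι R) = Matrix.single j i (q * ((u⁻¹ : Rˣ) : R)) +
      Matrix.single j i (q * ((u⁻¹ : Rˣ) : R) * (p * q)) := by
    rw [← Matrix.single_add, e1]
  have hp : (Matrix.single i j p : Matrix ι ι R) = Matrix.single i j (((u⁻¹ : Rˣ) : R) * p) +
      Matrix.single i j (p * q * (((u⁻¹ : Rˣ) : R) * p)) := by
    rw [← Matrix.single_add, e2]
  have s1 : ((1 : Matrix ι ι R) + Matrix.single j i (-(q * ((u⁻¹ : Rˣ) : R)))) *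
      (1 + Matrix.single i j p) * (1 + Matrix.single j i q) =
      1 + Matrix.single i j p + Matrix.single i i (p * q) +
        Matrix.single j j (-(q * ((u⁻¹ : Rˣ) : R) * p)) := by
    have t1 : ((1 : Matrix ι ι R) + Matrix.single i j p) * (1 + Matrix.single j i q) =
        1 + Matrix.single i j p + Matrix.single j i q + Matrix.single i i (p * q) := by
      simp only [mul_add, add_mul, mul_one, one_mul, Matrix.single_mul_single_same]
      abel
    rw [mul_assoc, t1]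
    simp only [mul_add, add_mul, mul_one, one_mul, Matrix.single_mul_single_same,
      Matrix.single_mul_single_of_ne _ _ _ _ hij, neg_mul, ← Matrix.single_neg]
    rw [hq]
    abel
  rw [s1]
  simp only [mul_add, add_mul, mul_one, one_mul, Matrix.single_mul_single_same, mul_neg,
    Matrix.single_mul_single_of_ne _ _ _ _ (Ne.symm hij), neg_mul, ← Matrix.single_neg]
  rw [hp]
  abel

theorem mat_hh480 {R : Type} [Ring R] (i j : ι) (p q : R) (u : Rˣ) :
    mat (hh (x : ι → ι → R → St ι R) i j p q u) = hh tvs i j p q u := by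
  simp [hh]

theorem mat_N0 {R : Type} [Ring R] (j : ι) : ∀ g ∈ N0 (x : ι → ι → R → St ι R) j,
    (∀ i, i ≠ j → ((mat g : (Matrix ι ι R)ˣ) : Matrix ι ι R) i j = 0 ∧
      ((mat g : (Matrix ι ι R)ˣ) : Matrix ι ι R) j i = 0) ∧
      IsUnit (((mat g : (Matrix ι ι R)ˣ) : Matrix ι ι R) j j) := by
  intro g hg
  change Blk480 j ((mat g : (Matrix ι ι R)ˣ) : Matrix ι ι R)
  induction hg using Subgroup.closure_induction with
  | mem g hg =>
    rcases hg with ⟨k, l, hk, hl, b, rfl⟩ | ⟨i, hi, p, q, u, hu, rfl | rfl⟩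
    · rw [mat_x]
      by_cases hkl : k = l
      · subst hkl
        rw [tvs_sr.diag]
        exact Blk_one480 j
      · rw [tvs_val k l hkl]
        refine ⟨fun i hi => ⟨?_, ?_⟩, ?_⟩
        · simp [Matrix.one_apply_ne hi, Matrix.single_apply, hl]
        · simp [Matrix.one_apply_ne (Ne.symm hi), Matrix.single_apply, hk]
        · simp [Matrix.single_apply, hk]
    · rw [mat_hh480, hh_val480 i j hi p q u hu]
      refine ⟨fun k hk => ⟨?_, ?_⟩, ?_⟩
      · simp [Matrix.one_apply_ne hk, Matrix.single_apply, hi, Ne.symm hk]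
      · simp [Matrix.one_apply_ne (Ne.symm hk), Matrix.single_apply, hi, Ne.symm hk]
      · have h1 : ((1 : Matrix ι ι R) + Matrix.single i i (p * q) +
            Matrix.single j j (-(q * ((u⁻¹ : Rˣ) : R) * p))) j j = 1 - q * ((u⁻¹ : Rˣ) : R) * p := by
          simp [Matrix.single_apply, hi, sub_eq_add_neg]
        rw [h1]
        refine ⟨⟨1 - q * ((u⁻¹ : Rˣ) : R) * p, 1 + q * p, ?_, ?_⟩, rfl⟩
        · have : (1 - q * ((u⁻¹ : Rˣ) : R) * p) * (1 + q * p) =
            1 + q * p - q * (((u⁻¹ : Rˣ) : R) * (1 + p * q)) * p := by noncomm_ring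
          rw [this, ← hu, Units.inv_mul, mul_one, add_sub_cancel_right]
        · have : (1 + q * p) * (1 - q * ((u⁻¹ : Rˣ) : R) * p) =
            1 + q * p - q * ((1 + p * q) * ((u⁻¹ : Rˣ) : R)) * p := by noncomm_ring
          rw [this, ← hu, Units.mul_inv, mul_one, add_sub_cancel_right]
    · rw [mat_hh480, hh_val480 j i (Ne.symm hi) p q u hu]
      refine ⟨fun k hk => ⟨?_, ?_⟩, ?_⟩
      · simp [Matrix.one_apply_ne hk, Matrix.single_apply, hi, Ne.symm hk]
      · simp [Matrix.one_apply_ne (Ne.symm hk), Matrix.single_apply, hi, Ne.symm hk]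
      · have h1 : ((1 : Matrix ι ι R) + Matrix.single j j (p * q) +
            Matrix.single i i (-(q * ((u⁻¹ : Rˣ) : R) * p))) j j = 1 + p * q := by
          simp [Matrix.single_apply, hi]
        rw [h1, ← hu]
        exact Units.isUnit _
  | one => rw [map_one]; exact Blk_one480 j
  | mul a b _ _ ha hb => rw [map_mul, Units.val_mul]; exact Blk_mul480 j _ _ ha hb
  | inv a _ ha => rw [map_inv]; exact Blk_inv480 j _ ha

theorem cv_congr480 {R : Type} [Ring R] (j : ι) (v v' : ι → R) (h : ∀ k, k ≠ j → v k = v' k) :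
    cv (x : ι → ι → R → St ι R) j v = cv x j v' := by
  have h1 : v = v' + Pi.single j (v j - v' j) := by
    ext k
    by_cases hk : k = j
    · subst hk; simp
    · simp [hk, h k hk]
  rw [h1, cv_add x_sr, cv_single x_sr, x_sr.diag, mul_one]

theorem rv_congr480 {R : Type} [Ring R] (j : ι) (v v' : ι → R) (h : ∀ k, k ≠ j → v k = v' k) :
    rv (x : ι → ι → R → St ι R) j v = rv x j v' := by
  have h1 : v = v' + Pi.single j (v j - v' j) := by
    ext k
    by_cases hk : k = j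
    · subst hk; simp
    · simp [hk, h k hk]
  rw [h1, rv_add x_sr, rv_single x_sr, x_sr.diag, mul_one]

theorem cv_zero480 {R : Type} [Ring R] (j : ι) :
    cv (x : ι → ι → R → St ι R) j 0 = 1 := by
  have := cv_add (x_sr (ι := ι) (A := R)) j 0 0
  rw [add_zero] at this
  exact left_eq_mul.mp this

theorem rv_zero480 {R : Type} [Ring R] (j : ι) :
    rv (x : ι → ι → R → St ι R) j 0 = 1 := by
  have := rv_add (x_sr (ι := ι) (A := R)) j 0 0
  rw [add_zero] at this
  exact left_eq_mul.mp this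

theorem cv_inv480 {R : Type} [Ring R] (j : ι) (v : ι → R) :
    (cv (x : ι → ι → R → St ι R) j v)⁻¹ = cv x j (-v) := by
  rw [inv_eq_iff_mul_eq_one, ← cv_add x_sr, add_neg_cancel, cv_zero480]

theorem rv_inv480 {R : Type} [Ring R] (j : ι) (v : ι → R) :
    (rv (x : ι → ι → R → St ι R) j v)⁻¹ = rv x j (-v) := by
  rw [inv_eq_iff_mul_eq_one, ← rv_add x_sr, add_neg_cancel, rv_zero480]

theorem uniq1 {R : Type} [Ring R] (j : ι) (r ν c : St ι R) (hr : r ∈ row x j (Set.univ : Set R))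
    (hν : ν ∈ N0 (x : ι → ι → R → St ι R) j) (hc : c ∈ col x j (Set.univ : Set R))
    (h : mat (r * ν * c) = 1) : r = 1 ∧ c = 1 := by
  have hr' := (mem_row (x_sr (ι := ι) (A := R)) j ⊤ r).1 (by simpa using hr)
  have hc' := (mem_col (x_sr (ι := ι) (A := R)) j ⊤ c).1 (by simpa using hc)
  obtain ⟨w, -, rfl⟩ := hr'
  obtain ⟨v, -, rfl⟩ := hc'
  obtain ⟨hB1, hB2⟩ := mat_N0 j ν⁻¹ ((N0 x j).inv_mem hν)
  have h1 : (mat (cv x j v : St ι R) : (Matrix ι ι R)ˣ) = mat ν⁻¹ * mat (rv x j (-w)) := by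
    rw [← rv_inv480, map_inv, map_inv, ← _root_.mul_inv_rev, ← map_mul, eq_inv_iff_mul_eq_one]
    rw [map_mul, mul_eq_one_iff_eq_inv] at h
    rw [h, mul_inv_cancel]
  have hv : ∀ k, k ≠ j → v k = 0 := by
    intro k hk
    have h2 : ((mat (cv x j v : St ι R) : (Matrix ι ι R)ˣ) : Matrix ι ι R) k j = v k := by
      rw [mat_cv]; simp [hk]
    rw [← h2, h1, Units.val_mul, mul_col480 j, (hB1 k hk).1, zero_mul]
    intro i hi
    rw [mat_rv]
    simp [hi]
  have hc1 : (cv x j v : St ι R) = 1 := by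
    rw [cv_congr480 j v 0 (fun k hk => by simp [hv k hk]), cv_zero480]
  have h3 : (mat (rv x j w : St ι R) : (Matrix ι ι R)ˣ) = mat ν⁻¹ := by
    rw [hc1, mul_one, map_mul, mul_eq_one_iff_eq_inv] at h
    rw [h, map_inv]
  have hw : ∀ k, k ≠ j → w k = 0 := by
    intro k hk
    have h2 : ((mat (rv x j w : St ι R) : (Matrix ι ι R)ˣ) : Matrix ι ι R) j k = w k := by
      rw [mat_rv]; simp [hk, Matrix.one_apply_ne (Ne.symm hk)]
    rw [← h2, h3, (hB1 k hk).2]
  have hr1 : (rv x j w : St ι R) = 1 := by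
    rw [rv_congr480 j w 0 (fun k hk => by simp [hw k hk]), rv_zero480]
  exact ⟨hr1, hc1⟩

theorem uniq2 {R : Type} [Ring R] (j : ι) (r ν c : St ι R) (hr : r ∈ row x j (Set.univ : Set R))
    (hν : ν ∈ N0 (x : ι → ι → R → St ι R) j) (hc : c ∈ col x j (Set.univ : Set R))
    (h : mat (c * ν * r) = 1) : r = 1 ∧ c = 1 := by
  have hr' := (mem_row (x_sr (ι := ι) (A := R)) j ⊤ r).1 (by simpa using hr)
  have hc' := (mem_col (x_sr (ι := ι) (A := R)) j ⊤ c).1 (by simpa using hc)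
  obtain ⟨w, -, rfl⟩ := hr'
  obtain ⟨v, -, rfl⟩ := hc'
  obtain ⟨hB1, hB2⟩ := mat_N0 j ν⁻¹ ((N0 x j).inv_mem hν)
  have h1 : (mat (rv x j w : St ι R) : (Matrix ι ι R)ˣ) = mat ν⁻¹ * mat (cv x j (-v)) := by
    rw [← cv_inv480, map_inv, map_inv, ← _root_.mul_inv_rev, ← map_mul, eq_inv_iff_mul_eq_one]
    rw [map_mul, mul_eq_one_iff_eq_inv] at h
    rw [h, mul_inv_cancel]
  have hw : ∀ k, k ≠ j → w k = 0 := by
    intro k hk
    have h2 : ((mat (rv x j w : St ι R) : (Matrix ι ι R)ˣ) : Matrix ι ι R) j k = w k := by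
      rw [mat_rv]; simp [hk, Matrix.one_apply_ne (Ne.symm hk)]
    rw [← h2, h1, Units.val_mul, mul_row480 j _ _ (fun i hi => (hB1 i hi).2), mat_cv]
    simp [hk, Matrix.one_apply_ne (Ne.symm hk)]
  have hr1 : (rv x j w : St ι R) = 1 := by
    rw [rv_congr480 j w 0 (fun k hk => by simp [hw k hk]), rv_zero480]
  have h3 : (mat (cv x j v : St ι R) : (Matrix ι ι R)ˣ) = mat ν⁻¹ := by
    rw [hr1, mul_one, map_mul, mul_eq_one_iff_eq_inv] at h
    rw [h, map_inv]
  have hv : ∀ k, k ≠ j → v k = 0 := by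
    intro k hk
    have h2 : ((mat (cv x j v : St ι R) : (Matrix ι ι R)ˣ) : Matrix ι ι R) k j = v k := by
      rw [mat_cv]; simp [hk]
    rw [← h2, h3, (hB1 k hk).1]
  have hc1 : (cv x j v : St ι R) = 1 := by
    rw [cv_congr480 j v 0 (fun k hk => by simp [hv k hk]), cv_zero480]
  exact ⟨hr1, hc1⟩

theorem comm_col (h3 : 3 ≤ Fintype.card ι) {R : Type} [Ring R] (j : ι) (ν : St ι R)
    (hν : ν ∈ N0 (x : ι → ι → R → St ι R) j) (h : mat ν = 1) (i : ι) (a : R) :
    ν * x i j a = x i j a * ν := by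
  have h1 := (N0_norm_x h3 (⊤ : Ideal R) j ν hν).1 (x i j a)
    (Subgroup.subset_closure ⟨i, a, Submodule.mem_top, rfl⟩)
  have h2 := (mem_col (x_sr (ι := ι) (A := R)) j ⊤ (ν * x i j a * ν⁻¹)).1 (by simpa using h1)
  obtain ⟨v, -, hv⟩ := h2
  have h4 : (mat (cv x j v : St ι R) : (Matrix ι ι R)ˣ) = mat (cv x j (Pi.single i a)) := by
    rw [← hv, cv_single x_sr, map_mul, map_mul, map_inv, h]
    simp
  have h5 : ∀ k, k ≠ j → v k = (Pi.single i a : ι → R) k := by
    intro k hk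
    have h6 : ∀ v' : ι → R,
        ((mat (cv x j v' : St ι R) : (Matrix ι ι R)ˣ) : Matrix ι ι R) k j = v' k := by
      intro v'
      rw [mat_cv]; simp [hk]
    rw [← h6 v, h4, h6]
  rw [cv_congr480 j v _ h5, cv_single x_sr] at hv
  exact mul_inv_eq_iff_eq_mul.1 hv

end statements

end Pool.Agent.Helper58.K2
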