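import Pool.Agent.Helper58.K2.Defs
import Pool.Agent.Helper58.K2.JV

set_option autoImplicit false

namespace Pool.Agent.Helper58.K2

open Matrix Pool.Agent.Helper58.EN

section statements
variable {ι : Type} [Fintype ι] [DecidableEq ι]

theorem vec_induction {R : Type} [Ring R] {p : (ι → R) → Prop} (h0 : p 0)
    (hs : ∀ i a, p (Pi.single i a)) (ha : ∀ v w, p v → p w → p (v + w)) (v : ι → R) : p v := by
  have h1 : ∀ s : Finset ι, p (∑ i ∈ s, Pi.single i (v i)) := by
    intro s
    induction s using Finset.induction_on with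
    | empty => simpa using h0
    | insert a s hna ih =>
      rw [Finset.sum_insert hna]
      exact ha _ _ (hs a (v a)) ih
  have h2 := h1 Finset.univ
  rwa [Finset.univ_sum_single] at h2

theorem conj_cv {R : Type} [Ring R] (k l j : ι) (hkl : k ≠ l) (hkj : k ≠ j) (hlj : l ≠ j) (b : R)
    (v : ι → R) :
    x k l b * cv x j v * (x k l b)⁻¹ = (cv x j (v + Pi.single k (b * v l)) : St ι R) := by
  have hsr : SR (x : ι → ι → R → St ι R) := x_sr
  have h0 : cv (x : ι → ι → R → St ι R) j 0 = 1 := by
    have h1 := cv_single hsr k j (0 : R)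
    rw [Pi.single_zero, hsr.zero] at h1
    exact h1
  induction v using vec_induction with
  | h0 =>
    rw [Pi.zero_apply, mul_zero, Pi.single_zero, add_zero, h0, mul_one, mul_inv_cancel]
  | hs i a =>
    by_cases hil : i = l
    · subst hil
      rw [Pi.single_eq_same, add_comm, cv_add hsr, cv_single hsr, cv_single hsr]
      exact hsr.conjL k i j hkl hlj hkj b a
    · rw [Pi.single_eq_of_ne (Ne.symm hil), mul_zero, Pi.single_zero, add_zero, cv_single hsr]
      exact hsr.conjC k l i j (Ne.symm hil) hkj b a
  | ha v w hv hw =>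
    have h1 : v + w + Pi.single k (b * (v + w) l) = (v + Pi.single k (b * v l)) + (w + Pi.single k (b * w l)) := by
      rw [Pi.add_apply, mul_add, Pi.single_add]
      abel
    have e2 : ∀ p q : ι → R, cv (x : ι → ι → R → St ι R) j (p + q) = cv x j p * cv x j q := fun p q => cv_add hsr j p q
    rw [h1, e2 v w, e2, ← hv, ← hw]
    group

theorem conj_rv {R : Type} [Ring R] (k l j : ι) (hkl : k ≠ l) (hkj : k ≠ j) (hlj : l ≠ j) (b : R)
    (w : ι → R) :
    x k l b * rv x j w * (x k l b)⁻¹ = (rv x j (w - Pi.single l (w k * b)) : St ι R) := by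
  have hsr : SR (x : ι → ι → R → St ι R) := x_sr
  have h0 : rv (x : ι → ι → R → St ι R) j 0 = 1 := by
    have h1 := rv_single hsr k j (0 : R)
    rw [Pi.single_zero, hsr.zero] at h1
    exact h1
  induction w using vec_induction with
  | h0 =>
    rw [Pi.zero_apply, zero_mul, Pi.single_zero, sub_zero, h0, mul_one, mul_inv_cancel]
  | hs i a =>
    by_cases hik : i = k
    · subst hik
      rw [Pi.single_eq_same, sub_eq_neg_add, ← Pi.single_neg, rv_add hsr, rv_single hsr, rv_single hsr]
      exact hsr.conjR i l j hkl (Ne.symm hkj) (Ne.symm hlj) b a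
    · rw [Pi.single_eq_of_ne (Ne.symm hik), zero_mul, Pi.single_zero, sub_zero, rv_single hsr]
      exact hsr.conjC k l j i hlj (Ne.symm hik) b a
  | ha v w hv hw =>
    have h1 : v + w - Pi.single l ((v + w) k * b) = (v - Pi.single l (v k * b)) + (w - Pi.single l (w k * b)) := by
      rw [Pi.add_apply, add_mul, Pi.single_add]
      abel
    have e2 : ∀ p q : ι → R, rv (x : ι → ι → R → St ι R) j (p + q) = rv x j p * rv x j q := fun p q => rv_add hsr j p q
    rw [h1, e2 v w, e2, ← hv, ← hw]
    group

end statements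

end Pool.Agent.Helper58.K2
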