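import Pool.Agent.Helper58.K2.Defs
import Pool.Agent.Helper58.K2.JMN
import Pool.Agent.Helper58.K2.JNN
import Pool.Agent.Helper58.K2.JV
import Pool.Agent.Helper58.K2.JV2

set_option autoImplicit false

namespace Pool.Agent.Helper58.K2

open Matrix Pool.Agent.Helper58.EN

section statements
variable {ι : Type} [Fintype ι] [DecidableEq ι]

theorem mv_tvs {A : Type} [Ring A] (i j : ι) (h : i ≠ j) (a : A) (w : ι → A) :
    ((tvs i j a : (Matrix ι ι A)ˣ) : Matrix ι ι A) *ᵥ w = w + Pi.single i (a * w j) := by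
  rw [tvs_val i j h, Matrix.add_mulVec, Matrix.one_mulVec]
  congr 1
  funext m
  by_cases hm : m = i
  · subst hm
    rw [Pi.single_eq_same]
    simp only [Matrix.mulVec, dotProduct]
    rw [Finset.sum_eq_single j]
    · simp
    · intro b _ hb
      simp [Matrix.single_apply, Ne.symm hb]
    · intro hj
      exact absurd (Finset.mem_univ _) hj
  · rw [Pi.single_eq_of_ne hm]
    simp only [Matrix.mulVec, dotProduct]
    refine Finset.sum_eq_zero fun b _ => ?_
    simp [Matrix.single_apply, Ne.symm hm]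

theorem col_reduce_aux {A : Type} [Ring A]
    (hRU : ∀ a b : A, ∃ c d : A, b = d * (a + c * b)) (n k : ι) (hk : k ≠ n) (v : ι → A)
    (S : Finset ι) : (∀ i ∈ S, i ≠ n ∧ i ≠ k) →
    ∃ g ∈ Subgroup.closure {g : St ι A | ∃ i l b, i ≠ n ∧ l ≠ n ∧ g = x i l b},
      ∀ i ∈ S, (((mat g : (Matrix ι ι A)ˣ) : Matrix ι ι A) *ᵥ v) i = 0 := by
  induction S using Finset.induction_on with
  | empty => exact fun _ => ⟨1, Subgroup.one_mem _, by simp⟩
  | insert i S hiS ih =>
    intro hS
    obtain ⟨g, hg, hg0⟩ := ih fun j hj => hS j (Finset.mem_insert_of_mem hj)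
    obtain ⟨hin, hik⟩ := hS i (Finset.mem_insert_self i S)
    set w := ((mat g : (Matrix ι ι A)ˣ) : Matrix ι ι A) *ᵥ v with hw
    obtain ⟨c, d, hcd⟩ := hRU (w k) (w i)
    refine ⟨x i k (-d) * (x k i c * g), Subgroup.mul_mem _ (Subgroup.subset_closure
      ⟨i, k, -d, hin, hk, rfl⟩) (Subgroup.mul_mem _ (Subgroup.subset_closure
      ⟨k, i, c, hk, hin, rfl⟩) hg), ?_⟩
    have h1 : ((mat (x i k (-d) * (x k i c * g)) : (Matrix ι ι A)ˣ) : Matrix ι ι A) *ᵥ v =
        (w + Pi.single k (c * w i)) + Pi.single i (-d * (w + Pi.single k (c * w i) : ι → A) k) := by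
      rw [map_mul, map_mul, mat_x, mat_x, Units.val_mul, Units.val_mul, ← Matrix.mulVec_mulVec,
        ← Matrix.mulVec_mulVec, ← hw, mv_tvs k i (Ne.symm hik), mv_tvs i k hik]
    intro j hj
    rw [h1]
    rcases Finset.mem_insert.1 hj with rfl | hj
    · simp only [Pi.add_apply, Pi.single_eq_same, Pi.single_eq_of_ne hik, add_zero]
      rw [neg_mul, ← hcd]
      exact add_neg_cancel _
    · have hji : j ≠ i := fun h => hiS (h ▸ hj)
      have hjk : j ≠ k := (hS j (Finset.mem_insert_of_mem hj)).2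
      simp only [Pi.add_apply, Pi.single_eq_of_ne hji, Pi.single_eq_of_ne hjk, add_zero]
      exact hg0 j hj

theorem col_reduce {A : Type} [Ring A]
    (hRU : ∀ a b : A, ∃ c d : A, b = d * (a + c * b)) (n k : ι) (hk : k ≠ n) (v : ι → A) :
    ∃ g ∈ Subgroup.closure {g : St ι A | ∃ i l b, i ≠ n ∧ l ≠ n ∧ g = x i l b},
      ∀ i, i ≠ n → i ≠ k →
        ∑ l, ((mat g : (Matrix ι ι A)ˣ) : Matrix ι ι A) i l * v l = 0 := by
  obtain ⟨g, hg, h⟩ := col_reduce_aux hRU n k hk v
    (Finset.univ.filter fun i => i ≠ n ∧ i ≠ k) (fun i hi => (Finset.mem_filter.1 hi).2)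
  refine ⟨g, hg, fun i hin hik => ?_⟩
  exact h i (Finset.mem_filter.2 ⟨Finset.mem_univ _, hin, hik⟩)

theorem conj_cv_gamma {A : Type} [Ring A] (n : ι) (g : St ι A)
    (hg : g ∈ Subgroup.closure {g : St ι A | ∃ i l b, i ≠ n ∧ l ≠ n ∧ g = x i l b}) :
    ∀ v : ι → A, g * cv x n v * g⁻¹ =
      cv x n (((mat g : (Matrix ι ι A)ˣ) : Matrix ι ι A) *ᵥ v) := by
  induction hg using Subgroup.closure_induction with
  | mem g hg =>
    obtain ⟨i, l, b, hi, hl, rfl⟩ := hg
    intro v
    by_cases hil : i = l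
    · subst hil
      rw [x_sr.diag, map_one, Units.val_one, Matrix.one_mulVec]
      group
    · rw [conj_cv i l n hil hi hl, mat_x, mv_tvs i l hil]
  | one =>
    intro v
    rw [map_one, Units.val_one, Matrix.one_mulVec]
    group
  | mul g h _ _ ihg ihh =>
    intro v
    have : g * h * cv x n v * (g * h)⁻¹ = g * (h * cv x n v * h⁻¹) * g⁻¹ := by group
    rw [this, ihh, ihg, map_mul, Units.val_mul, Matrix.mulVec_mulVec]
  | inv g _ ih =>
    intro v
    have h1 := ih (((mat g⁻¹ : (Matrix ι ι A)ˣ) : Matrix ι ι A) *ᵥ v)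
    rw [Matrix.mulVec_mulVec, ← Units.val_mul, ← map_mul, mul_inv_cancel, map_one, Units.val_one,
      Matrix.one_mulVec] at h1
    rw [← h1]
    group

theorem gamma_le_N0 {A : Type} [Ring A] (n : ι) :
    Subgroup.closure {g : St ι A | ∃ i l b, i ≠ n ∧ l ≠ n ∧ g = x i l b} ≤ N0 x n := by
  unfold N0
  refine Subgroup.closure_mono ?_
  rintro g ⟨i, l, b, hi, hl, rfl⟩
  exact Or.inl ⟨i, l, hi, hl, b, rfl⟩

theorem top_norm (h3 : 3 ≤ Fintype.card ι) {A : Type} [Ring A] (n : ι) (g : St ι A)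
    (hg : g ∈ N0 (x : ι → ι → A → St ι A) n) :
    (∀ y ∈ col x n (Set.univ : Set A), g * y * g⁻¹ ∈ col x n (Set.univ : Set A)) ∧
      (∀ y ∈ row x n (Set.univ : Set A), g * y * g⁻¹ ∈ row x n (Set.univ : Set A)) := by
  have h := N0_norm_x h3 (⊤ : Ideal A) n g hg
  have h1 : ((⊤ : Ideal A) : Set A) = Set.univ := rfl
  rw [h1] at h
  exact h

theorem x_mem_row {A : Type} [Ring A] (n i : ι) (a : A) :
    (x n i a : St ι A) ∈ row x n (Set.univ : Set A) :=
  Subgroup.subset_closure ⟨i, a, trivial, rfl⟩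

theorem x_mem_col {A : Type} [Ring A] (n i : ι) (a : A) :
    (x i n a : St ι A) ∈ col x n (Set.univ : Set A) :=
  Subgroup.subset_closure ⟨i, a, trivial, rfl⟩

theorem rv_mem_row {A : Type} [Ring A] (n : ι) (s : ι → A) :
    (rv x n s : St ι A) ∈ row x n (Set.univ : Set A) := by
  unfold rv
  refine Subgroup.list_prod_mem _ fun g hg => ?_
  obtain ⟨i, _, rfl⟩ := List.mem_map.1 hg
  exact x_mem_row n i _

/-- conjugating a row element without `k`-th entry -/
theorem conj_row_k (h3 : 3 ≤ Fintype.card ι) {A : Type} [Ring A] (n k : ι) (hk : k ≠ n)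
    (s : ι → A) (hs : s k = 0) (p : A) (l : List ι) :
    ∃ ν ∈ N0 (x : ι → ι → A → St ι A) n, ∃ r ∈ row x n (Set.univ : Set A),
      x k n p * (l.map fun i => (x n i (s i) : St ι A)).prod * (x k n p)⁻¹ = ν * r := by
  induction l with
  | nil =>
    refine ⟨1, Subgroup.one_mem _, 1, Subgroup.one_mem _, ?_⟩
    simp
  | cons i l ih =>
    obtain ⟨ν, hν, r, hr, h⟩ := ih
    have h1 : ∃ ν1 ∈ N0 (x : ι → ι → A → St ι A) n, ∃ r1 ∈ row x n (Set.univ : Set A),
        x k n p * x n i (s i) * (x k n p)⁻¹ = ν1 * r1 := by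
      by_cases hin : i = n
      · subst hin
        refine ⟨1, Subgroup.one_mem _, 1, Subgroup.one_mem _, ?_⟩
        rw [x_sr.diag]
        group
      · by_cases hik : i = k
        · subst hik
          refine ⟨1, Subgroup.one_mem _, 1, Subgroup.one_mem _, ?_⟩
          rw [hs, x_sr.zero]
          group
        · refine ⟨x k i (p * s i), ?_, x n i (s i), x_mem_row n i _, ?_⟩
          · exact Subgroup.subset_closure (Or.inl ⟨k, i, hk, hin, _, rfl⟩)
          · exact x_sr.conjL k n i hk (Ne.symm hin) (Ne.symm hik) p (s i)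
    obtain ⟨ν1, hν1, r1, hr1, h1⟩ := h1
    refine ⟨ν1 * ν, Subgroup.mul_mem _ hν1 hν, (ν⁻¹ * r1 * ν) * r, Subgroup.mul_mem _ ?_ hr, ?_⟩
    · have := (top_norm h3 n ν⁻¹ (Subgroup.inv_mem _ hν)).2 r1 hr1
      rwa [inv_inv] at this
    · rw [List.map_cons, List.prod_cons]
      have h2 : x k n p * (x n i (s i) * (l.map fun i => (x n i (s i) : St ι A)).prod) *
          (x k n p)⁻¹ = (x k n p * x n i (s i) * (x k n p)⁻¹) *
          (x k n p * (l.map fun i => (x n i (s i) : St ι A)).prod * (x k n p)⁻¹) := by group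
      rw [h2, h1, h]
      group

theorem star (h3 : 3 ≤ Fintype.card ι) {A : Type} [Ring A]
    (hRU : ∀ a b : A, ∃ c d : A, b = d * (a + c * b)) (n : ι) (s y : ι → A)
    (h : IsUnit (((mat (rv x n s * cv x n y : St ι A) : (Matrix ι ι A)ˣ) : Matrix ι ι A) n n)) :
    ∃ c ∈ col x n (Set.univ : Set A), ∃ ν ∈ N0 (x : ι → ι → A → St ι A) n,
      ∃ r ∈ row x n (Set.univ : Set A), (rv x n s * cv x n y : St ι A) = c * ν * r := by
  obtain ⟨k, hk⟩ : ∃ k, k ≠ n := by
    by_contra hcon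
    push Not at hcon
    have : Fintype.card ι ≤ 1 := Fintype.card_le_one_iff.2 fun a b => by rw [hcon a, hcon b]
    omega
  obtain ⟨g, hgΓ, hg⟩ := col_reduce hRU n k hk y
  have hgN : g ∈ N0 (x : ι → ι → A → St ι A) n := gamma_le_N0 n hgΓ
  have hgN' : g⁻¹ ∈ N0 (x : ι → ι → A → St ι A) n := Subgroup.inv_mem _ hgN
  set y' : ι → A := ((mat g : (Matrix ι ι A)ˣ) : Matrix ι ι A) *ᵥ y with hy'
  have hy0 : ∀ i, i ≠ n → i ≠ k → y' i = 0 := fun i h1 h2 => hg i h1 h2
  set p : A := y' k with hp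
  have hcv : g * cv x n y * g⁻¹ = (x k n p : St ι A) := by
    rw [conj_cv_gamma n g hgΓ y, ← hy']
    have h1 : y' = Pi.single k p + Pi.single n (y' n) := by
      funext i
      by_cases hik : i = k
      · subst hik
        simp [hp, hk]
      · by_cases hin : i = n
        · subst hin
          simp [hik]
        · simp [hik, hin, hy0 i hin hik]
    rw [h1, cv_add x_sr, cv_single x_sr, cv_single x_sr, x_sr.diag, mul_one]
  obtain ⟨s', _, hs'⟩ := (mem_row x_sr n (⊤ : AddSubgroup A) _).1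
    ((top_norm h3 n g hgN).2 _ (rv_mem_row n s))
  set a : A := s' k with ha
  have hX : g * (rv x n s * cv x n y) * g⁻¹ = (rv x n s' * x k n p : St ι A) := by
    rw [← hs', ← hcv]
    group
  -- the unit
  have hunit : IsUnit (1 + a * p) := by
    have h1 : (((mat (g * (rv x n s * cv x n y) * g⁻¹) : (Matrix ι ι A)ˣ) : Matrix ι ι A) n n) =
        ((mat g : (Matrix ι ι A)ˣ) : Matrix ι ι A) n n *
        (((mat (rv x n s * cv x n y : St ι A) : (Matrix ι ι A)ˣ) : Matrix ι ι A) n n) *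
        ((mat g⁻¹ : (Matrix ι ι A)ˣ) : Matrix ι ι A) n n := by
      rw [map_mul, map_mul (mat : St ι A →* (Matrix ι ι A)ˣ) g, Units.val_mul, Units.val_mul,
        Matrix.mul_apply, Finset.sum_eq_single n]
      · rw [Matrix.mul_apply, Finset.sum_eq_single n]
        · intro b _ hb
          rw [((mat_N0 n g hgN).1 b hb).2, zero_mul]
        · intro hn
          exact absurd (Finset.mem_univ _) hn
      · intro b _ hb
        rw [((mat_N0 n g⁻¹ hgN').1 b hb).1, mul_zero]
      · intro hn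
        exact absurd (Finset.mem_univ _) hn
    have h2 : IsUnit (((mat (g * (rv x n s * cv x n y) * g⁻¹) : (Matrix ι ι A)ˣ) :
        Matrix ι ι A) n n) := by
      rw [h1]
      exact ((mat_N0 n g hgN).2.mul h).mul (mat_N0 n g⁻¹ hgN').2
    rw [hX] at h2
    have h3' : (((mat (rv x n s' * x k n p : St ι A) : (Matrix ι ι A)ˣ) : Matrix ι ι A) n n) =
        1 + a * p := by
      rw [map_mul, Units.val_mul, mat_rv, mat_x, tvs_val k n hk, Matrix.mul_add, Matrix.mul_one,
        Matrix.add_apply, Matrix.add_apply]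
      have h5 : (Matrix.of fun a b => if a = n ∧ b ≠ n then s' b else 0) n n = 0 := by simp
      have h6 : ((1 + Matrix.of fun a b => if a = n ∧ b ≠ n then s' b else 0) *
          Matrix.single k n p : Matrix ι ι A) n n = a * p := by
        rw [Matrix.mul_apply, Finset.sum_eq_single k]
        · rw [Matrix.single_apply_same, Matrix.add_apply, Matrix.one_apply_ne (Ne.symm hk)]
          simp [hk, ha]
        · intro b _ hb
          simp [Matrix.single_apply, Ne.symm hb]
        · intro hn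
          exact absurd (Finset.mem_univ _) hn
      rw [h5, h6, Matrix.one_apply_eq, add_zero]
    rw [h3'] at h2
    exact h2
  obtain ⟨u, hu⟩ := hunit
  -- split off the k-th entry
  have hsplit : (rv x n s' : St ι A) = x n k a * rv x n (Function.update s' k 0) := by
    have h1 : s' = Pi.single k a + Function.update s' k 0 := by
      funext i
      by_cases hik : i = k
      · subst hik
        simp [ha]
      · simp [hik]
    conv_lhs => rw [h1]
    rw [rv_add x_sr, rv_single x_sr]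
  obtain ⟨ν1, hν1, r1, hr1, h1⟩ := conj_row_k h3 n k hk (Function.update s' k 0) (by simp) (-p)
    (Finset.univ : Finset ι).toList
  have h1' : x k n (-p) * rv x n (Function.update s' k 0) * (x k n (-p) : St ι A)⁻¹ = ν1 * r1 := h1
  have hhmem : hh x n k a p u ∈ N0 (x : ι → ι → A → St ι A) n :=
    Subgroup.subset_closure (Or.inr ⟨k, hk, a, p, u, hu, Or.inr rfl⟩)
  have hhh : (x n k a * x k n p : St ι A) =
      x k n (p * ((u⁻¹ : Aˣ) : A)) * hh x n k a p u * x n k (((u⁻¹ : Aˣ) : A) * a) := by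
    unfold hh
    rw [x_sr.neg k n, x_sr.neg n k]
    group
  have hXf : (rv x n s' * x k n p : St ι A) = x k n (p * ((u⁻¹ : Aˣ) : A)) *
      (hh x n k a p u * ν1) * ((ν1⁻¹ * x n k (((u⁻¹ : Aˣ) : A) * a) * ν1) * r1) := by
    have h4 : (rv x n s' * x k n p : St ι A) = (x n k a * x k n p) *
        (x k n (-p) * rv x n (Function.update s' k 0) * (x k n (-p) : St ι A)⁻¹) := by
      rw [hsplit, x_sr.neg k n]
      group
    rw [h4, h1', hhh]
    group
  have hr2 : ν1⁻¹ * x n k (((u⁻¹ : Aˣ) : A) * a) * ν1 ∈ row x n (Set.univ : Set A) := by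
    have := (top_norm h3 n ν1⁻¹ (Subgroup.inv_mem _ hν1)).2 _
      (x_mem_row n k (((u⁻¹ : Aˣ) : A) * a))
    rwa [inv_inv] at this
  have hcol := (top_norm h3 n g⁻¹ hgN').1 _ (x_mem_col n k (p * ((u⁻¹ : Aˣ) : A)))
  have hrow := (top_norm h3 n g⁻¹ hgN').2 _ (Subgroup.mul_mem _ hr2 hr1)
  rw [inv_inv] at hcol hrow
  refine ⟨_, hcol, g⁻¹ * (hh x n k a p u * ν1) * g, Subgroup.mul_mem _
    (Subgroup.mul_mem _ hgN' (Subgroup.mul_mem _ hhmem hν1)) hgN, _, hrow, ?_⟩
  have h5 : (rv x n s * cv x n y : St ι A) = g⁻¹ * (g * (rv x n s * cv x n y) * g⁻¹) * g := by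
    group
  rw [h5, hX, hXf]
  group

end statements

end Pool.Agent.Helper58.K2
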