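import Pool.Agent.Helper58.K2.Defs
import Pool.Agent.Helper58.K2.JMN
import Pool.Agent.Helper58.K2.JNN
import Pool.Agent.Helper58.K2.JST
import Pool.Agent.Helper58.K2.JV
import Pool.Agent.Helper58.K2.JV2

set_option autoImplicit false

namespace Pool.Agent.Helper58.K2

open Matrix Pool.Agent.Helper58.EN

section statements
variable {ι : Type} [Fintype ι] [DecidableEq ι]

/-- the `(n, n)` entry is a unit -/
def BU {A : Type} [Ring A] (n : ι) (g : St ι A) : Prop :=
  IsUnit (((mat g : (Matrix ι ι A)ˣ) : Matrix ι ι A) n n)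

/-- membership in the big cell -/
def BC {A : Type} [Ring A] (n : ι) (g : St ι A) : Prop :=
  ∃ c ∈ col x n (Set.univ : Set A), ∃ ν ∈ N0 (x : ι → ι → A → St ι A) n,
    ∃ r ∈ row x n (Set.univ : Set A), g = c * ν * r

/-- the inductive property -/
def BP {A : Type} [Ring A] (n : ι) (g : St ι A) : Prop :=
  ∀ s : ι → A, BU n (rv x n s * g) → BC n (rv x n s * g)

theorem bc_col_norm (h3 : 3 ≤ Fintype.card ι) {A : Type} [Ring A] (n : ι) {ν c : St ι A}
    (hν : ν ∈ N0 (x : ι → ι → A → St ι A) n) (hc : c ∈ col x n (Set.univ : Set A)) :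
    ν * c * ν⁻¹ ∈ col x n (Set.univ : Set A) := by
  have h1 := (N0_norm_x h3 (⊤ : Ideal A) n ν hν).1
  rw [Submodule.top_coe] at h1
  exact h1 c hc

theorem bc_row_norm (h3 : 3 ≤ Fintype.card ι) {A : Type} [Ring A] (n : ι) {ν c : St ι A}
    (hν : ν ∈ N0 (x : ι → ι → A → St ι A) n) (hc : c ∈ row x n (Set.univ : Set A)) :
    ν * c * ν⁻¹ ∈ row x n (Set.univ : Set A) := by
  have h1 := (N0_norm_x h3 (⊤ : Ideal A) n ν hν).2
  rw [Submodule.top_coe] at h1
  exact h1 c hc

theorem bc_col_mul {A : Type} [Ring A] {n : ι} {c g : St ι A}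
    (hc : c ∈ col x n (Set.univ : Set A)) (hg : BC n g) : BC n (c * g) := by
  obtain ⟨c', hc', ν, hν, r, hr, rfl⟩ := hg
  exact ⟨c * c', mul_mem hc hc', ν, hν, r, hr, by simp only [mul_assoc]⟩

theorem bc_N0_mul (h3 : 3 ≤ Fintype.card ι) {A : Type} [Ring A] {n : ι} {μ g : St ι A}
    (hμ : μ ∈ N0 (x : ι → ι → A → St ι A) n) (hg : BC n g) : BC n (μ * g) := by
  obtain ⟨c, hc, ν, hν, r, hr, rfl⟩ := hg
  refine ⟨μ * c * μ⁻¹, bc_col_norm h3 n hμ hc, μ * ν, mul_mem hμ hν, r, hr, ?_⟩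
  group

theorem bc_mul_N0_row (h3 : 3 ≤ Fintype.card ι) {A : Type} [Ring A] {n : ι} {μ r' g : St ι A}
    (hμ : μ ∈ N0 (x : ι → ι → A → St ι A) n) (hr' : r' ∈ row x n (Set.univ : Set A))
    (hg : BC n g) : BC n (g * (μ * r')) := by
  obtain ⟨c, hc, ν, hν, r, hr, rfl⟩ := hg
  have h1 := bc_row_norm h3 n (inv_mem hμ) hr
  rw [inv_inv] at h1
  refine ⟨c, hc, ν * μ, mul_mem hν hμ, μ⁻¹ * r * μ * r', mul_mem h1 hr', ?_⟩
  group

theorem bc_mem_col {A : Type} [Ring A] (n : ι) {c : St ι A}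
    (hc : c ∈ col x n (Set.univ : Set A)) : ∃ y : ι → A, c = cv x n y := by
  have h1 := (mem_col (X := (x : ι → ι → A → St ι A)) x_sr n (⊤ : AddSubgroup A) c).1 (by
    rw [AddSubgroup.coe_top]; exact hc)
  obtain ⟨y, _, hy⟩ := h1
  exact ⟨y, hy⟩

theorem bc_cv_mem {A : Type} [Ring A] (n : ι) (y : ι → A) :
    (cv x n y : St ι A) ∈ col x n (Set.univ : Set A) := by
  have h1 := (mem_col (X := (x : ι → ι → A → St ι A)) x_sr n (⊤ : AddSubgroup A) (cv x n y)).2
    ⟨y, fun _ => AddSubgroup.mem_top _, rfl⟩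
  rwa [AddSubgroup.coe_top] at h1

theorem bc_mem_row {A : Type} [Ring A] (n : ι) {c : St ι A}
    (hc : c ∈ row x n (Set.univ : Set A)) : ∃ y : ι → A, c = rv x n y := by
  have h1 := (mem_row (X := (x : ι → ι → A → St ι A)) x_sr n (⊤ : AddSubgroup A) c).1 (by
    rw [AddSubgroup.coe_top]; exact hc)
  obtain ⟨y, _, hy⟩ := h1
  exact ⟨y, hy⟩

theorem bc_rv_mem {A : Type} [Ring A] (n : ι) (y : ι → A) :
    (rv x n y : St ι A) ∈ row x n (Set.univ : Set A) := by
  have h1 := (mem_row (X := (x : ι → ι → A → St ι A)) x_sr n (⊤ : AddSubgroup A) (rv x n y)).2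
    ⟨y, fun _ => AddSubgroup.mem_top _, rfl⟩
  rwa [AddSubgroup.coe_top] at h1

theorem bc_rv_zero {A : Type} [Ring A] (n : ι) : (rv x n 0 : St ι A) = 1 := by
  have h := rv_single (X := (x : ι → ι → A → St ι A)) x_sr n n 0
  rw [Pi.single_zero, x_sr.diag] at h
  exact h

theorem bc_cv_zero {A : Type} [Ring A] (n : ι) : (cv x n 0 : St ι A) = 1 := by
  have h := cv_single (X := (x : ι → ι → A → St ι A)) x_sr n n 0
  rw [Pi.single_zero, x_sr.diag] at h
  exact h

/-- entries of products with an element of `N0` on the left -/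
theorem bu_N0_mul {A : Type} [Ring A] {n : ι} {μ g : St ι A}
    (hμ : μ ∈ N0 (x : ι → ι → A → St ι A) n) : BU n (μ * g) ↔ BU n g := by
  obtain ⟨h1, u, hu⟩ := mat_N0 n μ hμ
  have e : ((mat (μ * g) : (Matrix ι ι A)ˣ) : Matrix ι ι A) n n =
      (u : A) * ((mat g : (Matrix ι ι A)ˣ) : Matrix ι ι A) n n := by
    rw [map_mul, Units.val_mul, Matrix.mul_apply, Finset.sum_eq_single n]
    · rw [hu]
    · intro b _ hb
      rw [(h1 b hb).2, zero_mul]
    · intro h; exact absurd (Finset.mem_univ n) h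
  unfold BU
  rw [e]
  exact Units.isUnit_units_mul u _

theorem bc_S2 (h3 : 3 ≤ Fintype.card ι) {A : Type} [Ring A]
    (hRU : ∀ a b : A, ∃ c d : A, b = d * (a + c * b)) (n : ι) (s : ι → A) {g : St ι A}
    (hg : BC n g) (hU : BU n (rv x n s * g)) : BC n (rv x n s * g) := by
  obtain ⟨c, hc, ν, hν, r, hr, rfl⟩ := hg
  obtain ⟨y, rfl⟩ := bc_mem_col n hc
  obtain ⟨w, hw⟩ := bc_mem_row n hr
  obtain ⟨h1, u, hu⟩ := mat_N0 n ν hν
  have hR : ∀ b, ((mat r : (Matrix ι ι A)ˣ) : Matrix ι ι A) b n = if b = n then 1 else 0 := by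
    intro b
    rw [hw, mat_rv, Matrix.add_apply, Matrix.of_apply, if_neg (by rintro ⟨_, h⟩; exact h rfl),
      add_zero, Matrix.one_apply]
  have e1 : ((mat (rv x n s * (cv x n y * ν * r)) : (Matrix ι ι A)ˣ) : Matrix ι ι A) n n =
      ((mat (rv x n s * cv x n y : St ι A) : (Matrix ι ι A)ˣ) : Matrix ι ι A) n n * (u : A) := by
    have e2 : (rv x n s * (cv x n y * ν * r) : St ι A) = (rv x n s * cv x n y) * ν * r := by
      simp only [mul_assoc]
    rw [e2, map_mul, Units.val_mul, Matrix.mul_apply, Finset.sum_eq_single n]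
    · rw [hR, if_pos rfl, mul_one, map_mul, Units.val_mul, Matrix.mul_apply,
        Finset.sum_eq_single n]
      · rw [hu]
      · intro b _ hb
        rw [(h1 b hb).1, mul_zero]
      · intro h; exact absurd (Finset.mem_univ n) h
    · intro b _ hb
      rw [hR, if_neg hb, mul_zero]
    · intro h; exact absurd (Finset.mem_univ n) h
  unfold BU at hU
  rw [e1, Units.isUnit_mul_units] at hU
  have h2 : BC n (rv x n s * cv x n y : St ι A) := star h3 hRU n s y hU
  have h4 := bc_mul_N0_row h3 hν hr h2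
  have e3 : (rv x n s * (cv x n y * ν * r) : St ι A) = rv x n s * cv x n y * (ν * r) := by
    simp only [mul_assoc]
  rw [e3]
  exact h4

theorem bp_one {A : Type} [Ring A] (n : ι) : BP n (1 : St ι A) := by
  intro s _
  rw [mul_one]
  exact ⟨1, one_mem _, 1, one_mem _, rv x n s, bc_rv_mem n s, by simp⟩

theorem bp_row {A : Type} [Ring A] (n k : ι) (a : A) {g : St ι A} (hg : BP n g) :
    BP n (x n k a * g) := by
  intro s hs
  have e : (rv x n s * (x n k a * g) : St ι A) = rv x n (s + Pi.single k a) * g := by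
    rw [rv_add x_sr, rv_single x_sr, mul_assoc]
  rw [e] at hs ⊢
  exact hg _ hs

theorem bp_N0 (h3 : 3 ≤ Fintype.card ι) {A : Type} [Ring A] {n : ι} {μ g : St ι A}
    (hμ : μ ∈ N0 (x : ι → ι → A → St ι A) n) (hg : BP n g) : BP n (μ * g) := by
  intro s hs
  have h1 := bc_row_norm h3 n (inv_mem hμ) (bc_rv_mem n s)
  rw [inv_inv] at h1
  obtain ⟨s', hs'⟩ := bc_mem_row n h1
  have e : (rv x n s * (μ * g) : St ι A) = μ * (rv x n s' * g) := by
    rw [← hs']
    group
  rw [e] at hs ⊢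
  exact bc_N0_mul h3 hμ (hg s' ((bu_N0_mul hμ).1 hs))

theorem bp_S6 (h3 : 3 ≤ Fintype.card ι) {A : Type} [Ring A]
    (hRU : ∀ a b : A, ∃ c d : A, b = d * (a + c * b)) (n : ι) (s0 : ι → A) {g : St ι A}
    (hg : BC n (rv x n s0 * g)) : BP n g := by
  intro s hs
  have e : (rv x n s * g : St ι A) = rv x n (s - s0) * (rv x n s0 * g) := by
    rw [← mul_assoc, ← rv_add x_sr, sub_add_cancel]
  rw [e] at hs ⊢
  exact bc_S2 h3 hRU n _ hg hs

/-- the elements of the subgroup of the block diagonal part that we use -/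
theorem bc_x_mem {A : Type} [Ring A] {n k l : ι} (hk : k ≠ n) (hl : l ≠ n) (b : A) :
    (x k l b : St ι A) ∈ N0 (x : ι → ι → A → St ι A) n :=
  Subgroup.subset_closure (Or.inl ⟨k, l, hk, hl, b, rfl⟩)

theorem bc_conj_ex {A : Type} [Ring A] {n k : ι} (hk : k ≠ n) (z : A) (s : ι → A)
    (hs : s k = 0) :
    ∃ ν ∈ Subgroup.closure {g : St ι A | ∃ l b, l ≠ n ∧ l ≠ k ∧ g = x k l b},
      (rv x n s * x k n z : St ι A) = x k n z * ν * rv x n s := by
  have hcomm : ∀ w : ι → A, w k = 0 →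
      ∀ ν ∈ Subgroup.closure {g : St ι A | ∃ l b, l ≠ n ∧ l ≠ k ∧ g = x k l b},
        ν * rv x n w = rv x n w * ν := by
    intro w hw ν hν
    induction hν using Subgroup.closure_induction with
    | mem y hy =>
      obtain ⟨l, b, hln, hlk, rfl⟩ := hy
      have h1 := conj_rv k l n hlk.symm hk hln b w
      rw [hw, zero_mul, Pi.single_zero, sub_zero] at h1
      exact mul_inv_eq_iff_eq_mul.1 h1
    | one => rw [one_mul, mul_one]
    | mul a b _ _ ha hb => rw [mul_assoc, hb, ← mul_assoc, ha, mul_assoc]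
    | inv a _ ha =>
      rw [inv_mul_eq_iff_eq_mul, ← mul_assoc, ha, mul_assoc, mul_inv_cancel, mul_one]
  have key : s k = 0 ∧ ∃ ν ∈ Subgroup.closure {g : St ι A | ∃ l b, l ≠ n ∧ l ≠ k ∧ g = x k l b},
      (rv x n s * x k n z : St ι A) = x k n z * ν * rv x n s := by
    rw [← Finset.univ_sum_single s]
    apply Finset.sum_induction (fun i => Pi.single i (s i)) (fun w : ι → A => w k = 0 ∧
      ∃ ν ∈ Subgroup.closure {g : St ι A | ∃ l b, l ≠ n ∧ l ≠ k ∧ g = x k l b},
      (rv x n w * x k n z : St ι A) = x k n z * ν * rv x n w)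
    · rintro a b ⟨ha, ν, hν, hea⟩ ⟨hb, ν', hν', heb⟩
      refine ⟨by rw [Pi.add_apply, ha, hb, add_zero], ν * ν', mul_mem hν hν', ?_⟩
      have h1 := hcomm a ha ν' hν'
      rw [rv_add x_sr, mul_assoc, heb]
      calc (rv x n a * (x k n z * ν' * rv x n b) : St ι A)
          = (rv x n a * x k n z) * ν' * rv x n b := by simp only [mul_assoc]
        _ = x k n z * ν * (rv x n a * ν') * rv x n b := by rw [hea]; simp only [mul_assoc]
        _ = x k n z * (ν * ν') * (rv x n a * rv x n b) := by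
            rw [← h1]; simp only [mul_assoc]
    · refine ⟨rfl, 1, one_mem _, ?_⟩
      rw [bc_rv_zero]; simp
    · intro i _
      by_cases hik : i = k
      · subst hik
        rw [hs, Pi.single_zero]
        refine ⟨rfl, 1, one_mem _, ?_⟩
        rw [bc_rv_zero]; simp
      · refine ⟨Pi.single_eq_of_ne (Ne.symm hik) _, ?_⟩
        rw [rv_single x_sr]
        by_cases hin : i = n
        · subst hin
          refine ⟨1, one_mem _, ?_⟩
          rw [x_sr.diag]; simp
        · refine ⟨x k i (-z * s i), Subgroup.subset_closure ⟨i, _, hin, hik, rfl⟩, ?_⟩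
          have h1 := (x_sr (ι := ι) (A := A)).conjL k n i hk (Ne.symm hin) (Ne.symm hik) (-z) (s i)
          rw [x_sr.neg, inv_inv] at h1
          have h2 : (x k n z : St ι A) * ((x k n z)⁻¹ * x n i (s i) * x k n z) =
              x k n z * (x k i (-z * s i) * x n i (s i)) := by rw [h1]
          rw [← mul_assoc, ← mul_assoc, mul_inv_cancel, one_mul, ← mul_assoc] at h2
          exact h2
  exact key.2

theorem bc_closure_le {A : Type} [Ring A] {n k : ι} (hk : k ≠ n) :
    Subgroup.closure {g : St ι A | ∃ l b, l ≠ n ∧ l ≠ k ∧ g = x k l b} ≤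
      N0 (x : ι → ι → A → St ι A) n := by
  rw [Subgroup.closure_le]
  rintro g ⟨l, b, hl, _, rfl⟩
  exact bc_x_mem hk hl b

theorem bp_S7 (h3 : 3 ≤ Fintype.card ι) {A : Type} [Ring A]
    (hRU : ∀ a b : A, ∃ c d : A, b = d * (a + c * b)) {n k : ι} (hk : k ≠ n) (z : A)
    (s0 : ι → A) (hs : s0 k = 0) {g : St ι A} (hg : BP n g) (hU : BU n (rv x n s0 * g)) :
    BP n (x k n z * g) := by
  obtain ⟨ν, hν, hE⟩ := bc_conj_ex hk z s0 hs
  apply bp_S6 h3 hRU n s0
  have e : (rv x n s0 * (x k n z * g) : St ι A) = x k n z * (ν * (rv x n s0 * g)) := by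
    rw [← mul_assoc, hE]
    simp only [mul_assoc]
  rw [e]
  apply bc_col_mul
  · have := bc_cv_mem (A := A) n (Pi.single k z)
    rwa [cv_single x_sr] at this
  · exact bc_N0_mul h3 (bc_closure_le hk hν) (hg s0 hU)

/-- matrix entries of `x i j a * g` -/
theorem mat_x_entry {A : Type} [Ring A] {i j : ι} (hij : i ≠ j) (a : A) (g : St ι A) (r c : ι) :
    ((mat (x i j a * g) : (Matrix ι ι A)ˣ) : Matrix ι ι A) r c =
      ((mat g : (Matrix ι ι A)ˣ) : Matrix ι ι A) r c +
        (if r = i then a * ((mat g : (Matrix ι ι A)ˣ) : Matrix ι ι A) j c else 0) := by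
  rw [map_mul, mat_x, Units.val_mul, tvs_val i j hij, add_mul, one_mul, Matrix.add_apply]
  congr 1
  rw [Matrix.mul_apply]
  by_cases hr : r = i
  · rw [if_pos hr, Finset.sum_eq_single j]
    · rw [hr, Matrix.single_apply_same]
    · intro b _ hb
      rw [Matrix.single_apply, if_neg (by rintro ⟨_, h⟩; exact hb h.symm), zero_mul]
    · intro h; exact absurd (Finset.mem_univ j) h
  · rw [if_neg hr]
    apply Finset.sum_eq_zero
    intro b _
    rw [Matrix.single_apply, if_neg (by rintro ⟨h, _⟩; exact hr h.symm), zero_mul]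

theorem bu_single {A : Type} [Ring A] {n k : ι} (hk : k ≠ n) (t : A) (g : St ι A) :
    BU n (rv x n (Pi.single k t) * g) ↔
      IsUnit (((mat g : (Matrix ι ι A)ˣ) : Matrix ι ι A) n n +
        t * ((mat g : (Matrix ι ι A)ˣ) : Matrix ι ι A) k n) := by
  unfold BU
  rw [rv_single x_sr, mat_x_entry (Ne.symm hk), if_pos rfl]

theorem bu_exists {A : Type} [Ring A]
    (hRU : ∀ a b : A, ∃ c d : A, b = d * (a + c * b)) (hDF : ∀ a b : A, a * b = 1 → b * a = 1)
    (e p q1 q2 : A) (h : q1 * p + q2 * e = 1) : ∃ t, IsUnit (e + t * p) := by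
  obtain ⟨c, d, hcd⟩ := hRU e p
  refine ⟨c, ?_⟩
  set ξ := e + c * p with hξ
  have he : e = (1 - c * d) * ξ := by
    rw [sub_mul, one_mul, mul_assoc, ← hcd, hξ]
    abel
  have h1 : (q1 * d + q2 * (1 - c * d)) * ξ = 1 := by
    rw [add_mul, mul_assoc, mul_assoc, ← hcd, ← he]
    exact h
  exact ⟨⟨ξ, q1 * d + q2 * (1 - c * d), hDF _ _ h1, h1⟩, rfl⟩

/-- the column part, when the first column has at most two nonzero entries -/
theorem bp_col_main (h3 : 3 ≤ Fintype.card ι) {A : Type} [Ring A]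
    (hRU : ∀ a b : A, ∃ c d : A, b = d * (a + c * b)) (hDF : ∀ a b : A, a * b = 1 → b * a = 1)
    {n k : ι} (hk : k ≠ n) {g : St ι A} (hg : BP n g)
    (h0 : ∀ i, i ≠ n → i ≠ k → ((mat g : (Matrix ι ι A)ˣ) : Matrix ι ι A) i n = 0)
    (y : ι → A) : BP n (cv x n y * g) := by
  set M : Matrix ι ι A := ((mat g : (Matrix ι ι A)ˣ) : Matrix ι ι A) with hM
  obtain ⟨l, hl⟩ : ∃ l : ι, l ∉ ({k, n} : Finset ι) := by
    by_contra hcon
    push Not at hcon
    have h1 : (Finset.univ : Finset ι) ⊆ {k, n} := fun i _ => hcon i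
    have h2 := Finset.card_le_card h1
    rw [Finset.card_univ, Finset.card_pair hk] at h2
    omega
  rw [Finset.mem_insert, Finset.mem_singleton, not_or] at hl
  obtain ⟨hlk, hln⟩ := hl
  -- unimodularity
  have huni : ∃ q1 q2 : A, q1 * M k n + q2 * M n n = 1 := by
    have h1 : ((((mat g)⁻¹ : (Matrix ι ι A)ˣ) : Matrix ι ι A) * M) n n = 1 := by
      rw [hM, Units.inv_mul, Matrix.one_apply_eq]
    rw [Matrix.mul_apply] at h1
    have h2 : ∑ j, (((mat g)⁻¹ : (Matrix ι ι A)ˣ) : Matrix ι ι A) n j * M j n =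
        ∑ j ∈ ({k, n} : Finset ι), (((mat g)⁻¹ : (Matrix ι ι A)ˣ) : Matrix ι ι A) n j * M j n := by
      symm
      apply Finset.sum_subset (Finset.subset_univ _)
      intro j _ hj
      rw [Finset.mem_insert, Finset.mem_singleton, not_or] at hj
      rw [h0 j hj.2 hj.1, mul_zero]
    rw [h2, Finset.sum_pair hk] at h1
    exact ⟨_, _, h1⟩
  obtain ⟨q1, q2, hq⟩ := huni
  set e := M n n with he
  set p := M k n with hp
  set z := y k with hz
  obtain ⟨t, ht⟩ := bu_exists hRU hDF e p q1 q2 hq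
  obtain ⟨t', ht'⟩ := bu_exists hRU hDF e (p + z * e) q1 (q2 - q1 * z) (by
    rw [← hq]; noncomm_ring)
  -- step 1
  set g1 : St ι A := x l n (-1) * g with hg1
  have P1 : BP n g1 := by
    refine bp_S7 h3 hRU hln (-1) (Pi.single k t) (Pi.single_eq_of_ne hlk _) hg ?_
    rw [bu_single hk]
    exact ht
  have c1 : ∀ r, ((mat g1 : (Matrix ι ι A)ˣ) : Matrix ι ι A) r n =
      M r n + (if r = l then (-1) * e else 0) := fun r => mat_x_entry hln (-1) g r n
  set g2 : St ι A := x k l (-z) * g1 with hg2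
  have P2 : BP n g2 := bp_N0 h3 (bc_x_mem hk hln _) P1
  have c2 : ∀ r, ((mat g2 : (Matrix ι ι A)ˣ) : Matrix ι ι A) r n =
      ((mat g1 : (Matrix ι ι A)ˣ) : Matrix ι ι A) r n +
        (if r = k then (-z) * ((mat g1 : (Matrix ι ι A)ˣ) : Matrix ι ι A) l n else 0) :=
    fun r => mat_x_entry (Ne.symm hlk) (-z) g1 r n
  have c1l : ((mat g1 : (Matrix ι ι A)ˣ) : Matrix ι ι A) l n = -e := by
    rw [c1, h0 l hln hlk, if_pos rfl]
    simp
  have c2n : ((mat g2 : (Matrix ι ι A)ˣ) : Matrix ι ι A) n n = e := by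
    rw [c2, if_neg (Ne.symm hk), c1, if_neg (Ne.symm hln), add_zero, add_zero]
  have c2k : ((mat g2 : (Matrix ι ι A)ˣ) : Matrix ι ι A) k n = p + z * e := by
    rw [c2, if_pos rfl, c1l, c1, if_neg (Ne.symm hlk), add_zero]
    noncomm_ring
  set g3 : St ι A := x l n 1 * g2 with hg3
  have P3 : BP n g3 := by
    refine bp_S7 h3 hRU hln 1 (Pi.single k t') (Pi.single_eq_of_ne hlk _) P2 ?_
    rw [bu_single hk, c2n, c2k]
    exact ht'
  set g4 : St ι A := x k l z * g3 with hg4
  have P4 : BP n g4 := bp_N0 h3 (bc_x_mem hk hln _) P3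
  have e4 : g4 = x k n z * g := by
    have h1 := (x_sr (ι := ι) (A := A)).comm k l n (Ne.symm hlk) hln hk z 1
    rw [mul_one] at h1
    rw [← h1, hg4, hg3, hg2, hg1, x_sr.neg, x_sr.neg]
    simp only [mul_assoc]
  have U4 : BU n (rv x n (Pi.single k t') * g4) := by
    rw [bu_single hk, e4, mat_x_entry hk, mat_x_entry hk, if_neg (Ne.symm hk), if_pos rfl,
      add_zero]
    exact ht'
  -- step 2
  have key : ∀ h : St ι A, BP n h ∧ BU n (rv x n (Pi.single k t') * h) →
      BP n (cv x n (y - Pi.single k z) * h) ∧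
        BU n (rv x n (Pi.single k t') * (cv x n (y - Pi.single k z) * h)) := by
    have hw : (y - Pi.single k z : ι → A) k = 0 := by
      rw [Pi.sub_apply, Pi.single_eq_same, hz, sub_self]
    generalize (y - Pi.single k z : ι → A) = w at hw ⊢
    rw [← Finset.univ_sum_single w]
    apply Finset.sum_induction (fun i => Pi.single i (w i)) (fun w : ι → A =>
      ∀ h : St ι A, BP n h ∧ BU n (rv x n (Pi.single k t') * h) →
      BP n (cv x n w * h) ∧ BU n (rv x n (Pi.single k t') * (cv x n w * h)))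
    · intro a b ha hb h hh
      rw [cv_add x_sr, mul_assoc]
      exact ha _ (hb _ hh)
    · intro h hh
      rw [bc_cv_zero, one_mul]
      exact hh
    · intro i _ h hh
      by_cases hik : i = k
      · subst hik
        rw [hw, Pi.single_zero, bc_cv_zero, one_mul]
        exact hh
      · rw [cv_single x_sr]
        by_cases hin : i = n
        · subst hin
          rw [x_sr.diag, one_mul]
          exact hh
        · refine ⟨bp_S7 h3 hRU hin (w i) (Pi.single k t') (Pi.single_eq_of_ne hik _) hh.1 hh.2, ?_⟩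
          have h5 := hh.2
          rw [bu_single hk] at h5 ⊢
          rw [mat_x_entry hin, mat_x_entry hin, if_neg (Ne.symm hin), if_neg (Ne.symm hik),
            add_zero, add_zero]
          exact h5
  have h6 := (key g4 ⟨P4, U4⟩).1
  have e7 : (cv x n y * g : St ι A) = cv x n (y - Pi.single k z) * g4 := by
    rw [e4, ← mul_assoc, ← cv_single (X := (x : ι → ι → A → St ι A)) x_sr k n z, ← cv_add x_sr,
      sub_add_cancel]
  rw [e7]
  exact h6

theorem bp_col (h3 : 3 ≤ Fintype.card ι) {A : Type} [Ring A]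
    (hRU : ∀ a b : A, ∃ c d : A, b = d * (a + c * b)) (hDF : ∀ a b : A, a * b = 1 → b * a = 1)
    {n : ι} {g c : St ι A} (hg : BP n g) (hc : c ∈ col x n (Set.univ : Set A)) :
    BP n (c * g) := by
  obtain ⟨k, hk⟩ : ∃ k : ι, k ≠ n := by
    by_contra hcon
    push Not at hcon
    have h1 : (Finset.univ : Finset ι) ⊆ {n} := fun i _ => Finset.mem_singleton.2 (hcon i)
    have h2 := Finset.card_le_card h1
    rw [Finset.card_univ, Finset.card_singleton] at h2
    omega
  obtain ⟨a, ha, hz⟩ := col_reduce hRU n k hk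
    (fun l => ((mat g : (Matrix ι ι A)ˣ) : Matrix ι ι A) l n)
  have haN : a ∈ N0 (x : ι → ι → A → St ι A) n := by
    have hle : Subgroup.closure {g : St ι A | ∃ i l b, i ≠ n ∧ l ≠ n ∧ g = x i l b} ≤
        N0 (x : ι → ι → A → St ι A) n := by
      rw [Subgroup.closure_le]
      rintro g ⟨i, l, b, hi, hl, rfl⟩
      exact bc_x_mem hi hl b
    exact hle ha
  have h1 := bc_col_norm h3 n haN hc
  obtain ⟨y, hy⟩ := bc_mem_col n h1
  have h2 : BP n (a * g) := bp_N0 h3 haN hg
  have h4 : ∀ i, i ≠ n → i ≠ k → ((mat (a * g) : (Matrix ι ι A)ˣ) : Matrix ι ι A) i n = 0 := by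
    intro i hi hik
    rw [map_mul, Units.val_mul, Matrix.mul_apply]
    exact hz i hi hik
  have h5 := bp_col_main h3 hRU hDF hk h2 h4 y
  rw [← hy] at h5
  have h6 := bp_N0 h3 (inv_mem haN) h5
  have e : (a⁻¹ * (a * c * a⁻¹ * (a * g)) : St ι A) = c * g := by group
  rw [e] at h6
  exact h6

theorem bp_all (h3 : 3 ≤ Fintype.card ι) {A : Type} [Ring A]
    (hRU : ∀ a b : A, ∃ c d : A, b = d * (a + c * b)) (hDF : ∀ a b : A, a * b = 1 → b * a = 1)
    (n : ι) (g : St ι A) : BP n g := by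
  induction g using St_induction with
  | h1 => exact bp_one n
  | hx i j a g ih =>
    by_cases hi : i = n
    · subst hi
      exact bp_row i j a ih
    · by_cases hj : j = n
      · subst hj
        apply bp_col h3 hRU hDF ih
        have := bc_cv_mem (A := A) j (Pi.single i a)
        rwa [cv_single x_sr] at this
      · exact bp_N0 h3 (bc_x_mem hi hj a) ih

theorem big_cell (h3 : 3 ≤ Fintype.card ι) {A : Type} [Ring A]
    (hRU : ∀ a b : A, ∃ c d : A, b = d * (a + c * b)) (hDF : ∀ a b : A, a * b = 1 → b * a = 1)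
    (n : ι) (g : St ι A)
    (h : IsUnit (((mat g : (Matrix ι ι A)ˣ) : Matrix ι ι A) n n)) :
    ∃ c ∈ col x n (Set.univ : Set A), ∃ ν ∈ N0 (x : ι → ι → A → St ι A) n,
      ∃ r ∈ row x n (Set.univ : Set A), g = c * ν * r := by
  have h1 := bp_all h3 hRU hDF n g 0
  rw [bc_rv_zero, one_mul] at h1
  exact h1 h

end statements

end Pool.Agent.Helper58.K2
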