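import Pool.Agent.Helper58.K2.Defs

set_option autoImplicit false

namespace Pool.Agent.Helper58.K2

open Matrix Pool.Agent.Helper58.EN

section statements
variable {ι : Type} [Fintype ι] [DecidableEq ι]

theorem cXR {B A : Type} [Ring B] [NonUnitalRing A] (lm : B → A → A) (rm : A → B → A)
    (i j : ι) (b : B) (l : ι) (hl : j ≠ l) (a : A) :
    cX (ι := ι) lm rm i j b j l a = x j l a * x i l (lm b a) := by
  unfold cX
  rw [if_neg hl, if_pos rfl]

theorem cXC {B A : Type} [Ring B] [NonUnitalRing A] (lm : B → A → A) (rm : A → B → A)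
    (i j : ι) (b : B) (k : ι) (hk : k ≠ i) (hkj : k ≠ j) (a : A) :
    cX (ι := ι) lm rm i j b k i a = x k i a * x k j (-(rm a b)) := by
  unfold cX
  rw [if_neg hk, if_neg hkj, if_pos rfl]

theorem cXN {B A : Type} [Ring B] [NonUnitalRing A] (lm : B → A → A) (rm : A → B → A)
    (i j : ι) (b : B) (k l : ι) (hkl : k ≠ l) (hk : k ≠ j) (hl : l ≠ i) (a : A) :
    cX (ι := ι) lm rm i j b k l a = x k l a := by
  unfold cX
  rw [if_neg hkl, if_neg hk, if_neg hl]

theorem cX_e {A : Type} [NonUnitalRing A] (p q r : ι) (hpq : p ≠ q) (hqr : q ≠ r) (hpr : p ≠ r)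
    (u v : A) : (x p q u : St ι A) * x q r v = x p r (u * v) * x q r v * x p q u := by
  have := x_sr.conjL p q r hpq hqr hpr u v
  rwa [mul_inv_eq_iff_eq_mul] at this

theorem cX_c {A : Type} [NonUnitalRing A] (p q r s : ι) (hqr : q ≠ r) (hps : p ≠ s)
    (u v : A) : Commute (x p q u : St ι A) (x r s v) :=
  x_sr.commute p q r s hqr hps u v

theorem cX_RC {B A : Type} [Ring B] [NonUnitalRing A] {lm : B → A → A} {rm : A → B → A}
    (bm : BM lm rm) (i j : ι) (hij : i ≠ j) (b : B) (l p : ι) (hlj : j ≠ l) (hli : l ≠ i)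
    (hpi : p ≠ i) (hpj : p ≠ j) (hlp : l ≠ p) (a c : A) :
    Commute ((x j l a : St ι A) * x i l (lm b a)) (x p i c * x p j (-(rm c b))) := by
  have h0 : (-(rm c b)) * a + c * lm b a = 0 := by
    rw [neg_mul, bm.mid]; exact neg_add_cancel _
  have e1 := cX_e p j l hpj hlj hlp.symm (-(rm c b)) a
  have e2 := cX_e p i l hpi hli.symm hlp.symm c (lm b a)
  have c1 := (cX_c p i p l hpi.symm hlp.symm c ((-(rm c b)) * a)).eq
  have c2 := (cX_c p i j l hij hlp.symm c a).eq
  have c3 := (cX_c p j i l hij.symm hlp.symm (-(rm c b)) (lm b a)).eq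
  have c4 := (cX_c p l j l hlj.symm hlp.symm (c * lm b a) a).eq
  have h5 : (x p l ((-(rm c b)) * a) : St ι A) * x p l (c * lm b a) = 1 := by
    rw [← x_sr.add, h0, x_sr.zero]
  symm
  change (x p i c * x p j (-(rm c b))) * (x j l a * x i l (lm b a)) =
    (x j l a * x i l (lm b a)) * (x p i c * x p j (-(rm c b)))
  calc (x p i c * x p j (-(rm c b))) * (x j l a * x i l (lm b a))
      = x p i c * (x p j (-(rm c b)) * x j l a) * x i l (lm b a) := by simp only [mul_assoc]
    _ = (x p i c * x p l ((-(rm c b)) * a)) * x j l a * (x p j (-(rm c b)) * x i l (lm b a)) := by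
        rw [e1]; simp only [mul_assoc]
    _ = x p l ((-(rm c b)) * a) * (x p i c * x j l a) * (x i l (lm b a) * x p j (-(rm c b))) := by
        rw [c1, c3]; simp only [mul_assoc]
    _ = x p l ((-(rm c b)) * a) * x j l a * (x p i c * x i l (lm b a)) * x p j (-(rm c b)) := by
        rw [c2]; simp only [mul_assoc]
    _ = x p l ((-(rm c b)) * a) * (x j l a * x p l (c * lm b a)) * x i l (lm b a) *
          x p i c * x p j (-(rm c b)) := by
        rw [e2]; simp only [mul_assoc]
    _ = (x p l ((-(rm c b)) * a) * x p l (c * lm b a)) * x j l a * x i l (lm b a) *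
          x p i c * x p j (-(rm c b)) := by
        rw [← c4]; simp only [mul_assoc]
    _ = _ := by rw [h5, one_mul]; simp only [mul_assoc]

theorem cX_add {B A : Type} [Ring B] [NonUnitalRing A] {lm : B → A → A} {rm : A → B → A}
    (bm : BM lm rm) (i j : ι) (b : B) (k l : ι) (h : ¬(k = j ∧ l = i)) (a c : A) :
    cX (ι := ι) lm rm i j b k l (a + c) = cX lm rm i j b k l a * cX lm rm i j b k l c := by
  by_cases hkl : k = l
  · subst hkl
    simp [cX]
  by_cases hk : k = j
  · subst hk
    have hli : l ≠ i := fun hl => h ⟨rfl, hl⟩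
    rw [cXR lm rm i k b l hkl, cXR lm rm i k b l hkl, cXR lm rm i k b l hkl, bm.lm_add',
      x_sr.add, x_sr.add]
    have c1 := (cX_c k l i l hli hkl c (lm b a)).eq
    calc x k l a * x k l c * (x i l (lm b a) * x i l (lm b c))
        = x k l a * (x k l c * x i l (lm b a)) * x i l (lm b c) := by simp only [mul_assoc]
      _ = _ := by rw [c1]; simp only [mul_assoc]
  by_cases hl : l = i
  · subst hl
    rw [cXC lm rm l j b k hkl hk, cXC lm rm l j b k hkl hk, cXC lm rm l j b k hkl hk,
      bm.rm_add', neg_add, x_sr.add, x_sr.add]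
    have c1 := (cX_c k l k j (Ne.symm hkl) hk c (-(rm a b))).eq
    calc x k l a * x k l c * (x k j (-(rm a b)) * x k j (-(rm c b)))
        = x k l a * (x k l c * x k j (-(rm a b))) * x k j (-(rm c b)) := by simp only [mul_assoc]
      _ = _ := by rw [c1]; simp only [mul_assoc]
  · rw [cXN lm rm i j b k l hkl hk hl, cXN lm rm i j b k l hkl hk hl,
      cXN lm rm i j b k l hkl hk hl, x_sr.add]

theorem cX_comm {B A : Type} [Ring B] [NonUnitalRing A] {lm : B → A → A} {rm : A → B → A}
    (bm : BM lm rm) (i j : ι) (hij : i ≠ j) (b : B) (k l m : ι) (hkl : k ≠ l) (hlm : l ≠ m)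
    (hkm : k ≠ m) (h1 : ¬(k = j ∧ l = i)) (h2 : ¬(l = j ∧ m = i)) (h3 : ¬(k = j ∧ m = i))
    (a c : A) : cX (ι := ι) lm rm i j b k l a * cX lm rm i j b l m c =
      cX lm rm i j b k m (a * c) * cX lm rm i j b l m c * cX lm rm i j b k l a := by
  by_cases hk : k = j
  · subst hk
    have hli : l ≠ i := fun hl => h1 ⟨rfl, hl⟩
    have hmi : m ≠ i := fun hm => h3 ⟨rfl, hm⟩
    rw [cXR lm rm i k b l hkl, cXR lm rm i k b m hkm,
      cXN lm rm i k b l m hlm (Ne.symm hkl) hmi, bm.lm_mulA]
    have e1 := cX_e i l m (Ne.symm hli) hlm (Ne.symm hmi) (lm b a) c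
    have e2 := cX_e k l m hkl hlm hkm a c
    have c1 := (cX_c k l i m hli hkm a (lm b a * c)).eq
    have c2 := (cX_c i m k m (Ne.symm hkm) (Ne.symm hmi) (lm b a * c) (a * c)).eq
    calc x k l a * x i l (lm b a) * x l m c
        = x k l a * (x i l (lm b a) * x l m c) := by simp only [mul_assoc]
      _ = (x k l a * x i m (lm b a * c)) * x l m c * x i l (lm b a) := by
          rw [e1]; simp only [mul_assoc]
      _ = x i m (lm b a * c) * (x k l a * x l m c) * x i l (lm b a) := by
          rw [c1]; simp only [mul_assoc]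
      _ = (x i m (lm b a * c) * x k m (a * c)) * x l m c * x k l a * x i l (lm b a) := by
          rw [e2]; simp only [mul_assoc]
      _ = _ := by rw [c2]; simp only [mul_assoc]
  by_cases hm : m = i
  · subst hm
    have hlj : l ≠ j := fun hl => h2 ⟨hl, rfl⟩
    rw [cXN lm rm m j b k l hkl hk hlm, cXC lm rm m j b l hlm hlj, cXC lm rm m j b k hkm hk,
      bm.rm_mulA]
    have e1 := cX_e k l m hkl hlm hkm a c
    have e2 := cX_e k l j hkl hlj hk a (-(rm c b))
    have c1 := (cX_c l m k j (Ne.symm hkm) hlj c (a * -(rm c b))).eq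
    have h5 : -(a * rm c b) = a * -(rm c b) := (mul_neg _ _).symm
    rw [h5]
    calc x k l a * (x l m c * x l j (-(rm c b)))
        = (x k l a * x l m c) * x l j (-(rm c b)) := by simp only [mul_assoc]
      _ = x k m (a * c) * x l m c * (x k l a * x l j (-(rm c b))) := by
          rw [e1]; simp only [mul_assoc]
      _ = x k m (a * c) * (x l m c * x k j (a * -(rm c b))) * x l j (-(rm c b)) * x k l a := by
          rw [e2]; simp only [mul_assoc]
      _ = _ := by rw [c1]; simp only [mul_assoc]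
  by_cases hl : l = j
  · subst hl
    rw [cXN lm rm i l b k l hkl hk (Ne.symm hij), cXR lm rm i l b m hlm,
      cXN lm rm i l b k m hkm hk hm]
    have e1 := cX_e k l m hkl hlm hkm a c
    have c1 := (cX_c k l i m (Ne.symm hij) hkm a (lm b c)).eq
    calc x k l a * (x l m c * x i m (lm b c))
        = (x k l a * x l m c) * x i m (lm b c) := by simp only [mul_assoc]
      _ = x k m (a * c) * x l m c * (x k l a * x i m (lm b c)) := by
          rw [e1]; simp only [mul_assoc]
      _ = _ := by rw [c1]; simp only [mul_assoc]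
  by_cases hli : l = i
  · subst hli
    rw [cXC lm rm l j b k hkl hk, cXN lm rm l j b l m hlm hij (Ne.symm hlm),
      cXN lm rm l j b k m hkm hk hm]
    have e1 := cX_e k l m hkl hlm hkm a c
    have c1 := (cX_c k j l m (Ne.symm hij) hkm (-(rm a b)) c).eq
    calc x k l a * x k j (-(rm a b)) * x l m c
        = x k l a * (x k j (-(rm a b)) * x l m c) := by simp only [mul_assoc]
      _ = (x k l a * x l m c) * x k j (-(rm a b)) := by rw [c1]; simp only [mul_assoc]
      _ = _ := by rw [e1]; simp only [mul_assoc]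
  · rw [cXN lm rm i j b k l hkl hk hli, cXN lm rm i j b l m hlm hl hm,
      cXN lm rm i j b k m hkm hk hm]
    exact cX_e k l m hkl hlm hkm a c

theorem cX_cm {B A : Type} [Ring B] [NonUnitalRing A] {lm : B → A → A} {rm : A → B → A}
    (bm : BM lm rm) (i j : ι) (hij : i ≠ j) (b : B) (k l p q : ι) (hlp : l ≠ p) (hkq : k ≠ q)
    (h1 : ¬(k = j ∧ l = i)) (h2 : ¬(p = j ∧ q = i)) (a c : A) :
    Commute (cX (ι := ι) lm rm i j b k l a) (cX lm rm i j b p q c) := by
  by_cases hkl : k = l
  · have : cX (ι := ι) lm rm i j b k l a = 1 := by simp [cX, hkl]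
    rw [this]
    exact Commute.one_left _
  by_cases hpq : p = q
  · have : cX (ι := ι) lm rm i j b p q c = 1 := by simp [cX, hpq]
    rw [this]
    exact Commute.one_right _
  by_cases hk : k = j
  · subst hk
    have hli : l ≠ i := fun hl => h1 ⟨rfl, hl⟩
    rw [cXR lm rm i k b l hkl]
    by_cases hp : p = k
    · subst hp
      have hqi : q ≠ i := fun hl => h2 ⟨rfl, hl⟩
      rw [cXR lm rm i p b q hpq]
      exact ((cX_c _ _ _ _ hlp hkq _ _).mul_right (cX_c _ _ _ _ hli hkq _ _)).mul_left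
        ((cX_c _ _ _ _ hlp (Ne.symm hqi) _ _).mul_right (cX_c _ _ _ _ hli (Ne.symm hqi) _ _))
    by_cases hq : q = i
    · subst hq
      rw [cXC lm rm q k b p hpq hp]
      exact cX_RC bm q k hij b l p hkl hli hpq hp hlp a c
    · rw [cXN lm rm i k b p q hpq hp hq]
      exact (cX_c _ _ _ _ hlp hkq _ _).mul_left (cX_c _ _ _ _ hlp (Ne.symm hq) _ _)
  by_cases hl : l = i
  · subst hl
    rw [cXC lm rm l j b k hkl hk]
    by_cases hp : p = j
    · subst hp
      have hql : q ≠ l := fun h => h2 ⟨rfl, h⟩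
      rw [cXR lm rm l p b q hpq]
      exact (cX_RC bm l p hij b q k hpq hql hkl hk (Ne.symm hkq) c a).symm
    by_cases hq : q = l
    · subst hq
      rw [cXC lm rm q j b p hpq hp]
      exact ((cX_c _ _ _ _ hlp hkq _ _).mul_right (cX_c _ _ _ _ hlp hk _ _)).mul_left
        ((cX_c _ _ _ _ (Ne.symm hp) hkq _ _).mul_right (cX_c _ _ _ _ (Ne.symm hp) hk _ _))
    · rw [cXN lm rm l j b p q hpq hp hq]
      exact (cX_c _ _ _ _ hlp hkq _ _).mul_left (cX_c _ _ _ _ (Ne.symm hp) hkq _ _)
  · rw [cXN lm rm i j b k l hkl hk hl]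
    by_cases hp : p = j
    · subst hp
      rw [cXR lm rm i p b q hpq]
      exact (cX_c _ _ _ _ hlp hkq _ _).mul_right (cX_c _ _ _ _ hl hkq _ _)
    by_cases hq : q = i
    · subst hq
      rw [cXC lm rm q j b p hpq hp]
      exact (cX_c _ _ _ _ hlp hkq _ _).mul_right (cX_c _ _ _ _ hlp hk _ _)
    · rw [cXN lm rm i j b p q hpq hp hq]
      exact cX_c _ _ _ _ hlp hkq _ _

theorem cX_SRx {B A : Type} [Ring B] [NonUnitalRing A] {lm : B → A → A} {rm : A → B → A}
    (bm : BM lm rm) (i j : ι) (hij : i ≠ j) (b : B) : SRx (cX (ι := ι) lm rm i j b) j i := by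
  refine ⟨fun k a => by simp [cX], fun k l h a c => cX_add bm i j b k l h a c, ?_,
    fun k l p q hlp hkq h1 h2 a c => (cX_cm bm i j hij b k l p q hlp hkq h1 h2 a c).eq⟩
  intro k l m hkl hlm hkm h1 h2 h3 a c
  have h := cX_comm bm i j hij b k l m hkl hlm hkm h1 h2 h3 a c
  rw [h]
  group

end statements

end Pool.Agent.Helper58.K2
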