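import Pool.Agent.Helper58.K2.Defs

set_option autoImplicit false

namespace Pool.Agent.Helper58.K2

open Matrix Pool.Agent.Helper58.EN

section statements
variable {ι : Type} [Fintype ι] [DecidableEq ι]

theorem balance_aux {G : Type} [Group G] (A0 c e w z : G) (hw : A0 * c * A0⁻¹ * c⁻¹ = w)
    (hz : c * e * c⁻¹ * e⁻¹ = z) (h1 : A0 * e = e * A0) (h2 : w * z = z * w) (h3 : z * e = e * z) :
    w * e * w⁻¹ * e⁻¹ = A0 * z * A0⁻¹ * z⁻¹ := by
  have e1 : A0 * c * A0⁻¹ = w * c := by rw [← hw]; group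
  have e2 : c * e * c⁻¹ = z * e := by rw [← hz]; group
  have e3 : A0 * e * A0⁻¹ = e := by rw [h1]; group
  have e4 : A0 * z * A0⁻¹ = z * (w * e * w⁻¹ * e⁻¹) := by
    calc A0 * z * A0⁻¹ = (A0 * c * A0⁻¹) * (A0 * e * A0⁻¹) * (A0 * c * A0⁻¹)⁻¹ *
          (A0 * e * A0⁻¹)⁻¹ := by rw [← hz]; group
      _ = w * (c * e * c⁻¹) * w⁻¹ * e⁻¹ := by rw [e1, e3]; group
      _ = (w * z) * e * w⁻¹ * e⁻¹ := by rw [e2]; group
      _ = z * (w * e * w⁻¹ * e⁻¹) := by rw [h2]; group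
  have c1 : z * w⁻¹ = w⁻¹ * z := by
    have : w * z * w⁻¹ = z := by rw [h2]; group
    calc z * w⁻¹ = w⁻¹ * (w * z * w⁻¹) := by group
      _ = w⁻¹ * z := by rw [this]
  have c2 : z * e⁻¹ = e⁻¹ * z := by
    have : e * z * e⁻¹ = z := by rw [← h3]; group
    calc z * e⁻¹ = e⁻¹ * (e * z * e⁻¹) := by group
      _ = e⁻¹ * z := by rw [this]
  rw [e4]
  symm
  calc z * (w * e * w⁻¹ * e⁻¹) * z⁻¹ = (z * w) * e * w⁻¹ * e⁻¹ * z⁻¹ := by group
    _ = w * (z * e) * w⁻¹ * e⁻¹ * z⁻¹ := by rw [← h2]; group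
    _ = w * e * (z * w⁻¹) * e⁻¹ * z⁻¹ := by rw [h3]; group
    _ = w * e * w⁻¹ * (z * e⁻¹) * z⁻¹ := by rw [c1]; group
    _ = w * e * w⁻¹ * e⁻¹ := by rw [c2]; group

theorem Y_balance {A G : Type} [NonUnitalRing A] [Group G] {X : ι → ι → A → G} {j i : ι}
    (hij : i ≠ j) (h : SRx X j i) (m m' : ι) (hm : m ≠ m') (h1 : m ≠ i) (h2 : m ≠ j)
    (h3 : m' ≠ i) (h4 : m' ≠ j) (a l b : A) :
    X j m (a * l) * X m i b * (X j m (a * l))⁻¹ * (X m i b)⁻¹ =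
      X j m' a * X m' i (l * b) * (X j m' a)⁻¹ * (X m' i (l * b))⁻¹ := by
  apply balance_aux (X j m' a) (X m' m l) (X m i b)
  · exact h.comm j m' m h4.symm hm.symm h2.symm (fun hh => h3 hh.2) (fun hh => h4 hh.1)
      (fun hh => h1 hh.2) a l
  · exact h.comm m' m i hm.symm h1 h3 (fun hh => h4 hh.1) (fun hh => h2 hh.1)
      (fun hh => h4 hh.1) l b
  · exact h.commute j m' m i hm.symm hij.symm (fun hh => h3 hh.2) (fun hh => h2 hh.1) a b
  · exact h.commute j m m' i hm hij.symm (fun hh => h1 hh.2) (fun hh => h4 hh.1) _ _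
  · exact h.commute m' i m i h1.symm h3 (fun hh => h4 hh.1) (fun hh => h2 hh.1) _ _

end statements

end Pool.Agent.Helper58.K2
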