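import Pool.Agent.Helper58.K2.Defs
import Pool.Agent.Helper58.K2.JYB

set_option autoImplicit false

namespace Pool.Agent.Helper58.K2

open Matrix Pool.Agent.Helper58.EN

section statements
variable {ι : Type} [Fintype ι] [DecidableEq ι]

theorem Y_indep (h5 : 5 ≤ Fintype.card ι) {A G : Type} [NonUnitalRing A] [Group G] (hU : HU A)
    {X : ι → ι → A → G} {j i : ι} (hij : i ≠ j) (h : SRx X j i) (m m' : ι)
    (h1 : m ≠ i) (h2 : m ≠ j) (h3 : m' ≠ i) (h4 : m' ≠ j) (a b a' b' : A) (hab : a * b = a' * b') :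
    X j m a * X m i b * (X j m a)⁻¹ * (X m i b)⁻¹ =
      X j m' a' * X m' i b' * (X j m' a')⁻¹ * (X m' i b')⁻¹ := by
  obtain ⟨t, b1, b1', hb, hb', ht⟩ := hU b b'
  have key : a * b1 = a' * b1' := by
    have h0 : (a * b1 - a' * b1') * t = 0 := by
      rw [sub_mul, mul_assoc, mul_assoc, ← hb, ← hb', hab, sub_self]
    exact sub_eq_zero.mp (ht _ h0)
  obtain ⟨m'', hm''⟩ : ∃ m'', m'' ∉ ({i, j, m, m'} : Finset ι) := by
    by_contra hcon
    push Not at hcon
    have hs : (Finset.univ : Finset ι) ⊆ {i, j, m, m'} := fun k _ => hcon k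
    have hc := Finset.card_le_card hs
    have hc4 : ({i, j, m, m'} : Finset ι).card ≤ 4 := Finset.card_le_four
    rw [Finset.card_univ] at hc
    omega
  simp only [Finset.mem_insert, Finset.mem_singleton, not_or] at hm''
  obtain ⟨e1, e2, e3, e4⟩ := hm''
  have B1 := Y_balance hij h m'' m e3 e1 e2 h1 h2 a b1 t
  have B2 := Y_balance hij h m'' m' e4 e1 e2 h3 h4 a' b1' t
  rw [hb, hb', ← B1, ← B2, key]

end statements

end Pool.Agent.Helper58.K2
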