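import Pool.Agent.Helper58.K2.Defs
import Pool.Agent.Helper58.K2.JYB
import Pool.Agent.Helper58.K2.JYI

set_option autoImplicit false

namespace Pool.Agent.Helper58.K2

open Matrix Pool.Agent.Helper58.EN

section statements
variable {ι : Type} [Fintype ι] [DecidableEq ι]

omit [DecidableEq ι] in
theorem RE_ex (h5 : 5 ≤ Fintype.card ι) (a b c d : ι) :
    ∃ m : ι, m ≠ a ∧ m ≠ b ∧ m ≠ c ∧ m ≠ d := by
  classical
  by_contra hcon
  push Not at hcon
  have h1 : (Finset.univ : Finset ι) ⊆ ({a, b, c, d} : Finset ι) := by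
    intro m _
    by_cases e1 : m = a
    · simp [e1]
    by_cases e2 : m = b
    · simp [e2]
    by_cases e3 : m = c
    · simp [e3]
    have := hcon m e1 e2 e3
    simp [this]
  have h2 := Finset.card_le_card h1
  have h3 : ({a, b, c, d} : Finset ι).card ≤ 4 := Finset.card_le_four
  rw [Finset.card_univ] at h2
  omega

theorem RE_conjL {G : Type} [Group G] (u v s q : G) (hus : s * u = u * s)
    (hq : v * s * v⁻¹ * s⁻¹ = q) (hqz : q * (u * v * u⁻¹ * v⁻¹) = (u * v * u⁻¹ * v⁻¹) * q) :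
    (u * v * u⁻¹ * v⁻¹) * s * (u * v * u⁻¹ * v⁻¹)⁻¹ * s⁻¹ = (u * q⁻¹ * u⁻¹ * q)⁻¹ := by
  have h1 : s * v * s⁻¹ = q⁻¹ * v := by rw [← hq]; group
  have h2 : s * u * s⁻¹ = u := by rw [hus]; group
  have h3 : s * (u * v * u⁻¹ * v⁻¹) * s⁻¹ = (u * q⁻¹ * u⁻¹ * q) * (u * v * u⁻¹ * v⁻¹) := by
    calc s * (u * v * u⁻¹ * v⁻¹) * s⁻¹
        = (s * u * s⁻¹) * (s * v * s⁻¹) * (s * u * s⁻¹)⁻¹ * (s * v * s⁻¹)⁻¹ := by group
      _ = u * (q⁻¹ * v) * u⁻¹ * (q⁻¹ * v)⁻¹ := by rw [h1, h2]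
      _ = (u * q⁻¹ * u⁻¹) * ((u * v * u⁻¹ * v⁻¹) * q) := by group
      _ = (u * q⁻¹ * u⁻¹) * (q * (u * v * u⁻¹ * v⁻¹)) := by rw [hqz]
      _ = (u * q⁻¹ * u⁻¹ * q) * (u * v * u⁻¹ * v⁻¹) := by group
  calc (u * v * u⁻¹ * v⁻¹) * s * (u * v * u⁻¹ * v⁻¹)⁻¹ * s⁻¹
      = (u * v * u⁻¹ * v⁻¹) * (s * (u * v * u⁻¹ * v⁻¹) * s⁻¹)⁻¹ := by group
    _ = (u * v * u⁻¹ * v⁻¹) * ((u * q⁻¹ * u⁻¹ * q) * (u * v * u⁻¹ * v⁻¹))⁻¹ := by rw [h3]
    _ = (u * q⁻¹ * u⁻¹ * q)⁻¹ := by group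

theorem RE_conjR {G : Type} [Group G] (u v s q r : G) (hvs : s * v = v * s)
    (hq : s * u * s⁻¹ * u⁻¹ = q) (hqz : q * (u * v * u⁻¹ * v⁻¹) = (u * v * u⁻¹ * v⁻¹) * q)
    (hr : q * v * q⁻¹ * v⁻¹ = r)
    (hrz : r * (u * v * u⁻¹ * v⁻¹) = (u * v * u⁻¹ * v⁻¹) * r) :
    s * (u * v * u⁻¹ * v⁻¹) * s⁻¹ * (u * v * u⁻¹ * v⁻¹)⁻¹ = r := by
  have h1 : s * u * s⁻¹ = q * u := by rw [← hq]; group
  have h2 : s * v * s⁻¹ = v := by rw [hvs]; group
  have h3 : s * (u * v * u⁻¹ * v⁻¹) * s⁻¹ = r * (u * v * u⁻¹ * v⁻¹) := by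
    calc s * (u * v * u⁻¹ * v⁻¹) * s⁻¹
        = (s * u * s⁻¹) * (s * v * s⁻¹) * (s * u * s⁻¹)⁻¹ * (s * v * s⁻¹)⁻¹ := by group
      _ = (q * u) * v * (q * u)⁻¹ * v⁻¹ := by rw [h1, h2]
      _ = (q * (u * v * u⁻¹ * v⁻¹)) * (v * q⁻¹ * v⁻¹) := by group
      _ = ((u * v * u⁻¹ * v⁻¹) * q) * (v * q⁻¹ * v⁻¹) := by rw [hqz]
      _ = (u * v * u⁻¹ * v⁻¹) * (q * v * q⁻¹ * v⁻¹) := by group
      _ = r * (u * v * u⁻¹ * v⁻¹) := by rw [hr, hrz]
  rw [h3]; group

/-- the operator attached to the missing root. -/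
theorem RE_Z (h5 : 5 ≤ Fintype.card ι) {A G : Type} [NonUnitalRing A] [Group G] (hU : HU A)
    {X : ι → ι → A → G} {j i : ι} (hij : i ≠ j) (h : SRx X j i) :
    ∃ Z : A → G, ∀ a m, m ≠ i → m ≠ j → ∀ a1 t, a = a1 * t →
      X j m a1 * X m i t * (X j m a1)⁻¹ * (X m i t)⁻¹ = Z a := by
  have key : ∀ a : A, ∃ g : G, ∀ m, m ≠ i → m ≠ j → ∀ a1 t, a = a1 * t →
      X j m a1 * X m i t * (X j m a1)⁻¹ * (X m i t)⁻¹ = g := by
    intro a
    obtain ⟨m0, hm1, hm2, -, -⟩ := RE_ex h5 i j i j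
    obtain ⟨t0, a0, -, ha0, -, -⟩ := hU a a
    refine ⟨X j m0 a0 * X m0 i t0 * (X j m0 a0)⁻¹ * (X m0 i t0)⁻¹, ?_⟩
    intro m h1 h2 a1 t hat
    exact Y_indep h5 hU hij h m m0 h1 h2 hm1 hm2 a1 t a0 t0 (hat.symm.trans ha0)
  choose Z hZ using key
  exact ⟨Z, hZ⟩

theorem RE (h5 : 5 ≤ Fintype.card ι) {A G : Type} [NonUnitalRing A] [Group G] (hU : HU A)
    {X : ι → ι → A → G} {j i : ι} (hij : i ≠ j) (h : SRx X j i) :
    ∃ F : St ι A →* G, ∀ k l, ¬(k = j ∧ l = i) → ∀ a, F (x k l a) = X k l a := by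
  obtain ⟨Z, hZ⟩ := RE_Z h5 hU hij h
  have zero' : ∀ k l, ¬(k = j ∧ l = i) → X k l 0 = 1 := by
    intro k l hkl
    have := h.add k l hkl 0 0
    rw [add_zero] at this
    exact left_eq_mul.mp this
  have neg' : ∀ k l, ¬(k = j ∧ l = i) → ∀ a, X k l (-a) = (X k l a)⁻¹ := by
    intro k l hkl a
    rw [eq_inv_iff_mul_eq_one, ← h.add k l hkl, neg_add_cancel, zero' k l hkl]
  -- (C)
  have C : ∀ k l, k ≠ i → l ≠ j → ¬(k = j ∧ l = i) → ∀ c a, X k l c * Z a = Z a * X k l c := by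
    intro k l hk hl hkl c a
    obtain ⟨m, hmi, hmj, hmk, hml⟩ := RE_ex h5 i j k l
    obtain ⟨t, a1, -, ha, -, -⟩ := hU a a
    rw [← hZ a m hmi hmj a1 t ha]
    have c1 : Commute (X k l c) (X j m a1) :=
      h.commute k l j m hl (Ne.symm hmk) hkl (fun hh => hmi hh.2) c a1
    have c2 : Commute (X k l c) (X m i t) :=
      h.commute k l m i (Ne.symm hml) hk hkl (fun hh => hmj hh.1) c t
    exact ((c1.mul_right c2).mul_right c1.inv_right).mul_right c2.inv_right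
  have ZZ : ∀ a b, Z a * Z b = Z b * Z a := by
    intro a b
    obtain ⟨m, hmi, hmj, -, -⟩ := RE_ex h5 i j i j
    obtain ⟨t, b1, -, hb, -, -⟩ := hU b b
    rw [← hZ b m hmi hmj b1 t hb]
    have c1 : Commute (Z a) (X j m b1) :=
      (C j m (Ne.symm hij) hmj (fun hh => hmi hh.2) b1 a).symm
    have c2 : Commute (Z a) (X m i t) :=
      (C m i hmi hij (fun hh => hmj hh.1) t a).symm
    exact ((c1.mul_right c2).mul_right c1.inv_right).mul_right c2.inv_right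
  -- (A)
  have ZA : ∀ a b, Z (a + b) = Z a * Z b := by
    intro a b
    obtain ⟨m, hmi, hmj, -, -⟩ := RE_ex h5 i j i j
    obtain ⟨t, a1, b1, ha, hb, -⟩ := hU a b
    have hab : a + b = (a1 + b1) * t := by rw [add_mul, ← ha, ← hb]
    have e1 := hZ (a + b) m hmi hmj (a1 + b1) t hab
    have e2 := hZ a m hmi hmj a1 t ha
    have e3 := hZ b m hmi hmj b1 t hb
    have hc := C j m (Ne.symm hij) hmj (fun hh => hmi hh.2) a1 b
    rw [h.add j m (fun hh => hmi hh.2)] at e1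
    rw [← e1, ZZ a b, ← e2]
    rw [← e3] at hc
    rw [← e3]
    calc X j m a1 * X j m b1 * X m i t * (X j m a1 * X j m b1)⁻¹ * (X m i t)⁻¹
        = (X j m a1 * (X j m b1 * X m i t * (X j m b1)⁻¹ * (X m i t)⁻¹)) *
          (X m i t * (X j m a1)⁻¹ * (X m i t)⁻¹) := by group
      _ = ((X j m b1 * X m i t * (X j m b1)⁻¹ * (X m i t)⁻¹) * X j m a1) *
          (X m i t * (X j m a1)⁻¹ * (X m i t)⁻¹) := by rw [hc]
      _ = _ := by group
  -- (L)
  have ZL : ∀ l, l ≠ i → l ≠ j → ∀ a c,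
      Z a * X i l c * (Z a)⁻¹ * (X i l c)⁻¹ = X j l (a * c) := by
    intro l hli hlj a c
    obtain ⟨m, hmi, hmj, hml, -⟩ := RE_ex h5 i j l l
    obtain ⟨t, a1, -, ha, -, -⟩ := hU a a
    have e2 := hZ a m hmi hmj a1 t ha
    have hus : X i l c * X j m a1 = X j m a1 * X i l c :=
      h.commute i l j m hlj (Ne.symm hmi) (fun hh => hij hh.1) (fun hh => hmi hh.2) c a1
    have hq : X m i t * X i l c * (X m i t)⁻¹ * (X i l c)⁻¹ = X m l (t * c) :=
      h.comm m i l hmi (Ne.symm hli) hml (fun hh => hmj hh.1) (fun hh => hij hh.1)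
        (fun hh => hmj hh.1) t c
    have hqz := C m l hmi hlj (fun hh => hmj hh.1) (t * c) a
    rw [← e2] at hqz
    have := RE_conjL (X j m a1) (X m i t) (X i l c) (X m l (t * c)) hus hq hqz
    rw [e2] at this
    rw [this]
    have e4 : X j m a1 * X m l (-(t * c)) * (X j m a1)⁻¹ * (X m l (-(t * c)))⁻¹
        = X j l (a1 * (-(t * c))) :=
      h.comm j m l (Ne.symm hmj) hml (Ne.symm hlj) (fun hh => hmi hh.2) (fun hh => hli hh.2)
        (fun hh => hli hh.2) a1 (-(t * c))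
    rw [neg' m l (fun hh => hmj hh.1), inv_inv, mul_neg, neg' j l (fun hh => hli hh.2),
      ← mul_assoc, ← ha] at e4
    rw [e4, inv_inv]
  -- (R)
  have ZR : ∀ k, k ≠ i → k ≠ j → ∀ c a,
      X k j c * Z a * (X k j c)⁻¹ * (Z a)⁻¹ = X k i (c * a) := by
    intro k hki hkj c a
    obtain ⟨m, hmi, hmj, hmk, -⟩ := RE_ex h5 i j k k
    obtain ⟨t, a1, -, ha, -, -⟩ := hU a a
    have e2 := hZ a m hmi hmj a1 t ha
    have hvs : X k j c * X m i t = X m i t * X k j c :=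
      h.commute k j m i (Ne.symm hmj) hki (fun hh => hkj hh.1) (fun hh => hmj hh.1) c t
    have hq : X k j c * X j m a1 * (X k j c)⁻¹ * (X j m a1)⁻¹ = X k m (c * a1) :=
      h.comm k j m hkj (Ne.symm hmj) (Ne.symm hmk) (fun hh => hkj hh.1) (fun hh => hmi hh.2)
        (fun hh => hkj hh.1) c a1
    have hqz := C k m hki hmj (fun hh => hkj hh.1) (c * a1) a
    rw [← e2] at hqz
    have hr : X k m (c * a1) * X m i t * (X k m (c * a1))⁻¹ * (X m i t)⁻¹ = X k i (c * a) := by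
      rw [h.comm k m i (Ne.symm hmk) hmi hki (fun hh => hkj hh.1) (fun hh => hmj hh.1)
        (fun hh => hkj hh.1) (c * a1) t, mul_assoc, ← ha]
    have hrz := C k i hki hij (fun hh => hkj hh.1) (c * a) a
    rw [← e2] at hrz
    have := RE_conjR (X j m a1) (X m i t) (X k j c) (X k m (c * a1)) (X k i (c * a)) hvs hq hqz
      hr hrz
    rw [e2] at this
    exact this
  -- the completed family
  have hSR : SR (fun k l a => if k = j ∧ l = i then Z a else X k l a) := by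
    refine ⟨?_, ?_, ?_, ?_⟩
    · intro k a
      have : ¬(k = j ∧ k = i) := fun hh => hij (hh.2.symm.trans hh.1)
      simp only [if_neg this]
      exact h.diag k a
    · intro k l a b
      by_cases hkl : k = j ∧ l = i
      · simp only [if_pos hkl]; exact ZA a b
      · simp only [if_neg hkl]; exact h.add k l hkl a b
    · intro k l m hkl hlm hkm a b
      by_cases c1 : k = j ∧ m = i
      · obtain ⟨rfl, rfl⟩ := c1
        simp only [true_and, and_true, if_neg hlm, if_neg (Ne.symm hkl), if_true]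
        exact hZ (a * b) l hlm (Ne.symm hkl) a b rfl
      by_cases c2 : k = j ∧ l = i
      · obtain ⟨rfl, rfl⟩ := c2
        have n2 : ¬(l = k ∧ m = l) := fun hh => hkl hh.1.symm
        simp only [if_neg n2, true_and, and_true, if_neg (Ne.symm hlm), if_true]
        exact ZL m (Ne.symm hlm) (Ne.symm hkm) a b
      by_cases c3 : l = j ∧ m = i
      · obtain ⟨rfl, rfl⟩ := c3
        have n2 : ¬(k = l ∧ l = m) := fun hh => hkl hh.1
        simp only [if_neg n2, true_and, and_true, if_neg hkl, if_true]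
        exact ZR k hkm hkl a b
      · simp only [if_neg c1, if_neg c2, if_neg c3]
        exact h.comm k l m hkl hlm hkm c2 c3 c1 a b
    · intro k l p q hlp hkq a b
      by_cases c1 : k = j ∧ l = i
      · obtain ⟨rfl, rfl⟩ := c1
        by_cases c2 : p = k ∧ q = l
        · simp only [if_pos c2, and_self, if_true]
          exact ZZ a b
        · simp only [if_neg c2, and_self, if_true]
          exact (C p q (Ne.symm hlp) (Ne.symm hkq) c2 b a).symm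
      · by_cases c2 : p = j ∧ q = i
        · obtain ⟨rfl, rfl⟩ := c2
          simp only [if_neg c1, and_self, if_true]
          exact C k l hkq hlp c1 a b
        · simp only [if_neg c1, if_neg c2]
          exact h.commute k l p q hlp hkq c1 c2 a b
  refine ⟨lift hSR, ?_⟩
  intro k l hkl a
  rw [lift_x]
  simp only [if_neg hkl]

end statements

end Pool.Agent.Helper58.K2
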