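import Pool.Agent.Helper58.K2.Defs
import Pool.Agent.Helper58.K2.JCX
import Pool.Agent.Helper58.K2.JRE
import Pool.Agent.Helper58.K2.JSE

set_option autoImplicit false

namespace Pool.Agent.Helper58.K2

open Matrix Pool.Agent.Helper58.EN

section statements
variable {ι : Type} [Fintype ι] [DecidableEq ι]

theorem exists_fourth (h5 : 5 ≤ Fintype.card ι) (i j k l : ι) :
    ∃ m, m ≠ i ∧ m ≠ j ∧ m ≠ k ∧ m ≠ l := by
  by_contra hcon
  push Not at hcon
  have h1 : (Finset.univ : Finset ι) ⊆ {i, j, k, l} := by
    intro m _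
    simp only [Finset.mem_insert, Finset.mem_singleton]
    by_contra h
    push Not at h
    exact h.2.2.2 (hcon m h.1 h.2.1 h.2.2.1)
  have h2 := Finset.card_le_card h1
  have h3 : ({i, j, k, l} : Finset ι).card ≤ 4 := Finset.card_le_four
  rw [Finset.card_univ] at h2
  omega

/-- the family of endomorphisms -/
theorem exists_c (h5 : 5 ≤ Fintype.card ι) {B A : Type} [Ring B] [NonUnitalRing A]
    {lm : B → A → A} {rm : A → B → A} (bm : BM lm rm) (hU : HU A) :
    ∃ c : ι → ι → B → (St ι A →* St ι A), (∀ i b, c i i b = MonoidHom.id _) ∧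
      (∀ i j, i ≠ j → ∀ b k l a, ¬(k = j ∧ l = i) →
        c i j b (x k l a) = cX lm rm i j b k l a) := by
  have h : ∀ i j : ι, ∀ b : B, ∃ F : St ι A →* St ι A, (i = j → F = MonoidHom.id _) ∧
      (i ≠ j → ∀ k l, ¬(k = j ∧ l = i) → ∀ a, F (x k l a) = cX lm rm i j b k l a) := by
    intro i j b
    by_cases hij : i = j
    · exact ⟨MonoidHom.id _, fun _ => rfl, fun h => absurd hij h⟩
    · obtain ⟨F, hF⟩ := RE h5 hU hij (cX_SRx bm i j hij b)
      exact ⟨F, fun h => absurd h hij, fun _ => hF⟩
  choose c hc1 hc2 using h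
  exact ⟨c, fun i b => hc1 i i b rfl, fun i j hij b k l a h => hc2 i j b hij k l h a⟩

theorem exists_action (h5 : 5 ≤ Fintype.card ι) {B A : Type} [Ring B] [NonUnitalRing A]
    {lm : B → A → A} {rm : A → B → A} (bm : BM lm rm) (hU : HU A) :
    ∃ ρ : St ι B →* MulAut (St ι A), ∀ i j, i ≠ j → ∀ b k l a, ¬(k = j ∧ l = i) →
      ρ (x i j b) (x k l a) = cX lm rm i j b k l a := by
  obtain ⟨c, hid, hc⟩ := exists_c h5 bm hU
  -- the three formulas
  have hN : ∀ i j, i ≠ j → ∀ p q, p ≠ j → q ≠ i → ∀ b a, c i j b (x p q a) = x p q a := by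
    intro i j hij p q hp hq b a
    rw [hc i j hij b p q a (fun h => hp h.1)]
    unfold cX
    by_cases hpq : p = q
    · subst hpq
      rw [if_pos rfl, x_sr.diag]
    · rw [if_neg hpq, if_neg hp, if_neg hq]
  have hL : ∀ i j, i ≠ j → ∀ m, m ≠ i → m ≠ j → ∀ b a,
      c i j b (x j m a) = x j m a * x i m (lm b a) := by
    intro i j hij m hmi hmj b a
    rw [hc i j hij b j m a (fun h => hmi h.2)]
    unfold cX
    rw [if_neg (Ne.symm hmj), if_pos rfl]
  have hR : ∀ i j, i ≠ j → ∀ m, m ≠ i → m ≠ j → ∀ b a,
      c i j b (x m i a) = x m i a * x m j (-(rm a b)) := by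
    intro i j hij m hmi hmj b a
    rw [hc i j hij b m i a (fun h => hmj h.1)]
    unfold cX
    rw [if_neg hmi, if_neg hmj, if_pos rfl]
  have hs : SR (x : ι → ι → A → St ι A) := x_sr
  have lm0 : ∀ a, lm 0 a = 0 := by
    intro a
    have h := bm.lm_add 0 0 a
    rw [add_zero] at h
    exact left_eq_add.1 h
  have rm0 : ∀ a, rm a 0 = 0 := by
    intro a
    have h := bm.rm_add a 0 0
    rw [add_zero] at h
    exact left_eq_add.1 h
  have rm0' : ∀ b, rm 0 b = 0 := by
    intro b
    have h := bm.rm_add' 0 0 b
    rw [add_zero] at h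
    exact left_eq_add.1 h
  have rmneg : ∀ a b, rm (-a) b = -(rm a b) := by
    intro a b
    rw [eq_neg_iff_add_eq_zero, ← bm.rm_add', neg_add_cancel, rm0']
  -- `c i j 0 = id`
  have hc0 : ∀ i j, c i j 0 = MonoidHom.id _ := by
    intro i j
    by_cases hij : i = j
    · subst hij; exact hid i 0
    obtain ⟨m, hmi, hmj, -, -⟩ := exists_fourth h5 i j i j
    apply star_ext h5 hU m
    · intro p a
      rw [MonoidHom.id_apply]
      by_cases hp : p = j
      · subst hp
        rw [hL i p hij m hmi hmj, lm0, hs.zero, mul_one]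
      · exact hN i j hij p m hp hmi 0 a
    · intro q a
      rw [MonoidHom.id_apply]
      by_cases hq : q = i
      · subst hq
        rw [hR q j hij m hmi hmj, rm0, neg_zero, hs.zero, mul_one]
      · exact hN i j hij m q hmj hq 0 a
  -- additivity
  have hadd : ∀ i j b b', c i j (b + b') = (c i j b).comp (c i j b') := by
    intro i j b b'
    by_cases hij : i = j
    · subst hij; rw [hid, hid, hid]; rfl
    obtain ⟨m, hmi, hmj, -, -⟩ := exists_fourth h5 i j i j
    apply star_ext h5 hU m
    · intro p a
      rw [MonoidHom.comp_apply]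
      by_cases hp : p = j
      · subst hp
        rw [hL i p hij m hmi hmj, hL i p hij m hmi hmj, map_mul, hL i p hij m hmi hmj,
          hN i p hij i m hij hmi, bm.lm_add, hs.add, mul_assoc]
      · rw [hN i j hij p m hp hmi, hN i j hij p m hp hmi, hN i j hij p m hp hmi]
    · intro q a
      rw [MonoidHom.comp_apply]
      by_cases hq : q = i
      · subst hq
        rw [hR q j hij m hmi hmj, hR q j hij m hmi hmj, map_mul, hR q j hij m hmi hmj,
          hN q j hij m j hmj (Ne.symm hij), bm.rm_add, neg_add, hs.add, mul_assoc]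
      · rw [hN i j hij m q hmj hq, hN i j hij m q hmj hq, hN i j hij m q hmj hq]
  -- commuting relation
  have hcomm : ∀ i j k l, j ≠ k → i ≠ l → ∀ b b',
      (c i j b).comp (c k l b') = (c k l b').comp (c i j b) := by
    intro i j k l hjk hil b b'
    by_cases hij : i = j
    · subst hij; rw [hid]; rfl
    by_cases hkl : k = l
    · subst hkl; rw [hid]; rfl
    obtain ⟨m, hmi, hmj, hmk, hml⟩ := exists_fourth h5 i j k l
    apply star_ext h5 hU m
    · intro p a
      rw [MonoidHom.comp_apply, MonoidHom.comp_apply]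
      by_cases hp : p = j
      · subst hp
        by_cases hpl : p = l
        · subst hpl
          rw [hL k p hkl m hmk hml, hL i p hij m hmi hmj, map_mul, map_mul,
            hL k p hkl m hmk hml, hL i p hij m hmi hmj, hN i p hij k m hkl hmi,
            hN k p hkl i m hij hmk, mul_assoc, mul_assoc, hs.commute i m k m hmk (Ne.symm hmi)]
        · rw [hN k l hkl p m hpl hmk, hL i p hij m hmi hmj, map_mul, hN k l hkl p m hpl hmk,
            hN k l hkl i m hil hmk]
      · by_cases hpl : p = l
        · subst hpl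
          rw [hN i j hij p m hp hmi, hL k p hkl m hmk hml, map_mul, hN i j hij p m hp hmi,
            hN i j hij k m (Ne.symm hjk) hmi]
        · rw [hN k l hkl p m hpl hmk, hN i j hij p m hp hmi, hN k l hkl p m hpl hmk]
    · intro q a
      rw [MonoidHom.comp_apply, MonoidHom.comp_apply]
      by_cases hq : q = i
      · subst hq
        by_cases hqk : q = k
        · subst hqk
          rw [hR q l hkl m hmk hml, hR q j hij m hmi hmj, map_mul, map_mul,
            hR q j hij m hmi hmj, hR q l hkl m hmk hml, hN q j hij m l hmj (Ne.symm hil),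
            hN q l hkl m j hml hjk, mul_assoc, mul_assoc,
            hs.commute m j m l (Ne.symm hmj) hml]
        · rw [hN k l hkl m q hml hqk, hR q j hij m hmi hmj, map_mul, hN k l hkl m q hml hqk,
            hN k l hkl m j hml hjk]
      · by_cases hqk : q = k
        · subst hqk
          rw [hN i j hij m q hmj hq, hR q l hkl m hmk hml, map_mul, hN i j hij m q hmj hq,
            hN i j hij m l hmj (Ne.symm hil)]
        · rw [hN k l hkl m q hml hqk, hN i j hij m q hmj hq, hN k l hkl m q hml hqk]
  -- commutator relation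
  have hstein : ∀ i j k, i ≠ j → j ≠ k → i ≠ k → ∀ b b',
      (c i j b).comp (c j k b') = (c i k (b * b')).comp ((c j k b').comp (c i j b)) := by
    intro i j k hij hjk hik b b'
    obtain ⟨m, hmi, hmj, hmk, -⟩ := exists_fourth h5 i j k k
    apply star_ext h5 hU m
    · intro p a
      rw [MonoidHom.comp_apply, MonoidHom.comp_apply, MonoidHom.comp_apply]
      by_cases hp : p = k
      · subst hp
        rw [hL j p hjk m hmj hmk, map_mul, hN i j hij p m (Ne.symm hjk) hmi,
          hL i j hij m hmi hmj, hL j p hjk m hmj hmk, map_mul, hL i p hik m hmi hmk,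
          hN i p hik j m hjk hmi, bm.lm_mul, mul_assoc,
          hs.commute i m j m hmj (Ne.symm hmi)]
      · by_cases hpj : p = j
        · subst hpj
          rw [hN p k hjk p m hp hmj, hL i p hij m hmi hmj, map_mul, map_mul,
            hN p k hjk p m hp hmj, hN p k hjk i m hik hmj, hN i k hik p m hp hmi,
            hN i k hik i m hik hmi]
        · rw [hN j k hjk p m hp hmj, hN i j hij p m hpj hmi, hN j k hjk p m hp hmj,
            hN i k hik p m hp hmi]
    · intro q a
      rw [MonoidHom.comp_apply, MonoidHom.comp_apply, MonoidHom.comp_apply]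
      by_cases hq : q = i
      · subst hq
        rw [hN j k hjk m q hmk hij, hR q j hij m hmi hmj, map_mul, map_mul,
          hN j k hjk m q hmk hij, hR j k hjk m hmj hmk, map_mul, hR q k hik m hmi hmk,
          hN q k hik m j hmk (Ne.symm hij), hN q k hik m k hmk (Ne.symm hik), rmneg, bm.rm_mul,
          neg_neg, mul_assoc,
          hs.commute m j m k (Ne.symm hmj) hmk, ← mul_assoc (x m k _), ← hs.add,
          neg_add_cancel, hs.zero, one_mul]
      · by_cases hqj : q = j
        · subst hqj
          rw [hR q k hjk m hmj hmk, map_mul, hN i q hij m q hmj hq,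
            hN i q hij m k hmj (Ne.symm hik), hR q k hjk m hmj hmk, map_mul,
            hN i k hik m q hmk hq, hN i k hik m k hmk (Ne.symm hik)]
        · rw [hN j k hjk m q hmk hqj, hN i j hij m q hmj hq, hN j k hjk m q hmk hqj,
            hN i k hik m q hmk hq]
  -- automorphisms
  let C : ι → ι → B → MulAut (St ι A) := fun i j b =>
    MonoidHom.toMulEquiv (c i j b) (c i j (-b))
      (by rw [← hadd, neg_add_cancel, hc0]) (by rw [← hadd, add_neg_cancel, hc0])
  have hC : ∀ i j b g, C i j b g = c i j b g := fun i j b g => rfl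
  have hSR : SR C := by
    constructor
    · intro i b
      ext g
      rw [hC, hid]; rfl
    · intro i j b b'
      ext g
      rw [MulAut.mul_apply, hC, hC, hC, hadd]; rfl
    · intro i j k hij hjk hik b b'
      rw [mul_inv_eq_iff_eq_mul, mul_inv_eq_iff_eq_mul]
      ext g
      rw [MulAut.mul_apply, MulAut.mul_apply, MulAut.mul_apply, hC, hC, hC, hC, hC]
      exact DFunLike.congr_fun (hstein i j k hij hjk hik b b') g
    · intro i j k l hjk hil b b'
      ext g
      rw [MulAut.mul_apply, MulAut.mul_apply, hC, hC, hC, hC]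
      exact DFunLike.congr_fun (hcomm i j k l hjk hil b b') g
  refine ⟨lift hSR, ?_⟩
  intro i j hij b k l a hkl
  rw [lift_x, hC]
  exact hc i j hij b k l a hkl

end statements

end Pool.Agent.Helper58.K2
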