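import Pool.Agent.Helper58.K2.Defs

set_option autoImplicit false

namespace Pool.Agent.Helper58.K2

open Matrix Pool.Agent.Helper58.EN

section statements
variable {ι : Type} [Fintype ι] [DecidableEq ι]

/-- the filter of divisibility and growth. -/
def gdF {Z : Type} [CommRing Z] (S : Submonoid Z) : Filter (S × ℕ) where
  sets := {A | ∃ (s0 : S) (N : ℕ), ∀ t : S × ℕ, (∃ z : Z, (t.1 : Z) = s0 * z) → N ≤ t.2 → t ∈ A}
  univ_sets := ⟨1, 0, fun _ _ _ => trivial⟩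
  sets_of_superset := by
    rintro A B ⟨s0, N, h⟩ hAB
    exact ⟨s0, N, fun t h1 h2 => hAB (h t h1 h2)⟩
  inter_sets := by
    rintro A B ⟨s0, N, h⟩ ⟨s0', N', h'⟩
    refine ⟨s0 * s0', max N N', fun t h1 h2 => ?_⟩
    obtain ⟨z, hz⟩ := h1
    refine ⟨h t ⟨s0' * z, ?_⟩ (le_trans (le_max_left _ _) h2),
      h' t ⟨s0 * z, ?_⟩ (le_trans (le_max_right _ _) h2)⟩
    · rw [hz, Submonoid.coe_mul]; ring
    · rw [hz, Submonoid.coe_mul]; ring

theorem gdF_mem {Z : Type} [CommRing Z] {S : Submonoid Z} {A : Set (S × ℕ)} (s0 : S) (N : ℕ)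
    (h : ∀ t : S × ℕ, (∃ z : Z, (t.1 : Z) = s0 * z) → N ≤ t.2 → t ∈ A) : A ∈ gdF S :=
  ⟨s0, N, h⟩

theorem gdF_neBot {Z : Type} [CommRing Z] (S : Submonoid Z) : (gdF S).NeBot := by
  rw [Filter.neBot_iff]
  intro h
  have h1 : (∅ : Set (S × ℕ)) ∈ gdF S := by rw [h]; trivial
  obtain ⟨s0, N, h2⟩ := h1
  exact h2 (s0, N) ⟨1, by simp⟩ le_rfl

section gd
variable {Z L B : Type} [CommRing Z] [Ring L] [Algebra Z L] [Ring B] {S : Submonoid Z}

/-- representation of a germ. -/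
def gdR (s1 : Z) (k : ℕ) (h : S × ℕ → L) : (gdF S).Germ L :=
  ((fun t => (t.1 : Z) ^ (t.2 / k) • (s1 • h t) : S × ℕ → L) : (gdF S).Germ L)

theorem gdR_weak (s1 : Z) {k K : ℕ} (hk : 0 < k) (hK : k ≤ K) (h : S × ℕ → L) :
    ∃ h' : S × ℕ → L, gdR s1 k h = gdR s1 K h' := by
  refine ⟨fun t => (t.1 : Z) ^ (t.2 / k - t.2 / K) • h t, ?_⟩
  unfold gdR
  congr 1
  funext t
  have h1 : t.2 / K ≤ t.2 / k := Nat.div_le_div_left hK hk
  have e : t.2 / k = t.2 / K + (t.2 / k - t.2 / K) := by omega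
  rw [smul_comm s1 ((t.1 : Z) ^ (t.2 / k - t.2 / K)) (h t)]
  conv_lhs => rw [e, pow_add, mul_smul]

/-- the ring of infinitely divisible germs. -/
def gdJ (L : Type) [Ring L] [Algebra Z L] (S : Submonoid Z) (s1 : Z) :
    NonUnitalSubring ((gdF S).Germ L) where
  carrier := {g | ∃ k : ℕ, 0 < k ∧ ∃ h : S × ℕ → L, g = gdR s1 k h}
  zero_mem' := by
    refine ⟨1, one_pos, fun _ => 0, ?_⟩
    unfold gdR
    simp only [smul_zero]
    rfl
  add_mem' := by
    rintro _ _ ⟨k, hk, h, rfl⟩ ⟨k', hk', h', rfl⟩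
    obtain ⟨u, hu⟩ := gdR_weak s1 hk (le_max_left k k') h
    obtain ⟨v, hv⟩ := gdR_weak s1 hk' (le_max_right k k') h'
    refine ⟨max k k', lt_of_lt_of_le hk (le_max_left k k'), fun t => u t + v t, ?_⟩
    rw [hu, hv]
    unfold gdR
    simp only [smul_add]
    rfl
  neg_mem' := by
    rintro _ ⟨k, hk, h, rfl⟩
    refine ⟨k, hk, fun t => - h t, ?_⟩
    unfold gdR
    simp only [smul_neg]
    rfl
  mul_mem' := by
    rintro _ _ ⟨k, hk, h, rfl⟩ ⟨k', hk', h', rfl⟩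
    refine ⟨k, hk, fun t => h t * ((t.1 : Z) ^ (t.2 / k') • (s1 • h' t)), ?_⟩
    unfold gdR
    rw [← Filter.Germ.coe_mul]
    congr 1
    funext t
    simp only [Pi.mul_apply, smul_mul_assoc]

theorem gdJ_mem {s1 : Z} {g : (gdF S).Germ L} :
    g ∈ gdJ L S s1 ↔ ∃ k : ℕ, 0 < k ∧ ∃ h : S × ℕ → L, g = gdR s1 k h := Iff.rfl

/-- the ring homomorphism on germs. -/
def gdM (S : Submonoid Z) (f : L →+* B) : (gdF S).Germ L →+* (gdF S).Germ B where
  toFun := Filter.Germ.map f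
  map_one' := by
    rw [← Filter.Germ.coe_one, Filter.Germ.map_coe, ← Filter.Germ.coe_one]
    congr 1
    funext t
    simp
  map_zero' := by
    rw [← Filter.Germ.coe_zero, Filter.Germ.map_coe, ← Filter.Germ.coe_zero]
    congr 1
    funext t
    simp
  map_mul' := by
    intro a b
    induction a, b using Filter.Germ.inductionOn₂ with
    | _ u v =>
      rw [← Filter.Germ.coe_mul, Filter.Germ.map_coe, Filter.Germ.map_coe, Filter.Germ.map_coe,
        ← Filter.Germ.coe_mul]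
      congr 1
      funext t
      simp
  map_add' := by
    intro a b
    induction a, b using Filter.Germ.inductionOn₂ with
    | _ u v =>
      rw [← Filter.Germ.coe_add, Filter.Germ.map_coe, Filter.Germ.map_coe, Filter.Germ.map_coe,
        ← Filter.Germ.coe_add]
      congr 1
      funext t
      simp

theorem gdM_coe (f : L →+* B) (u : S × ℕ → L) :
    gdM S f (u : (gdF S).Germ L) = ((fun t => f (u t) : S × ℕ → B) : (gdF S).Germ B) := rfl

theorem gdM_inj {f : L →+* B} {s1 : Z} (hinj : ∀ r : L, f (s1 • r) = 0 → s1 • r = 0)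
    {a : (gdF S).Germ L} (ha : a ∈ gdJ L S s1) (h0 : gdM S f a = 0) : a = 0 := by
  obtain ⟨k, hk, h, rfl⟩ := ha
  unfold gdR at h0 ⊢
  rw [gdM_coe, ← Filter.Germ.coe_zero, Filter.Germ.coe_eq] at h0
  rw [← Filter.Germ.coe_zero, Filter.Germ.coe_eq]
  filter_upwards [h0] with t ht
  simp only [Pi.zero_apply] at ht ⊢
  rw [smul_comm] at ht ⊢
  exact hinj _ ht

theorem gdJ_left {f : L →+* B} (hf : Loc S f) (s1 : Z) (b : B) {a : (gdF S).Germ L}
    (ha : a ∈ gdJ L S s1) :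
    ∃ a' ∈ gdJ L S s1, gdM S f a' = ((fun _ => b : S × ℕ → B) : (gdF S).Germ B) * gdM S f a := by
  classical
  obtain ⟨k, hk, h, rfl⟩ := ha
  obtain ⟨sb, hsb, r, hr⟩ := hf.surj b
  refine ⟨gdR s1 (k * 2) (fun t => if hz : ∃ z : Z, (t.1 : Z) = sb * z then
    (t.1 : Z) ^ (t.2 / k - 1 - t.2 / k / 2) • (hz.choose • (r * h t)) else 0),
    ⟨k * 2, by omega, _, rfl⟩, ?_⟩
  unfold gdR
  rw [gdM_coe, gdM_coe, ← Filter.Germ.coe_mul, Filter.Germ.coe_eq]
  refine gdF_mem ⟨sb, hsb⟩ k (fun t ht hkt => ?_)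
  show f _ = b * f _
  simp only [dif_pos ht]
  have hz := ht.choose_spec
  set z := ht.choose with hzdef
  have hz' : (t.1 : Z) = sb * z := hz
  have hq : 1 ≤ t.2 / k := (Nat.one_le_div_iff hk).mpr hkt
  rw [← Nat.div_div_eq_div_mul]
  set q := t.2 / k with hqdef
  have e1 : (t.1 : Z) ^ q • (s1 • h t) =
      sb • ((t.1 : Z) ^ (q - 1) • (s1 • (z • h t))) := by
    obtain ⟨m, hm⟩ : ∃ m, q = m + 1 := ⟨q - 1, by omega⟩
    rw [hm, Nat.add_sub_cancel, pow_succ]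
    nth_rewrite 2 [hz']
    simp only [smul_smul]
    congr 1
    ring
  have e2 : (t.1 : Z) ^ (q / 2) • (s1 • ((t.1 : Z) ^ (q - 1 - q / 2) • (z • (r * h t)))) =
      r * ((t.1 : Z) ^ (q - 1) • (s1 • (z • h t))) := by
    have hqq : q - 1 = q / 2 + (q - 1 - q / 2) := by omega
    rw [mul_smul_comm, mul_smul_comm, mul_smul_comm]
    conv_rhs => rw [hqq, pow_add]
    simp only [smul_smul]
    congr 1
    ring
  rw [e1, e2, map_mul, ← hr, Algebra.smul_def sb, map_mul, hf.central, mul_assoc]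

theorem gdJ_right {f : L →+* B} (hf : Loc S f) (s1 : Z) (b : B) {a : (gdF S).Germ L}
    (ha : a ∈ gdJ L S s1) :
    ∃ a' ∈ gdJ L S s1, gdM S f a' = gdM S f a * ((fun _ => b : S × ℕ → B) : (gdF S).Germ B) := by
  classical
  obtain ⟨k, hk, h, rfl⟩ := ha
  obtain ⟨sb, hsb, r, hr⟩ := hf.surj b
  refine ⟨gdR s1 (k * 2) (fun t => if hz : ∃ z : Z, (t.1 : Z) = sb * z then
    (t.1 : Z) ^ (t.2 / k - 1 - t.2 / k / 2) • (hz.choose • (h t * r)) else 0),
    ⟨k * 2, by omega, _, rfl⟩, ?_⟩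
  unfold gdR
  rw [gdM_coe, gdM_coe, ← Filter.Germ.coe_mul, Filter.Germ.coe_eq]
  refine gdF_mem ⟨sb, hsb⟩ k (fun t ht hkt => ?_)
  show f _ = f _ * b
  simp only [dif_pos ht]
  have hz := ht.choose_spec
  set z := ht.choose with hzdef
  have hz' : (t.1 : Z) = sb * z := hz
  have hq : 1 ≤ t.2 / k := (Nat.one_le_div_iff hk).mpr hkt
  rw [← Nat.div_div_eq_div_mul]
  set q := t.2 / k with hqdef
  have e1 : (t.1 : Z) ^ q • (s1 • h t) =
      sb • ((t.1 : Z) ^ (q - 1) • (s1 • (z • h t))) := by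
    obtain ⟨m, hm⟩ : ∃ m, q = m + 1 := ⟨q - 1, by omega⟩
    rw [hm, Nat.add_sub_cancel, pow_succ]
    nth_rewrite 2 [hz']
    simp only [smul_smul]
    congr 1
    ring
  have e2 : (t.1 : Z) ^ (q / 2) • (s1 • ((t.1 : Z) ^ (q - 1 - q / 2) • (z • (h t * r)))) =
      ((t.1 : Z) ^ (q - 1) • (s1 • (z • h t))) * r := by
    have hqq : q - 1 = q / 2 + (q - 1 - q / 2) := by omega
    rw [smul_mul_assoc, smul_mul_assoc, smul_mul_assoc]
    conv_rhs => rw [hqq, pow_add]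
    simp only [smul_smul]
    congr 1
    ring
  rw [e1, e2, map_mul, ← hr, Algebra.smul_def sb, map_mul, hf.central sb (f _), mul_assoc]

theorem gdJ_constL (s1 : Z) (l : L) {a : (gdF S).Germ L} (ha : a ∈ gdJ L S s1) :
    ((fun _ => l : S × ℕ → L) : (gdF S).Germ L) * a ∈ gdJ L S s1 := by
  obtain ⟨k, hk, h, rfl⟩ := ha
  refine ⟨k, hk, fun t => l * h t, ?_⟩
  unfold gdR
  rw [← Filter.Germ.coe_mul]
  congr 1
  funext t
  simp only [Pi.mul_apply, mul_smul_comm]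

theorem gdJ_constR (s1 : Z) (l : L) {a : (gdF S).Germ L} (ha : a ∈ gdJ L S s1) :
    a * ((fun _ => l : S × ℕ → L) : (gdF S).Germ L) ∈ gdJ L S s1 := by
  obtain ⟨k, hk, h, rfl⟩ := ha
  refine ⟨k, hk, fun t => h t * l, ?_⟩
  unfold gdR
  rw [← Filter.Germ.coe_mul]
  congr 1
  funext t
  simp only [Pi.mul_apply, smul_mul_assoc]

theorem gdJ_div (s1 : Z) (hs1 : s1 ∈ S) {K : ℕ} (hK : 0 < K) (h : S × ℕ → L) :
    ∃ a ∈ gdJ L S s1, gdR s1 K h = a * gdR s1 (K * 4) (fun _ => 1) := by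
  classical
  refine ⟨gdR s1 (K * 4) (fun t => if hz : ∃ z : Z, (t.1 : Z) = s1 * z then
    (t.1 : Z) ^ (t.2 / K - 1 - t.2 / K / 4 - t.2 / K / 4) • (hz.choose • h t) else 0),
    ⟨K * 4, by omega, _, rfl⟩, ?_⟩
  unfold gdR
  rw [← Filter.Germ.coe_mul, Filter.Germ.coe_eq]
  refine gdF_mem ⟨s1, hs1⟩ K (fun t ht hkt => ?_)
  show (t.1 : Z) ^ (t.2 / K) • (s1 • h t) = _ * _
  simp only [dif_pos ht]
  have hz := ht.choose_spec
  set z := ht.choose with hzdef
  have hz' : (t.1 : Z) = s1 * z := hz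
  have hq : 1 ≤ t.2 / K := (Nat.one_le_div_iff hK).mpr hkt
  rw [← Nat.div_div_eq_div_mul]
  set q := t.2 / K with hqdef
  obtain ⟨m, hm⟩ : ∃ m, q = m + 1 := ⟨q - 1, by omega⟩
  have hmm : m = q / 4 + (q / 4 + (q - 1 - q / 4 - q / 4)) := by omega
  set e := q - 1 - q / 4 - q / 4 with hedef
  set c := q / 4 with hcdef
  rw [hm, pow_succ]
  nth_rewrite 2 [hz']
  rw [hmm, pow_add, pow_add]
  simp only [smul_mul_assoc, mul_smul_comm, mul_one, smul_smul]
  congr 1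
  ring

theorem gdJ_cancel {f : L →+* B} (hf : Loc S f) {s1 : Z} (hs1 : s1 ∈ S)
    (hinj : ∀ r : L, f (s1 • r) = 0 → s1 • r = 0) (K : ℕ) {w : (gdF S).Germ L}
    (hw : w ∈ gdJ L S s1) (h0 : w * gdR s1 K (fun _ => 1) = 0) : w = 0 := by
  obtain ⟨k, hk, h, rfl⟩ := hw
  unfold gdR at h0 ⊢
  rw [← Filter.Germ.coe_mul, ← Filter.Germ.coe_zero, Filter.Germ.coe_eq] at h0
  rw [← Filter.Germ.coe_zero, Filter.Germ.coe_eq]
  filter_upwards [h0] with t ht
  simp only [Pi.zero_apply, Pi.mul_apply] at ht ⊢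
  rw [mul_smul_comm, mul_smul_comm, mul_one, smul_smul] at ht
  have h1 := congrArg f ht
  rw [map_zero, Algebra.smul_def, map_mul] at h1
  have hS : (t.1 : Z) ^ (t.2 / K) * s1 ∈ S := S.mul_mem (S.pow_mem t.1.2 _) hs1
  have hu := hf.unit _ hS
  have h2 : f ((t.1 : Z) ^ (t.2 / k) • (s1 • h t)) = 0 := by
    obtain ⟨u, hu⟩ := hu
    rw [← hu] at h1
    have h3 := congrArg (fun y => ((u⁻¹ : Bˣ) : B) * y) h1
    simpa using h3
  rw [smul_comm] at h2 ⊢
  exact hinj _ h2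

end gd

theorem germ_data {Z L B : Type} [CommRing Z] [Ring L] [Algebra Z L] [Ring B] (S : Submonoid Z)
    (f : L →+* B) (hf : Loc S f) (s1 : Z) (hs1 : s1 ∈ S)
    (hinj : ∀ r : L, f (s1 • r) = 0 → s1 • r = 0) :
    ∃ (F : Filter (S × ℕ)) (_ : F.NeBot) (A Λ : Type) (_ : NonUnitalRing A) (_ : Ring Λ)
      (lm : B → A → A) (rm : A → B → A) (β : B →+* Λ) (jj : A →ₙ+* Λ) (lam : A →ₙ+* F.Germ L),
      BM lm rm ∧ HU A ∧ Function.Injective jj ∧ (∀ b a, jj (lm b a) = β b * jj a) ∧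
      (∀ a b, jj (rm a b) = jj a * β b) ∧
      (∀ (l : L) (a : A), lam (lm (f l) a) = (↑l : F.Germ L) * lam a) ∧
      (∀ (l : L) (a : A), lam (rm a (f l)) = lam a * (↑l : F.Germ L)) ∧
      (∀ r : S × ℕ → L, ∃ a : A,
        lam a = ((fun t => (((t.1 : Z) ^ t.2) * s1) • r t : S × ℕ → L) : F.Germ L)) := by
  classical
  choose lm0 hlm0 hlm1 using fun (b : B) (a : (gdJ L S s1)) => gdJ_left hf s1 b a.2
  choose rm0 hrm0 hrm1 using fun (b : B) (a : (gdJ L S s1)) => gdJ_right hf s1 b a.2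
  let β : B →+* (gdF S).Germ B := 
    { toFun := fun b => ((fun _ => b : S × ℕ → B) : (gdF S).Germ B)
      map_one' := rfl
      map_zero' := rfl
      map_mul' := fun _ _ => rfl
      map_add' := fun _ _ => rfl }
  let lam : (gdJ L S s1) →ₙ+* (gdF S).Germ L := NonUnitalSubringClass.subtype (gdJ L S s1)
  let jj : (gdJ L S s1) →ₙ+* (gdF S).Germ B := ((gdM S f : (gdF S).Germ L →+* (gdF S).Germ B) :
    (gdF S).Germ L →ₙ+* (gdF S).Germ B).comp lam
  have jjv : ∀ a : (gdJ L S s1), jj a = gdM S f (a : (gdF S).Germ L) := fun a => rfl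
  have hjj : Function.Injective jj := by
    rw [injective_iff_map_eq_zero]
    intro a ha
    exact Subtype.ext (gdM_inj hinj a.2 ha)
  let lm : B → (gdJ L S s1) → (gdJ L S s1) := fun b a => ⟨lm0 b a, hlm0 b a⟩
  let rm : (gdJ L S s1) → B → (gdJ L S s1) := fun a b => ⟨rm0 b a, hrm0 b a⟩
  have hlm : ∀ b a, jj (lm b a) = β b * jj a := fun b a => hlm1 b a
  have hrm : ∀ a b, jj (rm a b) = jj a * β b := fun a b => hrm1 b a
  refine ⟨gdF S, gdF_neBot S, (gdJ L S s1), (gdF S).Germ B, inferInstance, inferInstance,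
    lm, rm, β, jj, lam, ?_, ?_, hjj, hlm, hrm, ?_, ?_, ?_⟩
  · constructor
    · intro b b' a; apply hjj; simp only [map_add, hlm, add_mul]
    · intro b a a'; apply hjj; simp only [map_add, hlm, mul_add]
    · intro b b' a; apply hjj; simp only [map_mul, hlm, mul_assoc]
    · intro a; apply hjj; simp only [map_one, hlm, one_mul]
    · intro a b b'; apply hjj; simp only [map_add, hrm, mul_add]
    · intro a a' b; apply hjj; simp only [map_add, hrm, add_mul]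
    · intro a b b'; apply hjj; simp only [map_mul, hrm, mul_assoc]
    · intro a; apply hjj; simp only [map_one, hrm, mul_one]
    · intro b a b'; apply hjj; simp only [hrm, hlm, mul_assoc]
    · intro b a a'; apply hjj; simp only [map_mul, hlm, mul_assoc]
    · intro a a' b; apply hjj; simp only [map_mul, hrm, mul_assoc]
    · intro a b a'; apply hjj; simp only [map_mul, hrm, hlm, mul_assoc]
  · rintro ⟨_, k, hk, h, rfl⟩ ⟨_, k', hk', h', rfl⟩
    obtain ⟨u, hu⟩ := gdR_weak s1 hk (le_max_left k k') h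
    obtain ⟨v, hv⟩ := gdR_weak s1 hk' (le_max_right k k') h'
    have hK : 0 < max k k' := lt_of_lt_of_le hk (le_max_left k k')
    obtain ⟨a, ha, ha'⟩ := gdJ_div s1 hs1 hK u
    obtain ⟨c, hc, hc'⟩ := gdJ_div s1 hs1 hK v
    refine ⟨⟨gdR s1 (max k k' * 4) (fun _ => 1), max k k' * 4, by omega, _, rfl⟩, ⟨a, ha⟩,
      ⟨c, hc⟩, ?_, ?_, ?_⟩
    · apply Subtype.ext
      show gdR s1 k h = a * _
      rw [hu, ha']
    · apply Subtype.ext
      show gdR s1 k' h' = c * _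
      rw [hv, hc']
    · intro w hw
      apply Subtype.ext
      exact gdJ_cancel hf hs1 hinj _ w.2 (congrArg Subtype.val hw)
  · intro l a
    have h1 : lm (f l) a = ⟨((fun _ => l : S × ℕ → L) : (gdF S).Germ L) * a,
        gdJ_constL s1 l a.2⟩ := by
      apply hjj
      rw [hlm, jjv, jjv]
      show _ = gdM S f (_ * _)
      rw [map_mul]
      rfl
    rw [h1]
    rfl
  · intro l a
    have h1 : rm a (f l) = ⟨a * ((fun _ => l : S × ℕ → L) : (gdF S).Germ L),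
        gdJ_constR s1 l a.2⟩ := by
      apply hjj
      rw [hrm, jjv, jjv]
      show _ = gdM S f (_ * _)
      rw [map_mul]
      rfl
    rw [h1]
    rfl
  · intro r
    refine ⟨⟨gdR s1 1 r, 1, one_pos, r, rfl⟩, ?_⟩
    show gdR s1 1 r = _
    unfold gdR
    congr 1
    funext t
    rw [Nat.div_one, mul_smul]

end statements

end Pool.Agent.Helper58.K2
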