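import Pool.Agent.Helper58.K2.Defs
import Pool.Agent.Helper58.K2.JSE

set_option autoImplicit false

namespace Pool.Agent.Helper58.K2

open Matrix Pool.Agent.Helper58.EN

section statements
variable {ι : Type} [Fintype ι] [DecidableEq ι]

theorem germ_equiv (h5 : 5 ≤ Fintype.card ι) {L B A G : Type} [Ring L] [Ring B] [NonUnitalRing A]
    [Group G] {lm : B → A → A} {rm : A → B → A} (bm : BM lm rm) (hU : HU A)
    (ρ : St ι B →* MulAut (St ι A))
    (hρ : ∀ i j, i ≠ j → ∀ b k l a, ¬(k = j ∧ l = i) →
      ρ (x i j b) (x k l a) = cX lm rm i j b k l a) (f : L →+* B)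
    (Θ : St ι A →* G) (X : ι → ι → L → G) (m : MR (fun l a => lm (f l) a)
      (fun a l => rm a (f l)) X (fun i j a => Θ (x i j a))) (α : St ι L) (ξ : St ι A) :
    Θ (ρ (mapR f α) ξ) = lift m.xs α * Θ ξ * (lift m.xs α)⁻¹ := by
  have key : ∀ (i j : ι) (l : L) (ξ : St ι A),
      Θ (ρ (x i j (f l)) ξ) = X i j l * Θ ξ * (X i j l)⁻¹ := by
    intro i j l ξ
    by_cases hij : i = j
    · subst hij
      rw [x_sr.diag, m.xs.diag]
      simp
    obtain ⟨m0, hm0⟩ : ∃ m0, m0 ∉ ({i, j} : Finset ι) := by
      by_contra hcon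
      push Not at hcon
      have h1 : (Finset.univ : Finset ι) ⊆ {i, j} := fun k _ => hcon k
      have h2 := Finset.card_le_card h1
      have h3 := Finset.card_le_two (a := i) (b := j)
      rw [Finset.card_univ] at h2
      omega
    simp only [Finset.mem_insert, Finset.mem_singleton, not_or] at hm0
    obtain ⟨hmi, hmj⟩ := hm0
    have hext : Θ.comp (ρ (x i j (f l))).toMonoidHom =
        (MulAut.conj (X i j l)).toMonoidHom.comp Θ := by
      apply star_ext h5 hU m0
      · intro k a
        change Θ (ρ (x i j (f l)) (x k m0 a)) = X i j l * Θ (x k m0 a) * (X i j l)⁻¹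
        rw [hρ i j hij (f l) k m0 a (fun h => hmi h.2)]
        unfold cX
        by_cases h1 : k = m0
        · rw [if_pos h1, h1, x_sr.diag, map_one]
          simp
        · rw [if_neg h1]
          by_cases h2 : k = j
          · rw [if_pos h2, h2, map_mul, m.cL i j m0 hij (Ne.symm hmj) (Ne.symm hmi)]
            exact m.ys.commute j m0 i m0 hmi (Ne.symm hmj) _ _
          · rw [if_neg h2, if_neg hmi, m.cC i j k m0 (Ne.symm h2) (Ne.symm hmi)]
      · intro k a
        change Θ (ρ (x i j (f l)) (x m0 k a)) = X i j l * Θ (x m0 k a) * (X i j l)⁻¹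
        rw [hρ i j hij (f l) m0 k a (fun h => hmj h.1)]
        unfold cX
        by_cases h1 : m0 = k
        · rw [if_pos h1, h1, x_sr.diag, map_one]
          simp
        · rw [if_neg h1, if_neg hmj]
          by_cases h2 : k = i
          · rw [if_pos h2, h2, map_mul, m.cR i j m0 hij hmi hmj]
            exact m.ys.commute m0 i m0 j (Ne.symm hmi) hmj _ _
          · rw [if_neg h2, m.cC i j m0 k (Ne.symm hmj) (Ne.symm h2)]
    exact DFunLike.congr_fun hext ξ
  induction α using St_induction generalizing ξ with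
  | h1 => simp
  | hx i j a g ih =>
    rw [map_mul, mapR_x, map_mul, MulAut.mul_apply, key, ih, map_mul, lift_x]
    group

end statements

end Pool.Agent.Helper58.K2
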