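import Pool.Agent.Helper58.K2.Defs

set_option autoImplicit false

namespace Pool.Agent.Helper58.K2

open Matrix Pool.Agent.Helper58.EN

section statements
variable {ι : Type} [Fintype ι] [DecidableEq ι]

theorem germ_St {T L : Type} [Ring L] (F : Filter T) :
    ∃ g : St ι (F.Germ L) →* F.Germ (St ι L), ∀ (i j : ι) (h : T → L),
      g (x i j (h : F.Germ L)) = ((fun t => x i j (h t) : T → St ι L) : F.Germ (St ι L)) := by
  have hsr : SR (fun (i j : ι) (l : F.Germ L) =>
      (Filter.Germ.map (x i j) l : F.Germ (St ι L))) := by
    constructor
    · intro i a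
      refine Filter.Germ.inductionOn a fun a => ?_
      change (((fun t => x i i (a t)) : T → St ι L) : F.Germ (St ι L)) =
        ((fun _ => 1 : T → St ι L) : F.Germ (St ι L))
      congr 1
      funext t
      exact x_sr.diag i _
    · intro i j a b
      refine Filter.Germ.inductionOn₂ a b fun a b => ?_
      change (((fun t => x i j (a t + b t)) : T → St ι L) : F.Germ (St ι L)) =
        ((fun t => x i j (a t) * x i j (b t) : T → St ι L) : F.Germ (St ι L))
      congr 1
      funext t
      exact x_sr.add i j _ _
    · intro i j k hij hjk hik a b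
      refine Filter.Germ.inductionOn₂ a b fun a b => ?_
      change (((fun t => x i j (a t) * x j k (b t) * (x i j (a t))⁻¹ * (x j k (b t))⁻¹) :
        T → St ι L) : F.Germ (St ι L)) =
        ((fun t => x i k (a t * b t) : T → St ι L) : F.Germ (St ι L))
      congr 1
      funext t
      exact x_sr.comm i j k hij hjk hik _ _
    · intro i j k l hjk hil a b
      refine Filter.Germ.inductionOn₂ a b fun a b => ?_
      change (((fun t => x i j (a t) * x k l (b t)) : T → St ι L) : F.Germ (St ι L)) =
        ((fun t => x k l (b t) * x i j (a t) : T → St ι L) : F.Germ (St ι L))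
      congr 1
      funext t
      exact x_sr.commute i j k l hjk hil _ _
  refine ⟨lift hsr, fun i j h => ?_⟩
  rw [lift_x]
  rfl

end statements

end Pool.Agent.Helper58.K2
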