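import Pool.Agent.Helper58.K2.Defs
import Pool.Agent.Helper58.EN.JC

set_option autoImplicit false

namespace Pool.Agent.Helper58.K2

open Matrix Pool.Agent.Helper58.EN

section statements
variable {ι : Type} [Fintype ι] [DecidableEq ι]

theorem lq_isUnit_of {B : Type} [Ring B] {x : B} (h1 : ∃ y, x * y = 1) (h2 : ∃ z, z * x = 1) :
    IsUnit x := by
  obtain ⟨y, hy⟩ := h1
  obtain ⟨z, hz⟩ := h2
  have : z = y := by
    calc z = z * (x * y) := by rw [hy, mul_one]
      _ = (z * x) * y := by rw [mul_assoc]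
      _ = y := by rw [hz, one_mul]
  subst this
  exact ⟨⟨x, z, hy, hz⟩, rfl⟩

theorem lq_lift_unit {B A : Type} [Ring B] [Ring A] (π : B →+* A) (hπ : Function.Surjective π)
    (hker : ∀ x, π x = 0 → IsUnit (1 + x)) (x : B) (hx : IsUnit (π x)) : IsUnit x := by
  obtain ⟨u, hu⟩ := hx
  obtain ⟨y, hy⟩ := hπ ((u⁻¹ : Aˣ) : A)
  have h1 : IsUnit (x * y) := by
    have := hker (x * y - 1) (by rw [map_sub, map_mul, ← hu, hy, map_one, Units.mul_inv, sub_self])
    rwa [add_sub_cancel] at this
  have h2 : IsUnit (y * x) := by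
    have := hker (y * x - 1) (by rw [map_sub, map_mul, ← hu, hy, map_one, Units.inv_mul, sub_self])
    rwa [add_sub_cancel] at this
  apply lq_isUnit_of
  · obtain ⟨v, hv⟩ := h1
    exact ⟨y * ((v⁻¹ : Bˣ) : B), by rw [← mul_assoc, ← hv, Units.mul_inv]⟩
  · obtain ⟨v, hv⟩ := h2
    exact ⟨((v⁻¹ : Bˣ) : B) * y, by rw [mul_assoc, ← hv, Units.inv_mul]⟩

theorem local_quot (O : Type) [CommRing O] [IsLocalRing O] (B : Type) [Ring B] [Algebra O B]
    [Module.Finite O B] : ∃ (A : Type) (_ : Ring A) (_ : IsSemisimpleRing A) (π : B →+* A),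
      Function.Surjective π ∧ ∀ a, π a = 0 → IsUnit (1 + a) := by
  let k := O ⧸ IsLocalRing.maximalIdeal O
  let _ : Field k := Ideal.Quotient.field _
  let A1 := TensorProduct O k B
  have hart : IsArtinianRing A1 := IsArtinianRing.of_finite k A1
  let π1 : B →+* A1 := (Algebra.TensorProduct.includeRight : B →ₐ[O] TensorProduct O k B).toRingHom
  have hπ1 : Function.Surjective π1 := by
    intro a
    induction a using TensorProduct.induction_on with
    | zero => exact ⟨0, map_zero π1⟩
    | tmul c b =>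
      obtain ⟨c, rfl⟩ := Ideal.Quotient.mk_surjective c
      refine ⟨c • b, ?_⟩
      show TensorProduct.tmul O (1 : k) (c • b) = _
      rw [TensorProduct.tmul_smul, TensorProduct.smul_tmul']
      congr 1
      rw [Algebra.smul_def, mul_one]
      rfl
    | add x y hx hy =>
      obtain ⟨a, rfl⟩ := hx
      obtain ⟨b, rfl⟩ := hy
      exact ⟨a + b, map_add π1 a b⟩
  have hker1 : ∀ x, π1 x = 0 → IsUnit (1 + x) := by
    intro x hx
    apply ec_nak O x
    have h1 : TensorProduct.tmul O (1 : k) x = 0 := hx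
    have h2 := TensorProduct.quotTensorEquivQuotSMul_mk_tmul (M := B) (IsLocalRing.maximalIdeal O) 1 x
    rw [map_one, one_smul] at h2
    rw [h1, map_zero] at h2
    exact (Submodule.Quotient.mk_eq_zero _).1 h2.symm
  refine ⟨A1 ⧸ Ring.jacobson A1, inferInstance, inferInstance,
    (Ideal.Quotient.mk (Ring.jacobson A1)).comp π1, Ideal.Quotient.mk_surjective.comp hπ1, ?_⟩
  intro a ha
  have hx : π1 a ∈ Ring.jacobson A1 := Ideal.Quotient.eq_zero_iff_mem.1 ha
  have hnil : IsNilpotent (Ring.jacobson A1) := IsSemiprimaryRing.isNilpotent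
  obtain ⟨m, hm⟩ := hnil
  have hn : IsNilpotent (π1 a) := ⟨m, by
    have := Ideal.pow_mem_pow hx m
    rw [hm] at this
    exact this⟩
  have hu : IsUnit (π1 (1 + a)) := by
    rw [map_add, map_one]
    exact hn.isUnit_one_add
  exact lq_lift_unit π1 hπ1 hker1 _ hu

end statements

end Pool.Agent.Helper58.K2
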