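import Pool.Agent.Helper58.K2.Defs

set_option autoImplicit false

namespace Pool.Agent.Helper58.K2

open Matrix Pool.Agent.Helper58.EN

section statements
variable {ι : Type} [Fintype ι] [DecidableEq ι]

theorem ker_map {R Q : Type} [Ring R] [Ring Q] (π : R →+* Q) (hπ : Function.Surjective π)
    (g : St ι R) (hg : mapR π g = 1) :
    g ∈ Subgroup.normalClosure {g : St ι R | ∃ i j, ∃ a, π a = 0 ∧ g = x i j a} := by
  classical
  set N := Subgroup.normalClosure {g : St ι R | ∃ i j, ∃ a, π a = 0 ∧ g = x i j a} with hN
  let s := Function.surjInv hπ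
  have hs : ∀ q, π (s q) = q := Function.surjInv_eq hπ
  have key : ∀ i j a b, π a = π b →
      QuotientGroup.mk' N (x i j a) = QuotientGroup.mk' N (x i j b) := by
    intro i j a b hab
    have h0 : a = (a - b) + b := by abel
    rw [h0, x_sr.add, map_mul]
    have h1 : (QuotientGroup.mk' N) (x i j (a-b)) = 1 := by
      rw [QuotientGroup.mk'_apply, QuotientGroup.eq_one_iff]
      exact Subgroup.subset_normalClosure ⟨i, j, a-b, by rw [map_sub, hab, sub_self], rfl⟩
    rw [h1, one_mul]
  have hX : SR (fun (i j : ι) (q : Q) => QuotientGroup.mk' N (x i j (s q))) :=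
    { diag := fun i a => by
        rw [x_sr.diag, map_one]
      add := fun i j a b => by
        rw [← map_mul, ← x_sr.add]
        exact key _ _ _ _ (by rw [map_add, hs, hs, hs])
      comm := fun i j k hij hjk hik a b => by
        rw [← map_inv, ← map_inv, ← map_mul, ← map_mul, ← map_mul, x_sr.comm i j k hij hjk hik]
        exact key _ _ _ _ (by rw [map_mul, hs, hs, hs])
      commute := fun i j k l hjk hil a b => by
        rw [← map_mul, ← map_mul, x_sr.commute i j k l hjk hil] }
  have hcomp : (lift hX).comp (mapR π) = QuotientGroup.mk' N := by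
    apply hom_ext
    intro i j a
    simp only [MonoidHom.comp_apply, mapR_x, lift_x]
    exact key _ _ _ _ (hs _)
  have h2 : QuotientGroup.mk' N g = 1 := by
    rw [← hcomp, MonoidHom.comp_apply, hg, map_one]
  rwa [QuotientGroup.mk'_apply, QuotientGroup.eq_one_iff] at h2

end statements

end Pool.Agent.Helper58.K2
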