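import Pool.Agent.Helper58.K2.Defs

set_option autoImplicit false

namespace Pool.Agent.Helper58.K2

open Matrix Pool.Agent.Helper58.EN

section statements
variable {ι : Type} [Fintype ι] [DecidableEq ι]

/-- the subgroup generated by the conjugates `z`. -/
def zW (ι : Type) [Fintype ι] [DecidableEq ι] {R : Type} [Ring R] (J : Ideal R) :
    Subgroup (St ι R) :=
  Subgroup.closure {g : St ι R | ∃ i j, i ≠ j ∧ ∃ a ∈ J, ∃ t : R,
        g = x j i t * x i j a * (x j i t)⁻¹}

theorem zW_z {R : Type} [Ring R] (J : Ideal R) (i j : ι) (hij : i ≠ j) (a : R) (ha : a ∈ J)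
    (t : R) : x j i t * x i j a * (x j i t)⁻¹ ∈ zW ι J :=
  Subgroup.subset_closure ⟨i, j, hij, a, ha, t, rfl⟩

theorem zW_x {R : Type} [Ring R] (J : Ideal R) (i j : ι) (a : R) (ha : a ∈ J) :
    x i j a ∈ zW ι J := by
  by_cases h : i = j
  · subst h
    rw [x_sr.diag]
    exact Subgroup.one_mem _
  · have := zW_z J i j h a ha 0
    rw [x_sr.zero] at this
    simpa using this

theorem zW_4b {R : Type} [Ring R] (J : Ideal R) [J.IsTwoSided] (i j p : ι) (hij : i ≠ j)
    (hpi : p ≠ i) (hpj : p ≠ j) (a : R) (ha : a ∈ J) (t b : R) :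
    x j p b * (x j i t * x i j a * (x j i t)⁻¹) * (x j p b)⁻¹ ∈ zW ι J := by
  have e : x j p b * (x j i t * x i j a * (x j i t)⁻¹) * (x j p b)⁻¹ =
      (x j p b * x j i t * (x j p b)⁻¹) * (x j p b * x i j a * (x j p b)⁻¹) *
        (x j p b * x j i t * (x j p b)⁻¹)⁻¹ := by group
  rw [e, x_sr.conjC j p j i hpj hij.symm, x_sr.conjR j p i hpj.symm hij hpi.symm]
  have e2 : x j i t * (x i p (-(a * b)) * x i j a) * (x j i t)⁻¹ =
      (x j i t * x i p (-(a * b)) * (x j i t)⁻¹) * (x j i t * x i j a * (x j i t)⁻¹) := by group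
  rw [e2, x_sr.conjL j i p hij.symm hpi.symm hpj.symm]
  have h1 : -(a * b) ∈ J := J.neg_mem (J.mul_mem_right b ha)
  exact Subgroup.mul_mem _ (Subgroup.mul_mem _ (zW_x J _ _ _ (J.mul_mem_left t h1))
    (zW_x J _ _ _ h1)) (zW_z J i j hij a ha t)

theorem zW_4a {R : Type} [Ring R] (J : Ideal R) [J.IsTwoSided] (i j p : ι) (hij : i ≠ j)
    (hpi : p ≠ i) (hpj : p ≠ j) (a : R) (ha : a ∈ J) (t b : R) :
    x i p b * (x j i t * x i j a * (x j i t)⁻¹) * (x i p b)⁻¹ ∈ zW ι J := by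
  have e : x i p b * (x j i t * x i j a * (x j i t)⁻¹) * (x i p b)⁻¹ =
      (x i p b * x j i t * (x i p b)⁻¹) * (x i p b * x i j a * (x i p b)⁻¹) *
        (x i p b * x j i t * (x i p b)⁻¹)⁻¹ := by group
  rw [e, x_sr.conjC i p i j hpi hij, x_sr.conjR i p j hpi.symm hij.symm hpj.symm]
  have e2 : x j p (-(t * b)) * x j i t * x i j a * (x j p (-(t * b)) * x j i t)⁻¹ =
      x j p (-(t * b)) * (x j i t * x i j a * (x j i t)⁻¹) * (x j p (-(t * b)))⁻¹ := by group
  rw [e2]
  exact zW_4b J i j p hij hpi hpj a ha t _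

theorem zW_4c {R : Type} [Ring R] (J : Ideal R) [J.IsTwoSided] (i j p : ι) (hij : i ≠ j)
    (hpi : p ≠ i) (hpj : p ≠ j) (a : R) (ha : a ∈ J) (t b : R) :
    x p i b * (x j i t * x i j a * (x j i t)⁻¹) * (x p i b)⁻¹ ∈ zW ι J := by
  have e : x p i b * (x j i t * x i j a * (x j i t)⁻¹) * (x p i b)⁻¹ =
      (x p i b * x j i t * (x p i b)⁻¹) * (x p i b * x i j a * (x p i b)⁻¹) *
        (x p i b * x j i t * (x p i b)⁻¹)⁻¹ := by group
  rw [e, x_sr.conjC p i j i hij hpi, x_sr.conjL p i j hpi hij hpj]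
  have e2 : x j i t * (x p j (b * a) * x i j a) * (x j i t)⁻¹ =
      (x j i t * x p j (b * a) * (x j i t)⁻¹) * (x j i t * x i j a * (x j i t)⁻¹) := by group
  rw [e2, x_sr.conjR j i p hij.symm hpj hpi]
  have h1 : b * a ∈ J := J.mul_mem_left b ha
  exact Subgroup.mul_mem _ (Subgroup.mul_mem _
    (zW_x J _ _ _ (J.neg_mem (J.mul_mem_right t h1)))
    (zW_x J _ _ _ h1)) (zW_z J i j hij a ha t)

theorem zW_4d {R : Type} [Ring R] (J : Ideal R) [J.IsTwoSided] (i j p : ι) (hij : i ≠ j)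
    (hpi : p ≠ i) (hpj : p ≠ j) (a : R) (ha : a ∈ J) (t b : R) :
    x p j b * (x j i t * x i j a * (x j i t)⁻¹) * (x p j b)⁻¹ ∈ zW ι J := by
  have e : x p j b * (x j i t * x i j a * (x j i t)⁻¹) * (x p j b)⁻¹ =
      (x p j b * x j i t * (x p j b)⁻¹) * (x p j b * x i j a * (x p j b)⁻¹) *
        (x p j b * x j i t * (x p j b)⁻¹)⁻¹ := by group
  rw [e, x_sr.conjC p j i j hij.symm hpj, x_sr.conjL p j i hpj hij.symm hpi]
  have e2 : x p i (b * t) * x j i t * x i j a * (x p i (b * t) * x j i t)⁻¹ =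
      x p i (b * t) * (x j i t * x i j a * (x j i t)⁻¹) * (x p i (b * t))⁻¹ := by group
  rw [e2]
  exact zW_4c J i j p hij hpi hpj a ha t _

theorem zW_v {R : Type} [Ring R] (J : Ideal R) [J.IsTwoSided] (i j p : ι) (hij : i ≠ j)
    (hpi : p ≠ i) (hpj : p ≠ j) (s s' : R) (c d : R) (hc : c ∈ J) (hd : d ∈ J) :
    (x p i s * x p j s') * (x i p c * x j p d) * (x p i s * x p j s')⁻¹ ∈ zW ι J := by
  have hcm : x p i s * x p j s' = (x p j s' * x p i s : St ι R) :=
    x_sr.commute p i p j hpi.symm hpj _ _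
  have e : (x p i s * x p j s') * (x i p c * x j p d) * (x p i s * x p j s')⁻¹ =
      ((x p i s * x p j s') * x i p c * (x p i s * x p j s')⁻¹) *
      (x p i s * (x p j s' * x j p d * (x p j s')⁻¹) * (x p i s)⁻¹) := by group
  have e2 : (x p i s * x p j s') * x i p c * (x p i s * x p j s')⁻¹ =
      x p j s' * (x p i s * x i p c * (x p i s)⁻¹) * (x p j s')⁻¹ := by
    rw [hcm]; group
  rw [e, e2]
  exact Subgroup.mul_mem _ (zW_4b J i p j hpi.symm hij.symm hpj.symm c hc s s')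
    (zW_4b J j p i hpj.symm hij hpi.symm d hd s' s)

theorem zW_3 {R : Type} [Ring R] (J : Ideal R) [J.IsTwoSided] (i j p : ι) (hij : i ≠ j)
    (hpi : p ≠ i) (hpj : p ≠ j) (a : R) (ha : a ∈ J) (t b : R) :
    x i j b * (x j i t * x i j a * (x j i t)⁻¹) * (x i j b)⁻¹ ∈ zW ι J := by
  have h0 : x i j a = (x i p a * x p j 1 * (x i p a)⁻¹ * (x p j 1)⁻¹ : St ι R) := by
    rw [x_sr.comm i p j hpi.symm hpj hij, mul_one]
  have e : x i j b * (x j i t * x i j a * (x j i t)⁻¹) * (x i j b)⁻¹ =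
      (x i j b * (x j i t * x i p a * (x j i t)⁻¹) * (x i j b)⁻¹) *
      (x i j b * (x j i t * x p j 1 * (x j i t)⁻¹) * (x i j b)⁻¹) *
      (x i j b * (x j i t * x i p a * (x j i t)⁻¹) * (x i j b)⁻¹)⁻¹ *
      (x i j b * (x j i t * x p j 1 * (x j i t)⁻¹) * (x i j b)⁻¹)⁻¹ := by
    conv_lhs => rw [h0]
    group
  have hu : x i j b * (x j i t * x i p a * (x j i t)⁻¹) * (x i j b)⁻¹ =
      (x i p (a + b * (t * a)) * x j p (t * a) : St ι R) := by
    rw [x_sr.conjL j i p hij.symm hpi.symm hpj.symm]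
    have e1 : x i j b * (x j p (t * a) * x i p a) * (x i j b)⁻¹ =
      (x i j b * x j p (t * a) * (x i j b)⁻¹) * ((x i j b * x i p a * (x i j b)⁻¹) : St ι R) := by
      group
    rw [e1, x_sr.conjL i j p hij hpj.symm hpi.symm, x_sr.conjC i j i p hij.symm hpi.symm,
      mul_assoc, x_sr.commute j p i p hpi hpj.symm, ← mul_assoc, ← x_sr.add, add_comm]
  have hv : x i j b * (x j i t * x p j 1 * (x j i t)⁻¹) * (x i j b)⁻¹ =
      (x p i (-(1 * t)) * x p j (1 + -(-(1 * t) * b)) : St ι R) := by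
    rw [x_sr.conjR j i p hij.symm hpj hpi]
    have e1 : x i j b * (x p i (-(1 * t)) * x p j 1) * (x i j b)⁻¹ =
      (x i j b * x p i (-(1 * t)) * (x i j b)⁻¹) *
        ((x i j b * x p j 1 * (x i j b)⁻¹) : St ι R) := by
      group
    rw [e1, x_sr.conjR i j p hij hpi hpj, x_sr.conjC i j p j hpj.symm hij,
      x_sr.commute p j p i hpj.symm hpi, mul_assoc, ← x_sr.add, add_comm]
  rw [e, hu, hv]
  set u : St ι R := x i p (a + b * (t * a)) * x j p (t * a) with hudef
  set v : St ι R := x p i (-(1 * t)) * x p j (1 + -(-(1 * t) * b)) with hvdef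
  have e3 : u * v * u⁻¹ * v⁻¹ = u * (v * u * v⁻¹)⁻¹ := by group
  rw [e3]
  have h1 : t * a ∈ J := J.mul_mem_left t ha
  have h2 : a + b * (t * a) ∈ J := J.add_mem ha (J.mul_mem_left b h1)
  exact Subgroup.mul_mem _ (Subgroup.mul_mem _ (zW_x J _ _ _ h2) (zW_x J _ _ _ h1))
    (Subgroup.inv_mem _ (zW_v J i j p hij hpi hpj _ _ _ _ h2 h1))

theorem zW_gen (h3 : 3 ≤ Fintype.card ι) {R : Type} [Ring R] (J : Ideal R) [J.IsTwoSided]
    (k l : ι) (b : R) (i j : ι) (hij : i ≠ j) (a : R) (ha : a ∈ J) (t : R) :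
    x k l b * (x j i t * x i j a * (x j i t)⁻¹) * (x k l b)⁻¹ ∈ zW ι J := by
  by_cases hkl : k = l
  · subst hkl
    rw [x_sr.diag k b]
    simpa using zW_z J i j hij a ha t
  by_cases hki : k = i
  · subst hki
    by_cases hlj : l = j
    · subst hlj
      obtain ⟨p, hp⟩ : ∃ p : ι, p ∉ ({k, l} : Finset ι) := by
        by_contra hcon
        push Not at hcon
        have h1 : (Finset.univ : Finset ι) ⊆ {k, l} := fun p _ => hcon p
        have h2 := Finset.card_le_card h1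
        have h4 : ({k, l} : Finset ι).card ≤ 2 := Finset.card_le_two
        rw [Finset.card_univ] at h2
        omega
      simp only [Finset.mem_insert, Finset.mem_singleton, not_or] at hp
      exact zW_3 J k l p hij hp.1 hp.2 a ha t b
    · exact zW_4a J k j l hij (Ne.symm hkl) hlj a ha t b
  by_cases hkj : k = j
  · subst hkj
    by_cases hli : l = i
    · subst hli
      have e : x k l b * (x k l t * x l k a * (x k l t)⁻¹) * (x k l b)⁻¹ =
        (x k l b * x k l t) * x l k a * (x k l b * x k l t)⁻¹ := by group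
      rw [e, ← x_sr.add]
      exact zW_z J l k hij a ha _
    · exact zW_4b J i k l hij hli (Ne.symm hkl) a ha t b
  by_cases hli : l = i
  · subst hli
    exact zW_4c J l j k hij hkl hkj a ha t b
  by_cases hlj : l = j
  · subst hlj
    exact zW_4d J i l k hij hki hkl a ha t b
  have e : x k l b * (x j i t * x i j a * (x j i t)⁻¹) * (x k l b)⁻¹ =
      (x k l b * x j i t * (x k l b)⁻¹) * (x k l b * x i j a * (x k l b)⁻¹) *
        (x k l b * x j i t * (x k l b)⁻¹)⁻¹ := by group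
  rw [e, x_sr.conjC k l j i hlj hki, x_sr.conjC k l i j hli hkj]
  exact zW_z J i j hij a ha t

theorem zW_norm (h3 : 3 ≤ Fintype.card ι) {R : Type} [Ring R] (J : Ideal R) [J.IsTwoSided] :
    (zW ι J).Normal := by
  constructor
  intro n hn g
  induction g using St_induction with
  | h1 => simpa using hn
  | hx k l b g ih =>
    have e : x k l b * g * n * (x k l b * g)⁻¹ = x k l b * (g * n * g⁻¹) * (x k l b)⁻¹ := by
      group
    rw [e]
    generalize g * n * g⁻¹ = m at ih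
    unfold zW at ih
    induction ih using Subgroup.closure_induction with
    | mem y hy =>
      obtain ⟨i, j, hij, a, ha, t, rfl⟩ := hy
      exact zW_gen h3 J k l b i j hij a ha t
    | one => simpa using Subgroup.one_mem (zW ι J)
    | mul y z _ _ hy hz =>
      have e : x k l b * (y * z) * (x k l b)⁻¹ =
        (x k l b * y * (x k l b)⁻¹) * (x k l b * z * (x k l b)⁻¹) := by group
      rw [e]
      exact Subgroup.mul_mem _ hy hz
    | inv y _ hy =>
      have e : x k l b * y⁻¹ * (x k l b)⁻¹ = (x k l b * y * (x k l b)⁻¹)⁻¹ := by group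
      rw [e]
      exact Subgroup.inv_mem _ hy

theorem zlem (h3 : 3 ≤ Fintype.card ι) {R : Type} [Ring R] (J : Ideal R) [J.IsTwoSided] :
    Subgroup.normalClosure {g : St ι R | ∃ i j, ∃ a ∈ J, g = x i j a} ≤
      Subgroup.closure {g : St ι R | ∃ i j, i ≠ j ∧ ∃ a ∈ J, ∃ t : R,
        g = x j i t * x i j a * (x j i t)⁻¹} := by
  have hN : (zW ι J).Normal := zW_norm h3 J
  have h1 : Subgroup.normalClosure {g : St ι R | ∃ i j, ∃ a ∈ J, g = x i j a} ≤ zW ι J := by
    apply Subgroup.normalClosure_le_normal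
    rintro g ⟨i, j, a, ha, rfl⟩
    exact zW_x J i j a ha
  exact h1

end statements

end Pool.Agent.Helper58.K2
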