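import Pool.Agent.Helper58.K2.Defs
import Pool.Agent.Helper58.K2.JNN
import Pool.Agent.Helper58.K2.JV
import Pool.Agent.Helper58.K2.JV2
import Pool.Agent.Helper58.K2.JZL

set_option autoImplicit false

namespace Pool.Agent.Helper58.K2

open Matrix Pool.Agent.Helper58.EN

section statements
variable {ι : Type} [Fintype ι] [DecidableEq ι]

theorem radK_hh_eq {R : Type} [Ring R] (i j : ι) (p q : R) (u : Rˣ) :
    (x i j p : St ι R) * x j i q
      = x j i (q * ((u⁻¹ : Rˣ) : R)) * hh x i j p q u * x i j (((u⁻¹ : Rˣ) : R) * p) := by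
  unfold hh
  rw [x_sr.neg, x_sr.neg]
  group

theorem radK_colN {R : Type} [Ring R] (j k : ι) (hkj : k ≠ j) (b : R) (w : ι → R) (hw : w k = 0) :
    x j k b * cv x j w * (x j k b)⁻¹
      ∈ N0 (x : ι → ι → R → St ι R) j ⊔ col x j (Set.univ : Set R) := by
  have hfac : ∀ i, x j k b * x i j (w i) * (x j k b)⁻¹
      ∈ N0 (x : ι → ι → R → St ι R) j ⊔ col x j (Set.univ : Set R) := by
    intro i
    by_cases hij : i = j
    · subst hij
      rw [x_sr.diag, mul_one, mul_inv_cancel]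
      exact one_mem _
    by_cases hik : i = k
    · subst hik
      rw [hw, x_sr.zero, mul_one, mul_inv_cancel]
      exact one_mem _
    rw [x_sr.conjR j k i (Ne.symm hkj) hij hik]
    apply mul_mem
    · apply (le_sup_left : N0 (x : ι → ι → R → St ι R) j ≤ _)
      exact Subgroup.subset_closure (Or.inl ⟨i, k, hij, hkj, _, rfl⟩)
    · apply (le_sup_right : col x j (Set.univ : Set R) ≤ _)
      exact Subgroup.subset_closure ⟨i, w i, Set.mem_univ _, rfl⟩
  have hprod : ∀ l : List ι, x j k b * (l.map (fun i => (x i j (w i) : St ι R))).prod * (x j k b)⁻¹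
      ∈ N0 (x : ι → ι → R → St ι R) j ⊔ col x j (Set.univ : Set R) := by
    intro l
    induction l with
    | nil => simp
    | cons y ys ih =>
      rw [List.map_cons, List.prod_cons]
      have : x j k b * (x y j (w y) * (ys.map (fun i => (x i j (w i) : St ι R))).prod) * (x j k b)⁻¹
          = (x j k b * x y j (w y) * (x j k b)⁻¹)
            * (x j k b * (ys.map (fun i => (x i j (w i) : St ι R))).prod * (x j k b)⁻¹) := by
        group
      rw [this]
      exact mul_mem (hfac y) ih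
  exact hprod _

theorem radK (h3 : 3 ≤ Fintype.card ι) {R : Type} [Ring R] (J : Ideal R) [J.IsTwoSided]
    (hJ : ∀ a ∈ J, IsUnit (1 + a)) (j : ι) :
    ∀ γ ∈ Subgroup.normalClosure {g : St ι R | ∃ i k, ∃ a ∈ J, g = x i k a},
      ∃ r ∈ row x j (J : Set R), ∃ ν ∈ N0 (x : ι → ι → R → St ι R) j,
        ∃ c ∈ col x j (Set.univ : Set R), γ = r * ν * c := by
  have htop : ((⊤ : Ideal R) : Set R) = Set.univ := rfl
  have hNC : ∀ g ∈ N0 (x : ι → ι → R → St ι R) j, ∀ y ∈ col x j (Set.univ : Set R),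
      g * y * g⁻¹ ∈ col x j (Set.univ : Set R) := by
    intro g hg y hy
    have := (N0_norm_x h3 (⊤ : Ideal R) j g hg).1
    rw [htop] at this
    exact this y hy
  have hNR : ∀ g ∈ N0 (x : ι → ι → R → St ι R) j, ∀ y ∈ row x j (J : Set R),
      g * y * g⁻¹ ∈ row x j (J : Set R) := fun g hg => (N0_norm_x h3 J j g hg).2
  have hNC' : ∀ g ∈ N0 (x : ι → ι → R → St ι R) j, ∀ y ∈ col x j (Set.univ : Set R),
      g⁻¹ * y * g ∈ col x j (Set.univ : Set R) := by
    intro g hg y hy
    have := hNC g⁻¹ (inv_mem hg) y hy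
    rwa [inv_inv] at this
  -- elements of `N ⊔ C`
  have hsup : ∀ g ∈ N0 (x : ι → ι → R → St ι R) j ⊔ col x j (Set.univ : Set R),
      ∃ ν ∈ N0 (x : ι → ι → R → St ι R) j, ∃ c ∈ col x j (Set.univ : Set R), g = ν * c := by
    intro g hg
    have hle : N0 (x : ι → ι → R → St ι R) j
        ≤ Subgroup.normalizer (col x j (Set.univ : Set R) : Subgroup (St ι R)) := by
      intro g hg
      rw [Subgroup.mem_normalizer_iff]
      intro y
      constructor
      · exact hNC g hg y
      · intro h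
        have := hNC' g hg _ h
        have e : g⁻¹ * (g * y * g⁻¹) * g = y := by group
        rwa [e] at this
    have hc := Subgroup.coe_mul_of_left_le_normalizer_right _ _ hle
    have hg' : g ∈ ((N0 (x : ι → ι → R → St ι R) j ⊔ col x j (Set.univ : Set R) :
        Subgroup (St ι R)) : Set (St ι R)) := hg
    rw [hc] at hg'
    obtain ⟨ν, hν, c, hc', rfl⟩ := Set.mem_mul.mp hg'
    exact ⟨ν, hν, c, hc', rfl⟩
  have hrow : ∀ k, ∀ a ∈ J, (x j k a : St ι R) ∈ row x j (J : Set R) :=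
    fun k a ha => Subgroup.subset_closure ⟨k, a, ha, rfl⟩
  have hcol : ∀ k, ∀ a : R, (x k j a : St ι R) ∈ col x j (Set.univ : Set R) :=
    fun k a => Subgroup.subset_closure ⟨k, a, Set.mem_univ _, rfl⟩
  -- key step
  have hkey : ∀ c ∈ col x j (Set.univ : Set R), ∀ k, ∀ a ∈ J,
      ∃ r ∈ row x j (J : Set R), ∃ ν ∈ N0 (x : ι → ι → R → St ι R) j,
        ∃ c' ∈ col x j (Set.univ : Set R), c * x j k a = r * ν * c' := by
    intro c hc k a ha
    by_cases hkj : k = j
    · subst hkj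
      refine ⟨1, one_mem _, 1, one_mem _, c, hc, ?_⟩
      rw [x_sr.diag]; group
    have hc' := hc
    have hmc := mem_col (x_sr : SR (x : ι → ι → R → St ι R)) j (⊤ : AddSubgroup R) c
    have htop' : (((⊤ : AddSubgroup R) : AddSubgroup R) : Set R) = Set.univ := rfl
    rw [htop'] at hmc
    obtain ⟨v, -, rfl⟩ := hmc.mp hc
    obtain ⟨u, hu⟩ := hJ (v k * a) (J.mul_mem_left _ ha)
    have hv : v = Function.update v k 0 + Pi.single k (v k) := by
      funext i
      by_cases hik : i = k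
      · subst hik; simp
      · simp [hik]
    have hcv : (cv x j v : St ι R) = cv x j (Function.update v k 0) * x k j (v k) := by
      conv_lhs => rw [hv]
      rw [cv_add x_sr, cv_single x_sr]
    have ha' : a * ((u⁻¹ : Rˣ) : R) ∈ J := J.mul_mem_right _ ha
    have hE := radK_colN j k hkj (-(a * ((u⁻¹ : Rˣ) : R))) (Function.update v k 0) (by simp)
    rw [x_sr.neg, inv_inv] at hE
    obtain ⟨ν, hν, c'', hc'', hEe⟩ := hsup _ hE
    have hh1 : hh x k j (v k) a u ∈ N0 (x : ι → ι → R → St ι R) j :=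
      Subgroup.subset_closure (Or.inr ⟨k, hkj, v k, a, u, hu, Or.inl rfl⟩)
    refine ⟨x j k (a * ((u⁻¹ : Rˣ) : R)), hrow k _ ha', ν * hh x k j (v k) a u,
      mul_mem hν hh1, ((hh x k j (v k) a u)⁻¹ * c'' * hh x k j (v k) a u)
        * x k j (((u⁻¹ : Rˣ) : R) * v k), mul_mem (hNC' _ hh1 _ hc'') (hcol _ _), ?_⟩
    have h1 : cv x j v * x j k a = cv x j (Function.update v k 0) * (x k j (v k) * x j k a) := by
      rw [hcv, mul_assoc]
    rw [h1, radK_hh_eq k j (v k) a u]
    have h2 : cv x j (Function.update v k 0)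
        = x j k (a * ((u⁻¹ : Rˣ) : R)) * (ν * c'') * (x j k (a * ((u⁻¹ : Rˣ) : R)))⁻¹ := by
      rw [← hEe]; group
    rw [h2]
    group
  -- the generating set
  intro γ hγ
  set S : Set (St ι R) := {g | ∃ k, ∃ a ∈ J, g = x j k a} ∪
    ((N0 (x : ι → ι → R → St ι R) j : Set (St ι R)) ∪ (col x j (Set.univ : Set R) : Set (St ι R)))
    with hS
  have hγS : γ ∈ Subgroup.closure S := by
    have h1 := zlem h3 J hγ
    refine (Subgroup.closure_le _).mpr ?_ h1
    rintro g ⟨i, k, hik, a, ha, t, rfl⟩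
    have mN : ∀ y ∈ N0 (x : ι → ι → R → St ι R) j, y ∈ Subgroup.closure S :=
      fun y hy => Subgroup.subset_closure (Or.inr (Or.inl hy))
    have mC : ∀ y ∈ col x j (Set.univ : Set R), y ∈ Subgroup.closure S :=
      fun y hy => Subgroup.subset_closure (Or.inr (Or.inr hy))
    have mR : ∀ k, ∀ a ∈ J, (x j k a : St ι R) ∈ Subgroup.closure S :=
      fun k a ha => Subgroup.subset_closure (Or.inl ⟨k, a, ha, rfl⟩)
    show x k i t * x i k a * (x k i t)⁻¹ ∈ Subgroup.closure S
    by_cases hij : i = j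
    · subst hij
      exact mul_mem (mul_mem (mC _ (hcol k t)) (mR k a ha)) (inv_mem (mC _ (hcol k t)))
    by_cases hkj : k = j
    · subst hkj
      obtain ⟨u, hu⟩ := hJ (t * a) (J.mul_mem_left _ ha)
      have hh1 : hh x k i t a u ∈ N0 (x : ι → ι → R → St ι R) k :=
        Subgroup.subset_closure (Or.inr ⟨i, hij, t, a, u, hu, Or.inr rfl⟩)
      have hmem : ((u⁻¹ : Rˣ) : R) * t + -t ∈ J := by
        have e1 : ((u⁻¹ : Rˣ) : R) * t + -t = -(((u⁻¹ : Rˣ) : R) * (t * a) * t) := by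
          have e2 : ((u⁻¹ : Rˣ) : R) * (1 + t * a) = 1 := by rw [← hu]; simp
          have e3 : ((u⁻¹ : Rˣ) : R) * (t * a) = 1 - ((u⁻¹ : Rˣ) : R) := by
            rw [mul_add, mul_one] at e2
            rw [eq_sub_iff_add_eq, add_comm]; exact e2
          rw [e3, sub_mul, one_mul]
          abel
        rw [e1]
        exact J.neg_mem (J.mul_mem_right _ (J.mul_mem_left _ (J.mul_mem_left _ ha)))
      have e : x k i t * x i k a * (x k i t)⁻¹
          = x i k (a * ((u⁻¹ : Rˣ) : R)) * hh x k i t a u * x k i (((u⁻¹ : Rˣ) : R) * t + -t) := by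
        rw [radK_hh_eq k i t a u, x_sr.add, x_sr.neg]
        group
      rw [e]
      exact mul_mem (mul_mem (mC _ (hcol i _)) (mN _ hh1)) (mR i _ hmem)
    · have n1 : (x k i t : St ι R) ∈ N0 (x : ι → ι → R → St ι R) j :=
        Subgroup.subset_closure (Or.inl ⟨k, i, hkj, hij, t, rfl⟩)
      have n2 : (x i k a : St ι R) ∈ N0 (x : ι → ι → R → St ι R) j :=
        Subgroup.subset_closure (Or.inl ⟨i, k, hij, hkj, a, rfl⟩)
      exact mN _ (mul_mem (mul_mem n1 n2) (inv_mem n1))
  have hinvS : ∀ y ∈ S, y⁻¹ ∈ S := by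
    rintro y (⟨k, a, ha, rfl⟩ | hy | hy)
    · exact Or.inl ⟨k, -a, J.neg_mem ha, (x_sr.neg j k a).symm⟩
    · exact Or.inr (Or.inl (inv_mem hy))
    · exact Or.inr (Or.inr (inv_mem hy))
  have hstep : ∀ g : St ι R, (∃ r ∈ row x j (J : Set R), ∃ ν ∈ N0 (x : ι → ι → R → St ι R) j,
        ∃ c ∈ col x j (Set.univ : Set R), g = r * ν * c) → ∀ y ∈ S,
      ∃ r ∈ row x j (J : Set R), ∃ ν ∈ N0 (x : ι → ι → R → St ι R) j,
        ∃ c ∈ col x j (Set.univ : Set R), g * y = r * ν * c := by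
    rintro g ⟨r, hr, ν, hν, c, hc, rfl⟩ y (⟨k, a, ha, rfl⟩ | hy | hy)
    · obtain ⟨r', hr', ν', hν', c', hc', e⟩ := hkey c hc k a ha
      refine ⟨r * (ν * r' * ν⁻¹), mul_mem hr (hNR ν hν r' hr'), ν * ν', mul_mem hν hν', c', hc', ?_⟩
      rw [mul_assoc (r * ν) c, e]
      group
    · refine ⟨r, hr, ν * y, mul_mem hν hy, y⁻¹ * c * y, hNC' y hy c hc, ?_⟩
      group
    · exact ⟨r, hr, ν, hν, c * y, mul_mem hc hy, by group⟩
  clear hγ
  induction hγS using Subgroup.closure_induction_right with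
  | one => exact ⟨1, one_mem _, 1, one_mem _, 1, one_mem _, by group⟩
  | mul_right g hg y hy ih => exact hstep g ih y hy
  | mul_inv_cancel g hg y hy ih => exact hstep g ih _ (hinvS y hy)

end statements

end Pool.Agent.Helper58.K2
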