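import Pool.Agent.Helper58.K2.Defs

set_option autoImplicit false

namespace Pool.Agent.Helper58.K2

open Matrix Pool.Agent.Helper58.EN

section statements
variable {ι : Type} [Fintype ι] [DecidableEq ι]

theorem trick_third (h3 : 3 ≤ Fintype.card ι) (i k : ι) : ∃ j, j ≠ i ∧ j ≠ k := by
  have h1 : ({i, k} : Finset ι).card < (Finset.univ : Finset ι).card := by
    have := Finset.card_le_two (a := i) (b := k)
    rw [Finset.card_univ]
    omega
  obtain ⟨j, _, hj⟩ := Finset.exists_mem_notMem_of_card_lt_card h1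
  refine ⟨j, ?_, ?_⟩
  · rintro rfl; exact hj (by simp)
  · rintro rfl; exact hj (by simp)

theorem trick (h3 : 3 ≤ Fintype.card ι) {R : Type} [Ring R] (H : Subgroup (St ι R)) (hH : H.Normal)
    (h : ∀ γ ∈ H, ∀ i j : ι, i ≠ j → γ * x i j 1 = x i j 1 * γ) : ∀ γ ∈ H, CE γ := by
  have hN : (Subgroup.centralizer (H : Set (St ι R))).Normal := inferInstance
  have h1 : ∀ i j : ι, i ≠ j → (x i j 1 : St ι R) ∈ Subgroup.centralizer (H : Set (St ι R)) := by
    intro i j hij
    rw [Subgroup.mem_centralizer_iff]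
    intro γ hγ
    exact h γ hγ i j hij
  have h2 : ∀ (i k : ι) (b : R), (x i k b : St ι R) ∈ Subgroup.centralizer (H : Set (St ι R)) := by
    intro i k b
    by_cases hik : i = k
    · subst hik
      rw [x_sr.diag]
      exact Subgroup.one_mem _
    · obtain ⟨j, hji, hjk⟩ := trick_third h3 i k
      have e := x_sr.comm (A := R) i j k (Ne.symm hji) hjk hik 1 b
      rw [one_mul] at e
      rw [← e]
      have m1 := h1 i j (Ne.symm hji)
      have m2 := hN.conj_mem _ (Subgroup.inv_mem _ m1) (x j k b)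
      have m3 := Subgroup.mul_mem _ m1 m2
      simpa only [mul_assoc] using m3
  intro γ hγ β
  have h4 : β ∈ Subgroup.centralizer (H : Set (St ι R)) := by
    induction β using St_induction with
    | h1 => exact Subgroup.one_mem _
    | hx i j a g ih => exact Subgroup.mul_mem _ (h2 i j a) ih
  rw [Subgroup.mem_centralizer_iff] at h4
  exact h4 γ hγ

theorem perf (h3 : 3 ≤ Fintype.card ι) {R : Type} [Ring R] (α : St ι R)
    (h : ∀ β, CE (α * β * α⁻¹ * β⁻¹)) : CE α := by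
  have hc : ∀ β, ∃ z : St ι R, CE z ∧ α * β * α⁻¹ = z * β := by
    intro β
    exact ⟨_, h β, by group⟩
  have hcomm : ∀ u v : St ι R, α * (u * v * u⁻¹ * v⁻¹) * α⁻¹ = u * v * u⁻¹ * v⁻¹ := by
    intro u v
    obtain ⟨z, hz, h1⟩ := hc u
    obtain ⟨w, hw, h2⟩ := hc v
    have e1 : α * (u * v * u⁻¹ * v⁻¹) * α⁻¹ =
        (α * u * α⁻¹) * (α * v * α⁻¹) * (α * u * α⁻¹)⁻¹ * (α * v * α⁻¹)⁻¹ := by group
    rw [e1, h1, h2]
    calc z * u * (w * v) * (z * u)⁻¹ * (w * v)⁻¹
        = z * (u * w) * v * u⁻¹ * z⁻¹ * v⁻¹ * w⁻¹ := by group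
      _ = z * (w * (u * v * u⁻¹)) * z⁻¹ * v⁻¹ * w⁻¹ := by rw [← hw u]; group
      _ = (z * (w * (u * v * u⁻¹))) * z⁻¹ * v⁻¹ * w⁻¹ := rfl
      _ = ((w * (u * v * u⁻¹)) * z) * z⁻¹ * v⁻¹ * w⁻¹ := by rw [hz (w * (u * v * u⁻¹))]
      _ = (w * (u * v * u⁻¹ * v⁻¹)) * w⁻¹ := by group
      _ = ((u * v * u⁻¹ * v⁻¹) * w) * w⁻¹ := by rw [hw (u * v * u⁻¹ * v⁻¹)]
      _ = u * v * u⁻¹ * v⁻¹ := by group
  have hx : ∀ (i k : ι) (b : R), α * x i k b = x i k b * α := by
    intro i k b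
    by_cases hik : i = k
    · subst hik
      rw [x_sr.diag, mul_one, one_mul]
    · obtain ⟨j, hji, hjk⟩ := trick_third h3 i k
      have e := x_sr.comm (A := R) i j k (Ne.symm hji) hjk hik 1 b
      rw [one_mul] at e
      have := hcomm (x i j 1) (x j k b)
      rw [e] at this
      exact mul_inv_eq_iff_eq_mul.1 this
  intro β
  induction β using St_induction with
  | h1 => rw [mul_one, one_mul]
  | hx i j a g ih => rw [← mul_assoc, hx, mul_assoc, ih, mul_assoc]

end statements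

end Pool.Agent.Helper58.K2
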