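import Pool.Agent.Helper58.K2.Defs
import Pool.Agent.Helper58.EN.JC
import Pool.Agent.Helper58.K2.JKM
import Pool.Agent.Helper58.K2.JMN
import Pool.Agent.Helper58.K2.JNN
import Pool.Agent.Helper58.K2.JRK
import Pool.Agent.Helper58.K2.JTR
import Pool.Agent.Helper58.K2.JV

set_option autoImplicit false

namespace Pool.Agent.Helper58.K2

open Matrix Pool.Agent.Helper58.EN

section statements
variable {ι : Type} [Fintype ι] [DecidableEq ι]

theorem CE_of_gen {R : Type} [Ring R] (γ : St ι R)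
    (h : ∀ i j : ι, ∀ a : R, γ * x i j a = x i j a * γ) : CE γ := by
  intro β
  induction β using St_induction with
  | h1 => rw [mul_one, one_mul]
  | hx i j a g ih => rw [← mul_assoc, h, mul_assoc, ih, mul_assoc]

theorem mem_nc_of_map {R Q : Type} [Ring R] [Ring Q] (π : R →+* Q)
    (hπ : Function.Surjective π) (g : St ι R) (hg : mapR π g = 1) :
    g ∈ Subgroup.normalClosure {g : St ι R | ∃ i k, ∃ a ∈ RingHom.ker π, g = x i k a} := by
  refine Subgroup.normalClosure_mono ?_ (ker_map π hπ g hg)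
  rintro _ ⟨i, j, a, ha, rfl⟩
  exact ⟨i, j, a, (RingHom.mem_ker).mpr ha, rfl⟩

theorem row_le_univ {R : Type} [Ring R] (j : ι) (s : Set R) :
    row (x : ι → ι → R → St ι R) j s ≤ row x j (Set.univ : Set R) := by
  apply Subgroup.closure_mono
  rintro g ⟨i, a, -, rfl⟩
  exact ⟨i, a, Set.mem_univ a, rfl⟩

theorem K_lift_hh {B A : Type} [Ring B] [Ring A] (π : B →+* A) (i j : ι) (p q : B) (u : Bˣ)
    (u' : Aˣ) (hu : π u = u') :
    mapR π (hh (x : ι → ι → B → St ι B) i j p q u) = hh x i j (π p) (π q) u' := by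
  have h1 : Units.map (π : B →* A) u = u' := Units.ext hu
  have h2 : π ((u⁻¹ : Bˣ) : B) = ((u'⁻¹ : Aˣ) : A) := by
    rw [← h1, ← map_inv]; rfl
  simp only [hh, map_mul, mapR_x, map_neg, h2]

theorem K_lift_N0 {B A : Type} [Ring B] [Ring A] (π : B →+* A)
    (hπ : Function.Surjective π) (hker : ∀ a, π a = 0 → IsUnit (1 + a)) (j : ι)
    (g : St ι A) (hg : g ∈ N0 (x : ι → ι → A → St ι A) j) :
    ∃ g' ∈ N0 (x : ι → ι → B → St ι B) j, mapR π g' = g := by
  induction hg using Subgroup.closure_induction with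
  | mem g hg =>
    rcases hg with ⟨k, l, hk, hl, b, rfl⟩ | ⟨i, hi, p, q, u, hu, hg⟩
    · obtain ⟨b', rfl⟩ := hπ b
      exact ⟨x k l b', Subgroup.subset_closure (Or.inl ⟨k, l, hk, hl, b', rfl⟩), by simp⟩
    · obtain ⟨p', rfl⟩ := hπ p
      obtain ⟨q', rfl⟩ := hπ q
      have h1 : IsUnit (1 + p' * q') := by
        apply ec_lift_unit π hπ hker
        rw [map_add, map_one, map_mul, ← hu]
        exact u.isUnit
      obtain ⟨v, hv⟩ := h1
      have h2 : π v = u := by rw [hv, map_add, map_one, map_mul, hu]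
      rcases hg with rfl | rfl
      · exact ⟨hh x i j p' q' v,
          Subgroup.subset_closure (Or.inr ⟨i, hi, p', q', v, hv, Or.inl rfl⟩),
          K_lift_hh π i j p' q' v u h2⟩
      · exact ⟨hh x j i p' q' v,
          Subgroup.subset_closure (Or.inr ⟨i, hi, p', q', v, hv, Or.inr rfl⟩),
          K_lift_hh π j i p' q' v u h2⟩
  | one => exact ⟨1, Subgroup.one_mem _, map_one _⟩
  | mul a b _ _ iha ihb =>
    obtain ⟨a', ha, rfl⟩ := iha
    obtain ⟨b', hb, rfl⟩ := ihb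
    exact ⟨a' * b', Subgroup.mul_mem _ ha hb, map_mul _ _ _⟩
  | inv a _ iha =>
    obtain ⟨a', ha, rfl⟩ := iha
    exact ⟨a'⁻¹, Subgroup.inv_mem _ ha, map_inv _ _⟩

theorem radical (h3 : 3 ≤ Fintype.card ι) {R Q : Type} [Ring R] [Ring Q] (π : R →+* Q)
    (hπ : Function.Surjective π) (hker : ∀ a, π a = 0 → IsUnit (1 + a)) (α : St ι R)
    (hα : mat α = 1) (h : CE (mapR π α)) : CE α := by
  apply perf h3
  intro β
  have hm : mat (α * β * α⁻¹ * β⁻¹) = 1 := by
    rw [map_mul, map_mul, map_mul, map_inv, map_inv, hα]; group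
  have hk : mapR π (α * β * α⁻¹ * β⁻¹) = 1 := by
    rw [map_mul, map_mul, map_mul, map_inv, map_inv, h (mapR π β)]; group
  apply CE_of_gen
  intro i j a
  obtain ⟨r, hr, ν, hν, c, hc, he⟩ := radK h3 (RingHom.ker π)
    (fun a ha => hker a ((RingHom.mem_ker).mp ha)) j _ (mem_nc_of_map π hπ _ hk)
  have h1 := uniq1 j r ν c (row_le_univ j _ hr) hν hc (by rw [← he]; exact hm)
  rw [h1.1, h1.2, one_mul, mul_one] at he
  rw [he]
  exact comm_col h3 j ν hν (by rw [← he]; exact hm) i a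

theorem K_lift (h3 : 3 ≤ Fintype.card ι) {B A : Type} [Ring B] [Ring A] (π : B →+* A)
    (hπ : Function.Surjective π) (hker : ∀ a, π a = 0 → IsUnit (1 + a)) (j : ι)
    (hA : ∀ κ : St ι A, mat κ = 1 → κ ∈ N0 (x : ι → ι → A → St ι A) j) :
    ∀ κ : St ι B, mat κ = 1 → κ ∈ N0 (x : ι → ι → B → St ι B) j := by
  intro κ hκ
  have h1 : mat (mapR π κ) = 1 := by rw [mat_mapR, hκ, map_one]
  obtain ⟨ν, hν, hν'⟩ := K_lift_N0 π hπ hker j _ (hA _ h1)
  have hk : mapR π (ν⁻¹ * κ) = 1 := by rw [map_mul, map_inv, hν', inv_mul_cancel]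
  obtain ⟨r, hr, ν', hν'', c, hc, he⟩ := radK h3 (RingHom.ker π)
    (fun a ha => hker a ((RingHom.mem_ker).mp ha)) j _ (mem_nc_of_map π hπ _ hk)
  have h2 : κ = (ν * r * ν⁻¹) * (ν * ν') * c := by
    have : κ = ν * (ν⁻¹ * κ) := by group
    rw [this, he]; group
  have h3' : ν * r * ν⁻¹ ∈ row x j ((RingHom.ker π : Ideal B) : Set B) :=
    (N0_norm_x h3 (RingHom.ker π) j ν hν).2 r hr
  have h4 := uniq1 j (ν * r * ν⁻¹) (ν * ν') c (row_le_univ j _ h3')
    (Subgroup.mul_mem _ hν hν'') hc (by rw [← h2]; exact hκ)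
  rw [h2, h4.1, h4.2, one_mul, mul_one]
  exact Subgroup.mul_mem _ hν hν''

end statements

end Pool.Agent.Helper58.K2
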