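import Pool.Agent.Helper58.K2.Defs

set_option autoImplicit false

namespace Pool.Agent.Helper58.K2

open Matrix Pool.Agent.Helper58.EN

section statements
variable {ι : Type} [Fintype ι] [DecidableEq ι]

theorem ss_lin_aux {D V : Type} [DivisionRing D] [AddCommGroup V] [Module D V] [FiniteDimensional D V]
    (f g : V →ₗ[D] V) : ∃ c d : V →ₗ[D] V, g = (f + g ∘ₗ c) ∘ₗ d := by
  classical
  -- a complement M of range f inside range f + range g, contained in range g
  obtain ⟨M', hM'⟩ := Submodule.exists_isCompl (Submodule.comap (LinearMap.range g).subtype (LinearMap.range f))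
  set M : Submodule D V := M'.map (LinearMap.range g).subtype with hM
  have hMg : M ≤ LinearMap.range g := by
    rw [hM]; exact Submodule.map_subtype_le _ _
  have hdisj : Disjoint (LinearMap.range f) M := by
    rw [Submodule.disjoint_def]
    intro x hx hxM
    rw [hM, Submodule.mem_map] at hxM
    obtain ⟨y, hy, rfl⟩ := hxM
    have h1 : y ∈ Submodule.comap (LinearMap.range g).subtype (LinearMap.range f) := hx
    have := Submodule.disjoint_def.mp hM'.disjoint y h1 hy
    rw [this]; simp
  have hsup : LinearMap.range g ≤ LinearMap.range f ⊔ M := by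
    intro x hx
    have h1 : (⟨x, hx⟩ : LinearMap.range g) ∈
        Submodule.comap (LinearMap.range g).subtype (LinearMap.range f) ⊔ M' := by
      rw [hM'.sup_eq_top]; trivial
    obtain ⟨y, hy, z, hz, hyz⟩ := Submodule.mem_sup.mp h1
    have h2 : x = (y : V) + (z : V) := by
      have := congrArg Subtype.val hyz
      simpa using this.symm
    rw [h2]
    exact Submodule.add_mem_sup hy (Submodule.mem_map.mpr ⟨z, hz, rfl⟩)
  have hfin : Module.finrank D M ≤ Module.finrank D (LinearMap.ker f) := by
    have h1 := Submodule.finrank_sup_add_finrank_inf_eq (LinearMap.range f) M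
    rw [hdisj.eq_bot, finrank_bot, add_zero] at h1
    have h2 := LinearMap.finrank_range_add_finrank_ker f
    have h3 := Submodule.finrank_le (LinearMap.range f ⊔ M)
    omega
  have hrank : Module.rank D M ≤ Module.rank D (LinearMap.ker f) := by
    rw [← Module.finrank_eq_rank, ← Module.finrank_eq_rank]
    exact_mod_cast hfin
  -- surjection from the kernel to M
  obtain ⟨j, hj⟩ : ∃ j : M →ₗ[D] LinearMap.ker f, Function.Injective j := by
    exact finrank_le_iff_exists_linearMap.mp hfin
  obtain ⟨θ, hθ⟩ := j.exists_leftInverse_of_injective (LinearMap.ker_eq_bot.mpr hj)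
  -- lift M through g
  have hs : ∃ s : LinearMap.range g →ₗ[D] V, g.rangeRestrict ∘ₗ s = LinearMap.id :=
    g.rangeRestrict.exists_rightInverse_of_surjective (LinearMap.range_rangeRestrict g)
  obtain ⟨s, hs⟩ := hs
  -- projection to the kernel of f
  obtain ⟨π, hπ⟩ := (LinearMap.ker f).subtype.exists_leftInverse_of_injective
    (Submodule.ker_subtype _)
  let c : V →ₗ[D] V := s ∘ₗ (Submodule.inclusion hMg) ∘ₗ θ ∘ₗ π
  have hgc : ∀ x, g (c x) = ((θ (π x) : M) : V) := by
    intro x
    have := LinearMap.congr_fun hs (Submodule.inclusion hMg (θ (π x)))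
    have h2 := congrArg Subtype.val this
    exact h2
  have hrange : LinearMap.range g ≤ LinearMap.range (f + g ∘ₗ c) := by
    refine hsup.trans (sup_le ?_ ?_)
    · rintro _ ⟨x, rfl⟩
      refine ⟨x - (π x : V), ?_⟩
      have h1 : π (x - (π x : V)) = 0 := by
        rw [map_sub]
        have := LinearMap.congr_fun hπ (π x)
        simp only [LinearMap.comp_apply, Submodule.subtype_apply, LinearMap.id_apply] at this
        rw [this, sub_self]
      have h2 : f (π x : V) = 0 := (π x).2
      rw [LinearMap.add_apply, LinearMap.comp_apply, hgc, h1, map_sub, h2]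
      simp
    · intro m hm
      refine ⟨(j ⟨m, hm⟩ : V), ?_⟩
      have h1 : π (j ⟨m, hm⟩ : V) = j ⟨m, hm⟩ := LinearMap.congr_fun hπ _
      have h2 : θ (j ⟨m, hm⟩) = ⟨m, hm⟩ := LinearMap.congr_fun hθ _
      have h3 : f (j ⟨m, hm⟩ : V) = 0 := (j ⟨m, hm⟩).2
      rw [LinearMap.add_apply, LinearMap.comp_apply, hgc, h1, h2, h3]
      simp
  obtain ⟨r, hr⟩ := (f + g ∘ₗ c).rangeRestrict.exists_rightInverse_of_surjective
    (LinearMap.range_rangeRestrict _)
  refine ⟨c, r ∘ₗ (Submodule.inclusion hrange) ∘ₗ g.rangeRestrict, ?_⟩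
  ext x
  have := LinearMap.congr_fun hr (Submodule.inclusion hrange (g.rangeRestrict x))
  have h2 := congrArg Subtype.val this
  exact h2.symm

theorem ss_mat_aux {D : Type} [DivisionRing D] (k : ℕ) (a b : Matrix (Fin k) (Fin k) D) :
    ∃ c d : Matrix (Fin k) (Fin k) D, b = d * (a + c * b) := by
  obtain ⟨c, d, h⟩ := ss_lin_aux (Matrix.toLinearMapRight' a) (Matrix.toLinearMapRight' b)
  refine ⟨LinearMap.toMatrixRight' c, LinearMap.toMatrixRight' d, ?_⟩
  apply Matrix.toLinearMapRight'.injective
  rw [Matrix.toLinearMapRight'_mul, map_add, Matrix.toLinearMapRight'_mul]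
  simpa using h

theorem ss_pi_aux {n : ℕ} {R : Fin n → Type} [∀ i, Ring (R i)]
    (h : ∀ i, ∀ a b : R i, ∃ c d : R i, b = d * (a + c * b)) (a b : ∀ i, R i) :
    ∃ c d : ∀ i, R i, b = d * (a + c * b) := by
  choose c d hcd using fun i => h i (a i) (b i)
  exact ⟨c, d, funext hcd⟩

theorem ss_RU {A : Type} [Ring A] [IsSemisimpleRing A] (a b : A) :
    ∃ c d : A, b = d * (a + c * b) := by
  obtain ⟨n, D, k, _, _, ⟨e⟩⟩ := IsSemisimpleRing.exists_ringEquiv_pi_matrix_divisionRing A
  obtain ⟨c, d, h⟩ := ss_pi_aux (fun i => ss_mat_aux (D := D i) (k i)) (e a) (e b)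
  refine ⟨e.symm c, e.symm d, ?_⟩
  apply e.injective
  simpa using h

theorem ss_DF {A : Type} [Ring A] [IsSemisimpleRing A] (a b : A) (h : a * b = 1) : b * a = 1 :=
  mul_eq_one_symm h

end statements

end Pool.Agent.Helper58.K2
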