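import Pool.Agent.Helper58.K2.Defs
import Pool.Agent.Helper58.K2.JBC
import Pool.Agent.Helper58.K2.JLQ
import Pool.Agent.Helper58.K2.JMN
import Pool.Agent.Helper58.K2.JRD
import Pool.Agent.Helper58.K2.JSS

set_option autoImplicit false

namespace Pool.Agent.Helper58.K2

open Matrix Pool.Agent.Helper58.EN

section statements
variable {ι : Type} [Fintype ι] [DecidableEq ι]

theorem ss_K (h3 : 3 ≤ Fintype.card ι) {A : Type} [Ring A]
    (hRU : ∀ a b : A, ∃ c d : A, b = d * (a + c * b)) (hDF : ∀ a b : A, a * b = 1 → b * a = 1)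
    (n : ι) (κ : St ι A) (hκ : mat κ = 1) : κ ∈ N0 (x : ι → ι → A → St ι A) n := by
  obtain ⟨c, hc, ν, hν, r, hr, hκe⟩ := big_cell h3 hRU hDF n κ (by
    rw [hκ]
    simp)
  have h1 : mat (c * ν * r) = 1 := by rw [← hκe]; exact hκ
  obtain ⟨h2, h4⟩ := uniq2 n r ν c hr hν hc h1
  rw [hκe, h2, h4, one_mul, mul_one]
  exact hν

theorem local_K (h3 : 3 ≤ Fintype.card ι) (O : Type) [CommRing O] [IsLocalRing O] {B : Type}
    [Ring B] [Algebra O B] [Module.Finite O B] (n : ι) (κ : St ι B) (hκ : mat κ = 1) :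
    κ ∈ N0 (x : ι → ι → B → St ι B) n := by
  obtain ⟨A, hA1, hA2, π, hπ, hker⟩ := local_quot O B
  exact K_lift h3 π hπ hker n (fun κ hκ => ss_K h3 ss_RU ss_DF n κ hκ) κ hκ

end statements

end Pool.Agent.Helper58.K2
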