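import Pool.Agent.Helper58.K2.Defs
import Pool.Agent.Helper58.EN.JE
import Pool.Agent.Helper58.EN.JG
import Pool.Agent.Helper58.K2.JAT
import Pool.Agent.Helper58.K2.JEA
import Pool.Agent.Helper58.K2.JGD
import Pool.Agent.Helper58.K2.JGQ
import Pool.Agent.Helper58.K2.JGS
import Pool.Agent.Helper58.K2.JSK

set_option autoImplicit false

namespace Pool.Agent.Helper58.K2

open Matrix Pool.Agent.Helper58.EN

section statements
variable {ι : Type} [Fintype ι] [DecidableEq ι]

omit [Fintype ι] [DecidableEq ι] in
/-- central ideal attached to an element of the Steinberg group. -/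
def cenIdeal {Z L : Type} [CommRing Z] [Ring L] [Algebra Z L] (α : St ι L) : Ideal Z where
  carrier := {s | ∀ (i j : ι) (r : L), α * x i j (s • r) = x i j (s • r) * α}
  zero_mem' := by
    intro i j r
    rw [zero_smul, x_sr.zero, mul_one, one_mul]
  add_mem' := by
    intro s s' hs hs' i j r
    rw [add_smul, x_sr.add, ← mul_assoc, hs i j r, mul_assoc, hs' i j r, mul_assoc]
  smul_mem' := by
    intro z s hs i j r
    have e : (z • s) • r = s • (z • r) := by
      rw [smul_eq_mul, mul_comm, mul_smul]
    rw [e]
    exact hs i j (z • r)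

omit [Fintype ι] [DecidableEq ι] in
theorem mem_cenIdeal {Z L : Type} [CommRing Z] [Ring L] [Algebra Z L] (α : St ι L) (s : Z) :
    s ∈ cenIdeal (Z := Z) α ↔ ∀ (i j : ι) (r : L), α * x i j (s • r) = x i j (s • r) * α :=
  Iff.rfl

theorem CK_noeth (h5 : 5 ≤ Fintype.card ι) {Z L : Type} [CommRing Z] [IsNoetherianRing Z]
    [Ring L] [Algebra Z L] [Module.Finite Z L] : CK ι L := by
  intro α hα
  by_cases ha : cenIdeal (Z := Z) α = ⊤
  · have h1 : (1 : Z) ∈ cenIdeal (Z := Z) α := by rw [ha]; trivial
    rw [mem_cenIdeal] at h1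
    intro b
    induction b using St_induction with
    | h1 => simp
    | hx i j a g ih =>
      have h2 := h1 i j a
      rw [one_smul] at h2
      rw [← mul_assoc, h2, mul_assoc, ih, mul_assoc]
  · exfalso
    obtain ⟨m, hm, ham⟩ := Ideal.exists_le_maximal _ ha
    haveI : m.IsPrime := hm.isPrime
    obtain ⟨B, iB, iA, f, hloc, halg, hfin⟩ := exists_loc Z L m.primeCompl
    haveI : Module.Finite (Localization m.primeCompl) B := hfin inferInstance
    haveI : IsLocalRing (Localization m.primeCompl) :=
      IsLocalization.AtPrime.isLocalRing (Localization m.primeCompl) m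
    have hm1 : mat (mapR f α) = 1 := by rw [mat_mapR, hα, map_one]
    have hN0 : ∀ n : ι, mapR f α ∈ N0 (x : ι → ι → B → St ι B) n := fun n =>
      local_K (by omega) (Localization m.primeCompl) n (mapR f α) hm1
    obtain ⟨s1, hs1, hker⟩ := loc_ker hloc
    have hinj : ∀ r : L, f (s1 • r) = 0 → s1 • r = 0 := by
      intro r hr
      apply hker
      rw [Algebra.smul_def, map_mul] at hr
      exact ((hloc.unit s1 hs1).mul_right_eq_zero).1 hr
    obtain ⟨F, hF, A, Λ, iNA, iΛ, lm, rm, β, jj, lam, bm, hU, hjj, hl, hr, hlam1, hlam2, hlam3⟩ :=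
      germ_data m.primeCompl f hloc s1 hs1 hinj
    obtain ⟨ρ, hρ⟩ := exists_action h5 bm hU
    have hρ1 : ∀ (k n : ι) (a : A), ρ (mapR f α) (x k n a) = x k n a := fun k n a =>
      action_trivial h5 bm hU β jj hjj hl hr ρ hρ n (mapR f α) (hN0 n) hm1 k a
    obtain ⟨g, hg⟩ := germ_St (ι := ι) (L := L) F
    let Θ : St ι A →* F.Germ (St ι L) := g.comp (map lam)
    have hΘ : ∀ (i j : ι) (a : A) (h : m.primeCompl × ℕ → L), lam a = (h : F.Germ L) →
        Θ (x i j a) = ((fun t => x i j (h t) : m.primeCompl × ℕ → St ι L) : F.Germ (St ι L)) := by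
      intro i j a h hh
      show g (map lam (x i j a)) = _
      rw [map_x, hh]
      exact hg i j h
    let X : ι → ι → L → F.Germ (St ι L) := fun i j l =>
      ((fun _ => x i j l : m.primeCompl × ℕ → St ι L) : F.Germ (St ι L))
    have hX : SR X :=
      { diag := fun i a => by
          show ((fun _ => x i i a : m.primeCompl × ℕ → St ι L) : F.Germ (St ι L)) = 1
          rw [x_sr.diag]
          rfl
        add := fun i j a b => by
          show ((fun _ => x i j (a + b) : m.primeCompl × ℕ → St ι L) : F.Germ (St ι L)) = _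
          rw [x_sr.add]
          rfl
        comm := fun i j k hij hjk hik a b => by
          show _ = ((fun _ => x i k (a * b) : m.primeCompl × ℕ → St ι L) : F.Germ (St ι L))
          rw [← x_sr.comm i j k hij hjk hik]
          rfl
        commute := fun i j k l hjk hil a b => by
          show ((fun _ => x i j a * x k l b : m.primeCompl × ℕ → St ι L) : F.Germ (St ι L)) = _
          rw [x_sr.commute i j k l hjk hil]
          rfl }
    have hY : SR (fun (i j : ι) (a : A) => Θ (x i j a)) :=
      { diag := fun i a => by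
          show Θ (x i i a) = 1
          rw [x_sr.diag, map_one]
        add := fun i j a b => by
          show Θ (x i j (a + b)) = Θ (x i j a) * Θ (x i j b)
          rw [x_sr.add, map_mul]
        comm := fun i j k hij hjk hik a b => by
          show Θ (x i j a) * Θ (x j k b) * (Θ (x i j a))⁻¹ * (Θ (x j k b))⁻¹ = Θ (x i k (a * b))
          rw [← x_sr.comm i j k hij hjk hik, map_mul, map_mul, map_mul, map_inv, map_inv]
        commute := fun i j k l hjk hil a b => by
          show Θ (x i j a) * Θ (x k l b) = Θ (x k l b) * Θ (x i j a)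
          rw [← map_mul, x_sr.commute i j k l hjk hil, map_mul] }
    have hgerm : ∀ a : A, ∃ h : m.primeCompl × ℕ → L, lam a = (h : F.Germ L) := by
      intro a
      obtain ⟨h, hh⟩ := Quotient.exists_rep (lam a)
      exact ⟨h, hh.symm⟩
    have hM : MR (fun l a => lm (f l) a) (fun a l => rm a (f l)) X (fun i j a => Θ (x i j a)) :=
      { xs := hX
        ys := hY
        cL := fun i j k hij hjk hik b a => by
          obtain ⟨h, hh⟩ := hgerm a
          have h1 : lam (lm (f b) a) = ((fun t => b * h t : m.primeCompl × ℕ → L) : F.Germ L) := by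
            rw [hlam1, hh]
            rfl
          show X i j b * Θ (x j k a) * (X i j b)⁻¹ = Θ (x i k (lm (f b) a)) * Θ (x j k a)
          rw [hΘ j k a h hh, hΘ i k _ _ h1]
          show ((fun t => x i j b * x j k (h t) * (x i j b)⁻¹ : m.primeCompl × ℕ → St ι L) :
              F.Germ (St ι L)) =
            ((fun t => x i k (b * h t) * x j k (h t) : m.primeCompl × ℕ → St ι L) :
              F.Germ (St ι L))
          congr 1
          funext t
          exact x_sr.conjL i j k hij hjk hik b (h t)
        cR := fun i j k hij hki hkj b a => by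
          obtain ⟨h, hh⟩ := hgerm a
          have h1 : lam (-(rm a (f b))) =
              ((fun t => -(h t * b) : m.primeCompl × ℕ → L) : F.Germ L) := by
            rw [map_neg, hlam2, hh]
            rfl
          show X i j b * Θ (x k i a) * (X i j b)⁻¹ = Θ (x k j (-(rm a (f b)))) * Θ (x k i a)
          rw [hΘ k i a h hh, hΘ k j _ _ h1]
          show ((fun t => x i j b * x k i (h t) * (x i j b)⁻¹ : m.primeCompl × ℕ → St ι L) :
              F.Germ (St ι L)) =
            ((fun t => x k j (-(h t * b)) * x k i (h t) : m.primeCompl × ℕ → St ι L) :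
              F.Germ (St ι L))
          congr 1
          funext t
          exact x_sr.conjR i j k hij hki hkj b (h t)
        cC := fun i j k l hjk hil b a => by
          obtain ⟨h, hh⟩ := hgerm a
          show X i j b * Θ (x k l a) * (X i j b)⁻¹ = Θ (x k l a)
          rw [hΘ k l a h hh]
          show ((fun t => x i j b * x k l (h t) * (x i j b)⁻¹ : m.primeCompl × ℕ → St ι L) :
              F.Germ (St ι L)) =
            ((fun t => x k l (h t) : m.primeCompl × ℕ → St ι L) : F.Germ (St ι L))
          congr 1
          funext t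
          exact x_sr.conjC i j k l hjk hil b (h t) }
    let cst : St ι L →* F.Germ (St ι L) :=
      { toFun := fun a => ((fun _ => a : m.primeCompl × ℕ → St ι L) : F.Germ (St ι L))
        map_one' := rfl
        map_mul' := fun _ _ => rfl }
    have hcst : lift hM.xs α = cst α := by
      have : lift hM.xs = cst := hom_ext (fun i j a => by rw [lift_x]; rfl)
      rw [this]
    have hne : ∀ t : m.primeCompl × ℕ, ∃ r : L, ∃ i j : ι,
        ¬ (α * x i j ((((t.1 : Z) ^ t.2) * s1) • r) =
          x i j ((((t.1 : Z) ^ t.2) * s1) • r) * α) := by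
      intro t
      have h1 : (((t.1 : Z) ^ t.2) * s1) ∈ m.primeCompl :=
        m.primeCompl.mul_mem (m.primeCompl.pow_mem t.1.2 _) hs1
      have h2 : (((t.1 : Z) ^ t.2) * s1) ∉ cenIdeal (Z := Z) α := fun h => h1 (ham h)
      rw [mem_cenIdeal] at h2
      push Not at h2
      obtain ⟨i, j, r, h⟩ := h2
      exact ⟨r, i, j, h⟩
    choose r hr' using hne
    obtain ⟨a, ha'⟩ := hlam3 r
    have hev : ∀ k n : ι, ∀ᶠ t in F, x k n ((((t.1 : Z) ^ t.2) * s1) • r t) =
        α * x k n ((((t.1 : Z) ^ t.2) * s1) • r t) * α⁻¹ := by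
      intro k n
      have h1 := germ_equiv h5 bm hU ρ hρ f Θ X hM α (x k n a)
      rw [hρ1, hcst, hΘ k n a _ ha'] at h1
      exact Filter.Germ.coe_eq.1 h1
    have hev2 : ∀ᶠ t in F, ∀ k n : ι, x k n ((((t.1 : Z) ^ t.2) * s1) • r t) =
        α * x k n ((((t.1 : Z) ^ t.2) * s1) • r t) * α⁻¹ := by
      rw [Filter.eventually_all]
      intro k
      rw [Filter.eventually_all]
      intro n
      exact hev k n
    obtain ⟨t, ht⟩ := hev2.exists
    obtain ⟨i, j, hij⟩ := hr' t
    apply hij
    exact (eq_mul_inv_iff_mul_eq.1 (ht i j)).symm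

end statements

end Pool.Agent.Helper58.K2
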