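import Pool.Agent.Helper58.K2.Defs

set_option autoImplicit false

namespace Pool.Agent.Helper58.K2

open Matrix Pool.Agent.Helper58.EN

section statements
variable {ι : Type} [Fintype ι] [DecidableEq ι]

theorem exists_support {R : Type} [Ring R] (α : St ι R) :
    ∃ X : Finset R, ∀ R0 : Subring R, (X : Set R) ⊆ (R0 : Set R) →
      ∃ α0 : St ι R0, mapR R0.subtype α0 = α := by
  classical
  induction α using St_induction with
  | h1 => exact ⟨∅, fun R0 _ => ⟨1, map_one _⟩⟩
  | hx i j a g ih =>
    obtain ⟨X, hX⟩ := ih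
    refine ⟨insert a X, fun R0 h0 => ?_⟩
    have ha : a ∈ R0 := h0 (by simp)
    obtain ⟨α0, hα0⟩ := hX R0 (fun y hy => h0 (by
      rw [Finset.coe_insert]
      exact Set.mem_insert_of_mem a hy))
    refine ⟨x i j ⟨a, ha⟩ * α0, ?_⟩
    rw [map_mul, mapR_x, hα0]
    rfl

end statements

end Pool.Agent.Helper58.K2
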