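import Pool.Agent.Helper58.K2.Defs
import Pool.Agent.Helper58.K2.JCN
import Pool.Agent.Helper58.K2.JES

set_option autoImplicit false

namespace Pool.Agent.Helper58.K2

open Matrix Pool.Agent.Helper58.EN

section statements
variable {ι : Type} [Fintype ι] [DecidableEq ι]

theorem aux_mapGL_injective {R S : Type} [Ring R] [Ring S] (f : R →+* S)
    (hf : Function.Injective f) : Function.Injective (mapGL (ι := ι) f) :=
  mapGL_injective f hf

theorem CK_finite_aux (h5 : 5 ≤ Fintype.card ι) {Z L : Type} [CommRing Z]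
    [Ring L] [Algebra Z L] [Module.Finite Z L] (α : St ι L) (hα : mat α = 1) (i j : ι) (r : L) :
    α * x i j r = x i j r * α := by
  classical
  obtain ⟨X0, hX0⟩ := exists_support α
  obtain ⟨s, hs⟩ := (Module.Finite.fg_top : (⊤ : Submodule Z L).FG)
  set T : Finset L := insert 1 s with hT
  have hTspan : Submodule.span Z (T : Set L) = ⊤ := by
    rw [eq_top_iff, ← hs]
    apply Submodule.span_mono
    rw [hT]
    intro x hx
    simp only [Finset.coe_insert]
    exact Or.inr hx
  have hc : ∀ x : L, ∃ f : L → Z, ∑ t ∈ T, f t • t = x := by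
    intro x
    have hx : x ∈ Submodule.span Z (T : Set L) := by rw [hTspan]; trivial
    obtain ⟨f, _, hf⟩ := Submodule.mem_span_finset.1 hx
    exact ⟨f, hf⟩
  choose c hc using hc
  set X : Finset L := ((T ×ˢ T).image (fun p => p.1 * p.2)) ∪ X0 ∪ {r} with hX
  set C : Finset Z := X.biUnion (fun x => T.image (c x)) with hC
  set Z0 : Subalgebra ℤ Z := Algebra.adjoin ℤ (C : Set Z) with hZ0
  have hft : Algebra.FiniteType ℤ Z0 := by
    have h1 : Z0.FG := Subalgebra.fg_adjoin_finset C
    exact (Subalgebra.fg_iff_finiteType Z0).1 h1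
  have hnoeth : IsNoetherianRing Z0 := Algebra.FiniteType.isNoetherianRing ℤ Z0
  set N : Submodule Z0 L := Submodule.span Z0 (T : Set L) with hN
  have hXN : ∀ x ∈ X, x ∈ N := by
    intro x hx
    rw [← hc x]
    apply Submodule.sum_mem
    intro t ht
    have hf : c x t ∈ Z0 := by
      apply Algebra.subset_adjoin
      rw [hC, Finset.mem_coe, Finset.mem_biUnion]
      exact ⟨x, hx, Finset.mem_image_of_mem _ ht⟩
    have h2 : c x t • t = (⟨c x t, hf⟩ : Z0) • t := rfl
    rw [h2]
    exact Submodule.smul_mem _ _ (Submodule.subset_span ht)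
  have hTN : ∀ t ∈ T, t ∈ N := fun t ht => Submodule.subset_span ht
  have h1N : (1 : L) ∈ N := hTN 1 (by rw [hT]; exact Finset.mem_insert_self _ _)
  have hmul : ∀ x y, x ∈ N → y ∈ N → x * y ∈ N := by
    intro x y hx hy
    have h2 : N * N ≤ N := by
      rw [hN, Submodule.span_mul_span, Submodule.span_le]
      rintro _ ⟨a, ha, b, hb, rfl⟩
      apply hXN
      rw [hX]
      simp only [Finset.mem_union, Finset.mem_image, Finset.mem_product]
      exact Or.inl (Or.inl ⟨(a, b), ⟨ha, hb⟩, rfl⟩)
    exact h2 (Submodule.mul_mem_mul hx hy)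
  let Λ0 : Subalgebra Z0 L := N.toSubalgebra h1N hmul
  have hmemΛ : ∀ x, x ∈ N → x ∈ Λ0 := fun x hx => hx
  have hfin : Module.Finite Z0 Λ0 := by
    have : Module.Finite Z0 N := Module.Finite.iff_fg.2 ⟨T, rfl⟩
    exact this
  have hck : CK ι ↥Λ0 := CK_noeth h5 (Z := Z0) (L := Λ0)
  have hck' : CK ι ↥(Λ0.toSubring) := hck
  have hsub : (X0 : Set L) ⊆ (Λ0.toSubring : Set L) := by
    intro y hy
    apply hmemΛ
    apply hXN
    rw [hX]
    simp only [Finset.mem_union]
    exact Or.inl (Or.inr hy)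
  have hr : r ∈ Λ0.toSubring := by
    apply hmemΛ
    apply hXN
    rw [hX]
    simp
  obtain ⟨α0, hα0⟩ := hX0 Λ0.toSubring hsub
  have hm : mat α0 = 1 := by
    apply aux_mapGL_injective (Λ0.toSubring).subtype Subtype.val_injective
    rw [← mat_mapR, hα0, hα, map_one]
  have h1 := hck' α0 hm (x i j ⟨r, hr⟩)
  have h2 := congrArg (mapR (Λ0.toSubring).subtype) h1
  rw [map_mul, map_mul, hα0, mapR_x] at h2
  exact h2

theorem CK_finite (h5 : 5 ≤ Fintype.card ι) {Z L : Type} [CommRing Z]
    [Ring L] [Algebra Z L] [Module.Finite Z L] : CK ι L := by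
  intro α hα β
  induction β using St_induction with
  | h1 => rw [mul_one, one_mul]
  | hx i j r g ih =>
    rw [← mul_assoc, CK_finite_aux h5 (Z := Z) α hα i j r, mul_assoc, ih, mul_assoc]

end statements

end Pool.Agent.Helper58.K2
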