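import Pool.Agent.Helper58.K2.Defs
import Pool.Agent.Helper58.K2.JZL

set_option autoImplicit false

namespace Pool.Agent.Helper58.K2

open Matrix Pool.Agent.Helper58.EN

section statements
variable {ι : Type} [Fintype ι] [DecidableEq ι]

theorem pc_le (h3 : 3 ≤ Fintype.card ι) {R : Type} [Ring R] (c : R) (hc : ∀ r, c * r = r * c) :
    Subgroup.normalClosure {g : St ι R | ∃ i j, ∃ r, g = x i j (c * (c * r))} ≤
      Subgroup.closure {g : St ι R | ∃ i j, ∃ r, g = x i j (c * r)} := by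
  have hJ : ∀ a : R, a ∈ Ideal.span {c * c} ↔ ∃ r, a = c * (c * r) := by
    intro a
    rw [Ideal.mem_span_singleton']
    constructor
    · rintro ⟨r, rfl⟩
      refine ⟨r, ?_⟩
      rw [← mul_assoc r c c, ← hc r, mul_assoc c r c, ← hc r]
    · rintro ⟨r, rfl⟩
      refine ⟨r, ?_⟩
      rw [← mul_assoc r c c, ← hc r, mul_assoc c r c, ← hc r]
  haveI : (Ideal.span {c * c}).IsTwoSided := ⟨by
    intro a b ha
    obtain ⟨r, rfl⟩ := (hJ a).1 ha
    exact (hJ _).2 ⟨r * b, by rw [mul_assoc, mul_assoc]⟩⟩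
  have h1 : Subgroup.normalClosure {g : St ι R | ∃ i j, ∃ r, g = x i j (c * (c * r))} ≤
      Subgroup.normalClosure {g : St ι R | ∃ i j, ∃ a ∈ Ideal.span {c * c}, g = x i j a} := by
    apply Subgroup.normalClosure_mono
    rintro g ⟨i, j, r, rfl⟩
    exact ⟨i, j, _, (hJ _).2 ⟨r, rfl⟩, rfl⟩
  refine h1.trans ((zlem h3 (Ideal.span {c * c})).trans ?_)
  rw [Subgroup.closure_le]
  rintro g ⟨i, j, hij, a, ha, t, rfl⟩
  obtain ⟨r, rfl⟩ := (hJ a).1 ha
  obtain ⟨p, hp⟩ : ∃ p : ι, p ∉ ({i, j} : Finset ι) := by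
    by_contra h
    push Not at h
    have h2 : (Finset.univ : Finset ι) ⊆ {i, j} := fun q _ => h q
    have h4 := Finset.card_le_card h2
    have h5 : ({i, j} : Finset ι).card ≤ 2 := Finset.card_le_two
    rw [Finset.card_univ] at h4
    omega
  simp only [Finset.mem_insert, Finset.mem_singleton, not_or] at hp
  obtain ⟨hpi, hpj⟩ := hp
  set P := Subgroup.closure {g : St ι R | ∃ i j, ∃ r, g = x i j (c * r)} with hP
  have hx : ∀ (k l : ι) (s : R), (x k l (c * s) : St ι R) ∈ P := fun k l s =>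
    Subgroup.subset_closure ⟨k, l, s, rfl⟩
  have hA : (x j i t : St ι R) * x i p (c * r) * (x j i t)⁻¹ ∈ P := by
    rw [x_sr.conjL j i p hij.symm (Ne.symm hpi) (Ne.symm hpj)]
    have e : t * (c * r) = c * (t * r) := by rw [← mul_assoc, ← hc t, mul_assoc]
    rw [e]
    exact P.mul_mem (hx _ _ _) (hx _ _ _)
  have hB : (x j i t : St ι R) * x p j c * (x j i t)⁻¹ ∈ P := by
    rw [x_sr.conjR j i p hij.symm hpj hpi]
    have e : -(c * t) = c * (-t) := by rw [mul_neg]
    rw [e]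
    refine P.mul_mem (hx _ _ _) ?_
    have := hx p j 1
    rwa [mul_one] at this
  have hcomm : (x i j (c * (c * r)) : St ι R) =
      x i p (c * r) * x p j c * (x i p (c * r))⁻¹ * (x p j c)⁻¹ := by
    rw [x_sr.comm i p j (Ne.symm hpi) hpj hij]
    congr 1
    rw [hc (c * r)]
  have key : (x j i t : St ι R) * x i j (c * (c * r)) * (x j i t)⁻¹ =
      (x j i t * x i p (c * r) * (x j i t)⁻¹) * (x j i t * x p j c * (x j i t)⁻¹) *
        (x j i t * x i p (c * r) * (x j i t)⁻¹)⁻¹ * (x j i t * x p j c * (x j i t)⁻¹)⁻¹ := by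
    rw [hcomm]
    group
  show (x j i t : St ι R) * x i j (c * (c * r)) * (x j i t)⁻¹ ∈ P
  rw [key]
  exact P.mul_mem (P.mul_mem (P.mul_mem hA hB) (P.inv_mem hA)) (P.inv_mem hB)

end statements

end Pool.Agent.Helper58.K2
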