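import Pool.Agent.Helper58.K2.Defs
import Pool.Agent.Helper58.K2.JKM
import Pool.Agent.Helper58.K2.JPC
import Pool.Agent.Helper58.K2.JTR

set_option autoImplicit false

namespace Pool.Agent.Helper58.K2

open Matrix Pool.Agent.Helper58.EN

section statements
variable {ι : Type} [Fintype ι] [DecidableEq ι]

theorem descent (h3 : 3 ≤ Fintype.card ι) {R Q : Type} [Ring R] [Ring Q] (c : R)
    (hc : ∀ r, c * r = r * c) (L : Subring R) (hL : ∀ r, c * r ∈ L) (hCK : CK ι L)
    (π : R →+* Q) (hπ : Function.Surjective π) (hker : ∀ r, π r = 0 → ∃ y, r = c * (c * y))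
    (α : St ι R) (hα : mat α = 1) (hπα : CE (mapR π α)) : CE α := by
  set H : Subgroup (St ι R) := (mat : St ι R →* (Matrix ι ι R)ˣ).ker ⊓
    (mapR π : St ι R →* St ι Q).ker with hHdef
  have hH : H.Normal := by
    rw [hHdef]
    infer_instance
  have key : ∀ γ ∈ H, CE γ := by
    refine trick h3 H hH ?_
    intro γ hγ i j hij
    have hm : mat γ = 1 := hγ.1
    have hp : mapR π γ = 1 := hγ.2
    have h1 := ker_map π hπ γ hp
    have h2 : γ ∈ Subgroup.normalClosure {g : St ι R | ∃ i j, ∃ r, g = x i j (c * (c * r))} := by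
      refine Subgroup.normalClosure_mono ?_ h1
      rintro g ⟨i, j, a, ha, rfl⟩
      obtain ⟨y, rfl⟩ := hker a ha
      exact ⟨i, j, y, rfl⟩
    have h4 := pc_le h3 c hc h2
    have h5 : γ ∈ (mapR L.subtype : St ι L →* St ι R).range := by
      refine (Subgroup.closure_le _).2 ?_ h4
      rintro g ⟨i, j, r, rfl⟩
      exact ⟨x i j ⟨c * r, hL r⟩, by simp⟩
    obtain ⟨γ0, rfl⟩ := h5
    have h6 : mat γ0 = 1 := by
      apply mapGL_injective L.subtype Subtype.val_injective
      rw [← mat_mapR, hm, map_one]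
    have h7 := hCK γ0 h6 (x i j 1)
    have h8 := congrArg (mapR L.subtype) h7
    simpa using h8
  refine perf h3 α (fun β => key _ ?_)
  constructor
  · show mat (α * β * α⁻¹ * β⁻¹) = 1
    simp [hα]
  · show mapR π (α * β * α⁻¹ * β⁻¹) = 1
    rw [map_mul, map_mul, map_mul, map_inv, map_inv, hπα (mapR π β)]
    group

end statements

end Pool.Agent.Helper58.K2
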