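import Pool.Agent.Helper58.K2.Defs
import Pool.Agent.Helper58.K2.JCF
import Pool.Agent.Helper58.K2.JDE
import Pool.Agent.Helper58.K2.JRD

set_option autoImplicit false

namespace Pool.Agent.Helper58.K2

open Matrix Pool.Agent.Helper58.EN

section statements
variable {ι : Type} [Fintype ι] [DecidableEq ι]

/-- the two-sided ideal of multiples of `c ^ 4` (as a left ideal). -/
def I4K {R : Type} [Ring R] (c : R) (hc : ∀ x, c * x = x * c) : Ideal R where
  carrier := {x | ∃ y, x = c ^ 4 * y}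
  add_mem' := by
    rintro _ _ ⟨y, rfl⟩ ⟨z, rfl⟩
    exact ⟨y + z, by rw [mul_add]⟩
  zero_mem' := ⟨0, by simp⟩
  smul_mem' := by
    rintro r _ ⟨y, rfl⟩
    refine ⟨r * y, ?_⟩
    have h : Commute (c ^ 4) r := (show Commute c r from hc r).pow_left 4
    rw [smul_eq_mul, ← mul_assoc, ← h.eq, mul_assoc]

instance I4K_two {R : Type} [Ring R] (c : R) (hc : ∀ x, c * x = x * c) :
    (I4K c hc).IsTwoSided where
  mul_mem_of_left := by
    rintro _ b ⟨y, rfl⟩
    exact ⟨y * b, by rw [mul_assoc]⟩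

theorem mem_I4K {R : Type} [Ring R] (c : R) (hc : ∀ x, c * x = x * c) (x : R) :
    x ∈ I4K c hc ↔ ∃ y, x = c ^ 4 * y := Iff.rfl

theorem central_stepK (h5 : 5 ≤ Fintype.card ι) {R Q : Type} [Ring R] [Ring Q] (c : R)
    (hc : ∀ x, c * x = x * c) {q : ℕ} (a : Fin q → R)
    (hgood : ∀ r : R, ∃ z : Fin q → R, (∀ i, z i ∈ Subring.center R) ∧ c * r = ∑ i, z i * a i)
    (π : R →+* Q) (hπ : Function.Surjective π) (hker : ∀ x, π x = 0 ↔ ∃ y, x = c * y)
    (α : St ι R) (hα : mat α = 1) (h : CE (mapR π α)) : CE α := by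
  classical
  have h3 : 3 ≤ Fintype.card ι := by omega
  -- the quotient by c ^ 4
  set I := I4K c hc with hI
  let π4 : R →+* (R ⧸ I) := Ideal.Quotient.mk I
  have hπ4 : Function.Surjective π4 := Ideal.Quotient.mk_surjective
  have hπI : ∀ a ∈ I, π a = 0 := by
    rintro a ⟨y, rfl⟩
    rw [hker]
    exact ⟨c ^ 3 * y, by rw [← mul_assoc, ← pow_succ']⟩
  let τ : (R ⧸ I) →+* Q := Ideal.Quotient.lift I π hπI
  have hτπ : ∀ r, τ (π4 r) = π r := fun r => Ideal.Quotient.lift_mk I π hπI
  have hτs : Function.Surjective τ := by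
    intro b
    obtain ⟨r, rfl⟩ := hπ b
    exact ⟨π4 r, hτπ r⟩
  have hτk : ∀ b, τ b = 0 → IsUnit (1 + b) := by
    intro b hb
    obtain ⟨r, rfl⟩ := hπ4 b
    rw [hτπ, hker] at hb
    obtain ⟨y, rfl⟩ := hb
    have hnil : IsNilpotent (π4 (c * y)) := by
      refine ⟨4, ?_⟩
      rw [← map_pow]
      have hcy : (c * y) ^ 4 = c ^ 4 * y ^ 4 := (show Commute c y from hc y).mul_pow 4
      rw [hcy]
      exact Ideal.Quotient.eq_zero_iff_mem.mpr ⟨y ^ 4, rfl⟩
    exact hnil.isUnit_one_add
  have hm4 : mat (mapR π4 α) = 1 := by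
    rw [mat_mapR, hα, map_one]
  have hcomp : τ.comp π4 = π := RingHom.ext hτπ
  have hCE4 : CE (mapR π4 α) := by
    refine radical h3 τ hτs hτk (mapR π4 α) hm4 ?_
    rw [← mapR_comp, hcomp]
    exact h
  -- the finite subring
  let Z := Subring.center R
  letI : Algebra Z R := RingHom.toAlgebra' (Subring.center R).subtype (by
    intro z x
    exact ((Subring.mem_center_iff.mp z.2) x).symm)
  have hsm : ∀ (z : Z) (r : R), z • r = (z : R) * r := by
    intro z r
    rw [Algebra.smul_def]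
    rfl
  let s : Set R := insert (1 : R) (Set.range (fun i => c * a i))
  have hsfin : s.Finite := (Set.finite_range _).insert _
  let S : Submodule Z R := Submodule.span Z s
  have h1 : (1 : R) ∈ S := Submodule.subset_span (Set.mem_insert _ _)
  have hca : ∀ i, c * a i ∈ S := fun i =>
    Submodule.subset_span (Set.mem_insert_of_mem _ ⟨i, rfl⟩)
  have hcc : ∀ r : R, c * (c * r) ∈ S := by
    intro r
    obtain ⟨z, hz, hr⟩ := hgood r
    rw [hr, Finset.mul_sum]
    refine Submodule.sum_mem _ (fun i _ => ?_)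
    have h2 : c * (z i * a i) = (⟨z i, hz i⟩ : Z) • (c * a i) := by
      rw [hsm, ← mul_assoc, hc, mul_assoc]
    rw [h2]
    exact S.smul_mem _ (hca i)
  have hmul : ∀ x y, x ∈ S → y ∈ S → x * y ∈ S := by
    intro x y hx hy
    have h2 : x * y ∈ S * S := Submodule.mul_mem_mul hx hy
    rw [Submodule.span_mul_span Z s s] at h2
    refine (Submodule.span_le.mpr ?_) h2
    rintro _ ⟨u, hu, v, hv, rfl⟩
    rcases hu with rfl | ⟨i, rfl⟩
    · simp only [one_mul]
      exact Submodule.subset_span hv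
    · rcases hv with rfl | ⟨j, rfl⟩
      · simp only [mul_one]
        exact hca i
      · simp only
        have h4 : c * a i * (c * a j) = c * (c * (a i * a j)) := by
          rw [mul_assoc, ← mul_assoc (a i) c, ← hc (a i), mul_assoc]
        rw [h4]
        exact hcc _
  let L : Subalgebra Z R := S.toSubalgebra h1 hmul
  haveI : Module.Finite Z L := by
    have : Module.Finite Z S := Module.Finite.iff_fg.mpr (Submodule.fg_span hsfin)
    exact this
  have hCKL : CK ι L := CK_finite h5 (Z := Z)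
  have hCKL' : CK ι L.toSubring := hCKL
  refine descent h3 (c ^ 2) ?_ L.toSubring ?_ hCKL' π4 hπ4 ?_ α hα hCE4
  · intro r
    exact ((show Commute c r from hc r).pow_left 2).eq
  · intro r
    show c ^ 2 * r ∈ S
    rw [pow_two, mul_assoc]
    exact hcc r
  · intro r hr
    obtain ⟨y, rfl⟩ := (Ideal.Quotient.eq_zero_iff_mem.mp hr : r ∈ I)
    refine ⟨y, ?_⟩
    rw [← mul_assoc, ← pow_add]

end statements

end Pool.Agent.Helper58.K2
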