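import Pool.Agent.Helper58.K2.Defs
import Pool.Agent.Helper58.K2.JKM

set_option autoImplicit false

namespace Pool.Agent.Helper58.K2

open Matrix Pool.Agent.Helper58.EN

section statements
variable {ι : Type} [Fintype ι] [DecidableEq ι]

theorem St_fg_third (h3 : 3 ≤ Fintype.card ι) (i j : ι) : ∃ k, k ≠ i ∧ k ≠ j := by
  by_contra hcon
  push Not at hcon
  have h1 : (Finset.univ : Finset ι) ⊆ {i, j} := by
    intro k _
    rw [Finset.mem_insert, Finset.mem_singleton]
    by_cases hk : k = i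
    · left; exact hk
    · right; exact hcon k hk
  have h2 := Finset.card_le_card h1
  have h4 : ({i, j} : Finset ι).card ≤ 2 := Finset.card_le_two
  rw [Finset.card_univ] at h2
  omega

theorem St_fg (h3 : 3 ≤ Fintype.card ι) {R : Type} [Ring R] (hfg : FG R) :
    ∃ X : Finset (St ι R), Subgroup.closure (X : Set (St ι R)) = ⊤ := by
  classical
  obtain ⟨X0, hX0⟩ := hfg
  refine ⟨((Finset.univ : Finset ι) ×ˢ (Finset.univ : Finset ι) ×ˢ (insert 1 X0)).image
    (fun p => x p.1 p.2.1 p.2.2), ?_⟩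
  set S : Finset (St ι R) := ((Finset.univ : Finset ι) ×ˢ (Finset.univ : Finset ι) ×ˢ
    (insert 1 X0)).image (fun p => x p.1 p.2.1 p.2.2) with hS
  have hmem : ∀ i j, ∀ a ∈ insert (1 : R) X0, x i j a ∈ Subgroup.closure (S : Set (St ι R)) := by
    intro i j a ha
    apply Subgroup.subset_closure
    rw [Finset.mem_coe, hS, Finset.mem_image]
    exact ⟨(i, j, a), by simp only [Finset.mem_product, Finset.mem_univ, true_and]; exact ha, rfl⟩
  have key : ∀ r : R, ∀ i j : ι, x i j r ∈ Subgroup.closure (S : Set (St ι R)) := by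
    intro r
    have hr : r ∈ Subring.closure (X0 : Set R) := by rw [hX0]; trivial
    induction hr using Subring.closure_induction with
    | mem y hy =>
      intro i j
      exact hmem i j y (Finset.mem_insert_of_mem hy)
    | zero => intro i j; rw [x_sr.zero]; exact one_mem _
    | one => intro i j; exact hmem i j 1 (Finset.mem_insert_self _ _)
    | add a b _ _ ha hb => intro i j; rw [x_sr.add]; exact mul_mem (ha i j) (hb i j)
    | neg a _ ha => intro i j; rw [x_sr.neg]; exact inv_mem (ha i j)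
    | mul a b _ _ ha hb =>
      intro i j
      by_cases hij : i = j
      · subst hij; rw [x_sr.diag]; exact one_mem _
      · obtain ⟨k, hki, hkj⟩ := St_fg_third h3 i j
        rw [← x_sr.comm i k j (Ne.symm hki) hkj hij]
        exact mul_mem (mul_mem (mul_mem (ha i k) (hb k j)) (inv_mem (ha i k))) (inv_mem (hb k j))
  rw [eq_top_iff, ← closure_x (ι := ι) (A := R), Subgroup.closure_le]
  rintro _ ⟨i, j, a, rfl⟩
  exact key a i j

theorem fin_ideal_aux {R : Type} [Ring R] (Gd : Set R)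
    [(Ideal.span Gd).IsTwoSided] (g : St ι R)
    (hg : g ∈ Subgroup.normalClosure {g : St ι R | ∃ i j, ∃ a,
      Ideal.Quotient.mk (Ideal.span Gd) a = 0 ∧ g = x i j a}) :
    ∃ T : Finset R, (T : Set R) ⊆ Gd ∧ ∀ (Q : Type) [Ring Q] (π : R →+* Q),
      (∀ t ∈ T, π t = 0) → mapR π g = 1 := by
  classical
  let N : Subgroup (St ι R) :=
    { carrier := {g | ∃ T : Finset R, (T : Set R) ⊆ Gd ∧ ∀ (Q : Type) [Ring Q] (π : R →+* Q),
        (∀ t ∈ T, π t = 0) → mapR π g = 1}
      mul_mem' := by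
        rintro a b ⟨T1, h1, h1'⟩ ⟨T2, h2, h2'⟩
        refine ⟨T1 ∪ T2, ?_, ?_⟩
        · rw [Finset.coe_union]; exact Set.union_subset h1 h2
        · intro Q _ π hπ
          rw [map_mul, h1' Q π (fun t ht => hπ t (Finset.mem_union_left _ ht)),
            h2' Q π (fun t ht => hπ t (Finset.mem_union_right _ ht)), one_mul]
      one_mem' := ⟨∅, by simp, fun Q _ π _ => map_one _⟩
      inv_mem' := by
        rintro a ⟨T1, h1, h1'⟩
        exact ⟨T1, h1, fun Q _ π hπ => by rw [map_inv, h1' Q π hπ, inv_one]⟩ }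
  have hN : N.Normal := by
    constructor
    rintro n ⟨T1, h1, h1'⟩ k
    exact ⟨T1, h1, fun Q _ π hπ => by
      rw [map_mul, map_mul, map_inv, h1' Q π hπ, mul_one, mul_inv_cancel]⟩
  have hle : Subgroup.normalClosure {g : St ι R | ∃ i j, ∃ a,
      Ideal.Quotient.mk (Ideal.span Gd) a = 0 ∧ g = x i j a} ≤ N := by
    apply Subgroup.normalClosure_le_normal
    rintro _ ⟨i, j, a, ha, rfl⟩
    rw [Ideal.Quotient.eq_zero_iff_mem] at ha
    obtain ⟨T, hT, haT⟩ := Submodule.mem_span_finite_of_mem_span ha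
    refine ⟨T, hT, fun Q _ π hπ => ?_⟩
    have h1 : Ideal.span (T : Set R) ≤ RingHom.ker π := by
      rw [Ideal.span_le]
      intro t ht
      exact hπ t ht
    have h2 : π a = 0 := h1 haT
    rw [mapR_x, h2, x_sr.zero]
  exact hle hg

theorem fin_ideal (h3 : 3 ≤ Fintype.card ι) {R : Type} [Ring R] (hfg : FG R) (Gd : Set R)
    [(Ideal.span Gd).IsTwoSided] (α : St ι R)
    (h : CE (mapR (Ideal.Quotient.mk (Ideal.span Gd)) α)) :
    ∃ T : Finset R, (T : Set R) ⊆ Gd ∧ ∀ (Q : Type) [Ring Q] (π : R →+* Q),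
      Function.Surjective π → (∀ t ∈ T, π t = 0) → CE (mapR π α) := by
  classical
  obtain ⟨X, hX⟩ := St_fg (ι := ι) h3 hfg
  have h1 : ∀ y : St ι R, ∃ T : Finset R, (T : Set R) ⊆ Gd ∧ ∀ (Q : Type) [Ring Q] (π : R →+* Q),
      (∀ t ∈ T, π t = 0) → mapR π (α * y * α⁻¹ * y⁻¹) = 1 := by
    intro y
    apply fin_ideal_aux Gd
    apply ker_map _ Ideal.Quotient.mk_surjective
    have h2 := h (mapR (Ideal.Quotient.mk (Ideal.span Gd)) y)
    rw [map_mul, map_mul, map_mul, map_inv, map_inv, h2]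
    group
  choose T hT hT2 using h1
  refine ⟨X.biUnion T, ?_, ?_⟩
  · intro t ht
    rw [Finset.mem_coe, Finset.mem_biUnion] at ht
    obtain ⟨y, _, hy⟩ := ht
    exact hT y hy
  · intro Q _ π hπ hkill β
    obtain ⟨β', rfl⟩ := mapR_surj (ι := ι) π hπ β
    have hle : Subgroup.closure (X : Set (St ι R)) ≤
        (Subgroup.centralizer {mapR π α}).comap (mapR (ι := ι) π) := by
      rw [Subgroup.closure_le]
      intro y hy
      rw [SetLike.mem_coe, Subgroup.mem_comap, Subgroup.mem_centralizer_singleton_iff]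
      have h4 := hT2 y Q π (fun t ht => hkill t (Finset.mem_biUnion.mpr ⟨y, hy, ht⟩))
      rw [map_mul, map_mul, map_mul, map_inv, map_inv, mul_inv_eq_one, mul_inv_eq_iff_eq_mul] at h4
      exact h4.symm
    have h5 : β' ∈ (Subgroup.centralizer {mapR π α}).comap (mapR (ι := ι) π) := by
      apply hle
      rw [hX]; trivial
    rw [Subgroup.mem_comap, Subgroup.mem_centralizer_singleton_iff] at h5
    exact h5.symm

end statements

end Pool.Agent.Helper58.K2
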