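import Pool.Agent.Helper58.EN.JZ
import Pool.Agent.Helper58.K2.Defs
import Pool.Agent.Helper58.K2.JRD
import Pool.Agent.Helper58.K2.JCS
import Pool.Agent.Helper58.K2.JES
import Pool.Agent.Helper58.K2.JFI

set_option autoImplicit false

namespace Pool.Agent.Helper58.K2

open Matrix Pool.Agent.Helper58.EN

section statements
variable {ι : Type} [Fintype ι] [DecidableEq ι]

theorem CE_of_subsingleton {R : Type} [Ring R] [Subsingleton R] (α : St ι R) : CE α := by
  have h1 : ∀ β : St ι R, β = 1 := by
    intro β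
    induction β using St_induction with
    | h1 => rfl
    | hx i j a g ih =>
      rw [ih, mul_one, Subsingleton.elim a 0, x_sr.zero]
  intro β
  rw [h1 α, h1 β]

theorem descendK (h5 : 5 ≤ Fintype.card ι) {R : Type} [Ring R]
    (α : St ι R) (hα : mat α = 1) (cs : Finset R) : (∀ c ∈ cs, Good c) →
    ∀ (Q : Type) [Ring Q] (π : R →+* Q), Function.Surjective π →
      (∀ x, π x = 0 ↔ x ∈ Ideal.span (cs : Set R)) → CE (mapR π α) → CE α := by
  classical
  induction cs using Finset.induction_on with
  | empty =>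
    intro _ Q _ π hπ hker hN
    refine radical (by omega) π hπ ?_ α hα hN
    intro a ha
    rw [hker] at ha
    have : a = 0 := by simpa using ha
    simp [this]
  | insert c cs hc ih =>
    intro hgood Q _ π hπ hker hN
    have htw : (Ideal.span (cs : Set R)).IsTwoSided :=
      span_twoSided _ fun x hx => (hgood x (Finset.mem_insert_of_mem (by simpa using hx))).1
    have hle : ∀ a ∈ Ideal.span (cs : Set R), π a = 0 := by
      intro a ha
      rw [hker]
      refine Ideal.span_mono ?_ ha
      simp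
    let π' : R →+* R ⧸ Ideal.span (cs : Set R) := Ideal.Quotient.mk _
    have hπ' : Function.Surjective π' := Ideal.Quotient.mk_surjective
    let ρ : (R ⧸ Ideal.span (cs : Set R)) →+* Q := Ideal.Quotient.lift _ π hle
    have hρ : ∀ x, ρ (π' x) = π x := fun x => rfl
    have hcomp : ρ.comp π' = π := RingHom.ext hρ
    refine ih (fun x hx => hgood x (Finset.mem_insert_of_mem hx)) _ π' hπ' ?_ ?_
    · intro x
      exact Ideal.Quotient.eq_zero_iff_mem
    · have hg' := (hgood c (Finset.mem_insert_self c cs)).surj π' hπ'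
      obtain ⟨h1, q, a, h2⟩ := hg'
      refine central_stepK h5 (π' c) h1 a h2 ρ ?_ ?_ _ ?_ ?_
      · intro y
        obtain ⟨x, rfl⟩ := hπ y
        exact ⟨π' x, rfl⟩
      · intro x
        obtain ⟨r, rfl⟩ := hπ' x
        rw [hρ, hker, Finset.coe_insert, Ideal.mem_span_insert]
        constructor
        · rintro ⟨a, z, hz, rfl⟩
          refine ⟨π' a, ?_⟩
          have : π' z = 0 := Ideal.Quotient.eq_zero_iff_mem.2 hz
          rw [map_add, this, map_mul, add_zero, h1]
        · rintro ⟨y, hy⟩
          obtain ⟨a, rfl⟩ := hπ' y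
          refine ⟨a, r - a * c, ?_, by simp⟩
          apply Ideal.Quotient.eq_zero_iff_mem.1
          change π' (r - a * c) = 0
          rw [map_sub, hy, map_mul, h1, sub_self]
      · rw [mat_mapR, hα, map_one]
      · rw [← mapR_comp, hcomp]
        exact hN

theorem PI_surj {d : ℕ} {c : Equiv.Perm (Fin d) → ℤ} {A B : Type} [Ring A] [Ring B] (f : A →+* B)
    (hf : Function.Surjective f) (hA : PI d c A) : PI d c B := by
  intro x
  choose y hy using fun i => hf (x i)
  have := congrArg f (hA y)
  rw [map_sum, map_zero] at this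
  rw [← this]
  refine Finset.sum_congr rfl fun σ _ => ?_
  rw [map_mul, map_intCast, map_list_prod, List.map_ofFn]
  congr 3
  funext i
  simp [hy]

theorem unit_of_LN {R : Type} [Ring R] (L : Ideal R) (hL : LN (L : Set R)) (a : R) (ha : a ∈ L) :
    IsUnit (1 + a) := by
  obtain ⟨N, hN⟩ := hL {a} (by simpa using ha)
  have : IsNilpotent a := ⟨N, by
    have := hN (List.replicate N a) (by
      intro x hx
      rw [Finset.mem_singleton]
      exact (List.mem_replicate.1 hx).2) (by simp)
    rwa [List.prod_replicate] at this⟩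
  exact this.isUnit_one_add

theorem main_fg (h5 : 5 ≤ Fintype.card ι) (d : ℕ) (c : Equiv.Perm (Fin d) → ℤ) (hc : c 1 = 1)
    (k : ℕ) : ∀ (R : Type) [Ring R], FG R → PI d c R →
      (∀ (K : Type) [Field K] (j : ℕ) (φ : R →+* Matrix (Fin j) (Fin j) K),
        Submodule.span K (Set.range φ) = ⊤ → j ≤ k) → CK ι R := by
  classical
  have h3 : 3 ≤ Fintype.card ι := by omega
  induction k with
  | zero =>
    intro R _ hfg hPI hrep α hα
    obtain ⟨L, hL2, hLN, hL0⟩ := exists_levitzki R
    have hsurj : Function.Surjective (Ideal.Quotient.mk L) := Ideal.Quotient.mk_surjective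
    have hPI' : PI d c (R ⧸ L) := PI_surj _ hsurj hPI
    refine radical h3 (Ideal.Quotient.mk L) hsurj ?_ α hα ?_
    · intro a ha
      exact unit_of_LN L hLN a (Ideal.Quotient.eq_zero_iff_mem.1 ha)
    · have : Subsingleton (R ⧸ L) := by
        by_contra hns
        rw [not_subsingleton_iff_nontrivial] at hns
        obtain ⟨K, hK, j, φ, hφ, hφ2⟩ := exists_rep d c hc hPI' hL0 1 one_ne_zero
        have hj := hrep K j (φ.comp (Ideal.Quotient.mk L)) (by
          rw [RingHom.coe_comp, Set.range_comp, hsurj.range_eq, Set.image_univ, hφ])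
        have hj0 : j = 0 := by omega
        subst hj0
        apply hφ2
        ext i
        exact i.elim0
      exact CE_of_subsingleton _
  | succ k ih =>
    intro R _ hfg hPI hrep α hα
    obtain ⟨L, hL2, hLN, hL0⟩ := exists_levitzki R
    have hsurj : Function.Surjective (Ideal.Quotient.mk L) := Ideal.Quotient.mk_surjective
    have hPI' : PI d c (R ⧸ L) := PI_surj _ hsurj hPI
    have hfg' : FG (R ⧸ L) := FG_surj hfg _ hsurj
    refine radical h3 (Ideal.Quotient.mk L) hsurj ?_ α hα ?_
    · intro a ha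
      exact unit_of_LN L hLN a (Ideal.Quotient.eq_zero_iff_mem.1 ha)
    have hsep : ∀ r : R ⧸ L, r ≠ 0 → ∃ (K' : Type) (_ : Field K') (j : ℕ)
        (ψ : (R ⧸ L) →+* Matrix (Fin j) (Fin j) K'), j ≤ k + 1 ∧ ψ r ≠ 0 := by
      intro r hr
      obtain ⟨K, hK, j, φ, hφ, hφ2⟩ := exists_rep d c hc hPI' hL0 r hr
      refine ⟨K, hK, j, φ, ?_, hφ2⟩
      exact hrep K j (φ.comp (Ideal.Quotient.mk L)) (by
        rw [RingHom.coe_comp, Set.range_comp, hsurj.range_eq, Set.image_univ, hφ])
    have hα' : mat (mapR (Ideal.Quotient.mk L) α) = 1 := by rw [mat_mapR, hα, map_one]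
    generalize mapR (Ideal.Quotient.mk L) α = α' at hα'
    let Gd : Set (R ⧸ L) := {c | Good c}
    have htw : (Ideal.span Gd).IsTwoSided := span_twoSided _ fun x hx => hx.1
    let πI : (R ⧸ L) →+* (R ⧸ L) ⧸ Ideal.span Gd := Ideal.Quotient.mk _
    have hπI : Function.Surjective πI := Ideal.Quotient.mk_surjective
    have hNI : CE (mapR πI α') := by
      refine ih _ (FG_surj hfg' _ hπI) (PI_surj _ hπI hPI') ?_ _ ?_
      · intro K _ j φ hφ
        have hspan : Submodule.span K (Set.range (φ.comp πI)) = ⊤ := by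
          rw [RingHom.coe_comp, Set.range_comp, hπI.range_eq, Set.image_univ, hφ]
        have hj := hrep K j ((φ.comp πI).comp (Ideal.Quotient.mk L)) (by
          rw [RingHom.coe_comp, Set.range_comp, hsurj.range_eq, Set.image_univ, hspan])
        by_contra hcon
        have hjk : j = k + 1 := by omega
        subst hjk
        obtain ⟨c0, hc0, hc1, hc2⟩ := exists_good (Nat.succ_pos k) hsep (φ.comp πI) hspan
        apply hc2
        have hmem : c0 ∈ Ideal.span Gd := Ideal.subset_span ⟨hc0, hc1⟩
        have : πI c0 = 0 := Ideal.Quotient.eq_zero_iff_mem.2 hmem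
        simp [this]
      · rw [mat_mapR, hα', map_one]
    obtain ⟨T, hT1, hT2⟩ := fin_ideal h3 hfg' Gd α' hNI
    have hCS : ∀ c ∈ T, Good c := fun c hc => hT1 hc
    have htw2 : (Ideal.span (T : Set (R ⧸ L))).IsTwoSided :=
      span_twoSided _ fun x hx => (hCS x hx).1
    let π2 : (R ⧸ L) →+* (R ⧸ L) ⧸ Ideal.span (T : Set (R ⧸ L)) := Ideal.Quotient.mk _
    have hπ2 : Function.Surjective π2 := Ideal.Quotient.mk_surjective
    refine descendK h5 α' hα' T hCS _ π2 hπ2 (fun x => Ideal.Quotient.eq_zero_iff_mem) ?_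
    refine hT2 _ π2 hπ2 ?_
    intro t ht
    exact Ideal.Quotient.eq_zero_iff_mem.2 (Ideal.subset_span ht)

theorem FG_closure {R : Type} [Ring R] (Y : Finset R) : FG (Subring.closure (Y : Set R)) := by
  classical
  have hY : ∀ y ∈ Y, y ∈ Subring.closure (Y : Set R) := fun y hy => Subring.subset_closure hy
  let Y0 : Finset (Subring.closure (Y : Set R)) := Y.attach.image fun y => ⟨y.1, hY y.1 y.2⟩
  refine ⟨Y0, ?_⟩
  rw [Subring.eq_top_iff']
  rintro ⟨y, hy⟩
  have : y ∈ (Subring.closure (Y0 : Set (Subring.closure (Y : Set R)))).map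
      (Subring.closure (Y : Set R)).subtype := by
    rw [RingHom.map_closure]
    have h1 : ((Subring.closure (Y : Set R)).subtype '' (Y0 : Set (Subring.closure (Y : Set R)))) =
        (Y : Set R) := by
      ext w
      simp only [Y0, Set.mem_image, Finset.coe_image, Finset.mem_coe, Finset.mem_attach,
        true_and]
      constructor
      · rintro ⟨_, ⟨⟨z, hz⟩, _, rfl⟩, rfl⟩
        exact hz
      · intro hw
        exact ⟨⟨w, hY w hw⟩, ⟨⟨w, hw⟩, rfl⟩, rfl⟩
    rw [h1]
    exact hy
  obtain ⟨z, hz, hz2⟩ := this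
  have : z = ⟨y, hy⟩ := Subtype.ext hz2
  rw [← this]
  exact hz

theorem PI_sub {d : ℕ} {c : Equiv.Perm (Fin d) → ℤ} {R : Type} [Ring R] (R0 : Subring R)
    (hPI : PI d c R) : PI d c R0 := by
  intro x
  apply Subtype.ext
  have := hPI fun i => (x i : R)
  change R0.subtype _ = R0.subtype 0
  rw [map_zero, ← this, map_sum]
  refine Finset.sum_congr rfl fun σ _ => ?_
  rw [map_mul, map_intCast, map_list_prod, List.map_ofFn]
  rfl

theorem main (h5 : 5 ≤ Fintype.card ι) (d : ℕ) (c : Equiv.Perm (Fin d) → ℤ) (hc : c 1 = 1)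
    (R : Type) [Ring R] (hPI : PI d c R) : CK ι R := by
  classical
  intro α hα β
  obtain ⟨X1, h1⟩ := exists_support α
  obtain ⟨X2, h2⟩ := exists_support β
  let Y : Finset R := X1 ∪ X2
  let R0 : Subring R := Subring.closure (Y : Set R)
  have hY : (Y : Set R) ⊆ (R0 : Set R) := Subring.subset_closure
  obtain ⟨α0, hα0⟩ := h1 R0 (by
    intro z hz
    exact hY (by simp only [Y, Finset.coe_union]; exact Or.inl hz))
  obtain ⟨β0, hβ0⟩ := h2 R0 (by
    intro z hz
    exact hY (by simp only [Y, Finset.coe_union]; exact Or.inr hz))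
  have hm : mat α0 = 1 := by
    apply mapGL_injective R0.subtype Subtype.val_injective
    rw [← mat_mapR, hα0, hα, map_one]
  have hPI0 : PI d c R0 := PI_sub R0 hPI
  have hCE := main_fg h5 d c hc d R0 (FG_closure Y) hPI0
      (fun K _ j φ hφ => rep_le d c hc hPI0 φ hφ) α0 hm β0
  rw [← hα0, ← hβ0, ← map_mul, ← map_mul, hCE]

end statements

end Pool.Agent.Helper58.K2
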